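import Pool.Agent.Semistar.T3

set_option autoImplicit false

namespace Pool.Agent.Semistar

theorem chk_prim1_0 : (List.range 46).all (fun z =>
    Nat.ble z (0 - 1) || (Nat.ble 46 (0 + z) || (Nat.beq 0 0 ||
      chk [1, 2, 3, 4, 6, 1, 0, z]))) = true := by decide +kernel

theorem chk_prim1_1 : (List.range 46).all (fun z =>
    Nat.ble z (1 - 1) || (Nat.ble 46 (1 + z) || (Nat.beq 1 0 ||
      chk [1, 2, 3, 4, 6, 1, 1, z]))) = true := by decide +kernel

theorem chk_prim1_2 : (List.range 46).all (fun z =>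
    Nat.ble z (2 - 1) || (Nat.ble 46 (2 + z) || (Nat.beq 2 0 ||
      chk [1, 2, 3, 4, 6, 1, 2, z]))) = true := by decide +kernel

theorem chk_prim1_3 : (List.range 46).all (fun z =>
    Nat.ble z (3 - 1) || (Nat.ble 46 (3 + z) || (Nat.beq 3 0 ||
      chk [1, 2, 3, 4, 6, 1, 3, z]))) = true := by decide +kernel

theorem chk_prim1_4 : (List.range 46).all (fun z =>
    Nat.ble z (4 - 1) || (Nat.ble 46 (4 + z) || (Nat.beq 4 0 ||
      chk [1, 2, 3, 4, 6, 1, 4, z]))) = true := by decide +kernel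

theorem chk_prim1_5 : (List.range 46).all (fun z =>
    Nat.ble z (5 - 1) || (Nat.ble 46 (5 + z) || (Nat.beq 5 0 ||
      chk [1, 2, 3, 4, 6, 1, 5, z]))) = true := by decide +kernel

theorem chk_prim1_6 : (List.range 46).all (fun z =>
    Nat.ble z (6 - 1) || (Nat.ble 46 (6 + z) || (Nat.beq 6 0 ||
      chk [1, 2, 3, 4, 6, 1, 6, z]))) = true := by decide +kernel

theorem chk_prim1_7 : (List.range 46).all (fun z =>
    Nat.ble z (7 - 1) || (Nat.ble 46 (7 + z) || (Nat.beq 7 0 ||
      chk [1, 2, 3, 4, 6, 1, 7, z]))) = true := by decide +kernel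

theorem chk_prim1_8 : (List.range 46).all (fun z =>
    Nat.ble z (8 - 1) || (Nat.ble 46 (8 + z) || (Nat.beq 8 0 ||
      chk [1, 2, 3, 4, 6, 1, 8, z]))) = true := by decide +kernel

theorem chk_prim1_9 : (List.range 46).all (fun z =>
    Nat.ble z (9 - 1) || (Nat.ble 46 (9 + z) || (Nat.beq 9 0 ||
      chk [1, 2, 3, 4, 6, 1, 9, z]))) = true := by decide +kernel

theorem chk_prim1_10 : (List.range 46).all (fun z =>
    Nat.ble z (10 - 1) || (Nat.ble 46 (10 + z) || (Nat.beq 10 0 ||
      chk [1, 2, 3, 4, 6, 1, 10, z]))) = true := by decide +kernel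

theorem chk_prim1_11 : (List.range 46).all (fun z =>
    Nat.ble z (11 - 1) || (Nat.ble 46 (11 + z) || (Nat.beq 11 0 ||
      chk [1, 2, 3, 4, 6, 1, 11, z]))) = true := by decide +kernel

theorem chk_prim1_12 : (List.range 46).all (fun z =>
    Nat.ble z (12 - 1) || (Nat.ble 46 (12 + z) || (Nat.beq 12 0 ||
      chk [1, 2, 3, 4, 6, 1, 12, z]))) = true := by decide +kernel

theorem chk_prim1_13 : (List.range 46).all (fun z =>
    Nat.ble z (13 - 1) || (Nat.ble 46 (13 + z) || (Nat.beq 13 0 ||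
      chk [1, 2, 3, 4, 6, 1, 13, z]))) = true := by decide +kernel

theorem chk_prim1_14 : (List.range 46).all (fun z =>
    Nat.ble z (14 - 1) || (Nat.ble 46 (14 + z) || (Nat.beq 14 0 ||
      chk [1, 2, 3, 4, 6, 1, 14, z]))) = true := by decide +kernel

theorem chk_prim1_15 : (List.range 46).all (fun z =>
    Nat.ble z (15 - 1) || (Nat.ble 46 (15 + z) || (Nat.beq 15 0 ||
      chk [1, 2, 3, 4, 6, 1, 15, z]))) = true := by decide +kernel

theorem chk_prim1_16 : (List.range 46).all (fun z =>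
    Nat.ble z (16 - 1) || (Nat.ble 46 (16 + z) || (Nat.beq 16 0 ||
      chk [1, 2, 3, 4, 6, 1, 16, z]))) = true := by decide +kernel

theorem chk_prim1_17 : (List.range 46).all (fun z =>
    Nat.ble z (17 - 1) || (Nat.ble 46 (17 + z) || (Nat.beq 17 0 ||
      chk [1, 2, 3, 4, 6, 1, 17, z]))) = true := by decide +kernel

theorem chk_prim1_18 : (List.range 46).all (fun z =>
    Nat.ble z (18 - 1) || (Nat.ble 46 (18 + z) || (Nat.beq 18 0 ||
      chk [1, 2, 3, 4, 6, 1, 18, z]))) = true := by decide +kernel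

theorem chk_prim1_19 : (List.range 46).all (fun z =>
    Nat.ble z (19 - 1) || (Nat.ble 46 (19 + z) || (Nat.beq 19 0 ||
      chk [1, 2, 3, 4, 6, 1, 19, z]))) = true := by decide +kernel

theorem chk_prim1_20 : (List.range 46).all (fun z =>
    Nat.ble z (20 - 1) || (Nat.ble 46 (20 + z) || (Nat.beq 20 0 ||
      chk [1, 2, 3, 4, 6, 1, 20, z]))) = true := by decide +kernel

theorem chk_prim1_21 : (List.range 46).all (fun z =>
    Nat.ble z (21 - 1) || (Nat.ble 46 (21 + z) || (Nat.beq 21 0 ||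
      chk [1, 2, 3, 4, 6, 1, 21, z]))) = true := by decide +kernel

theorem chk_prim1_22 : (List.range 46).all (fun z =>
    Nat.ble z (22 - 1) || (Nat.ble 46 (22 + z) || (Nat.beq 22 0 ||
      chk [1, 2, 3, 4, 6, 1, 22, z]))) = true := by decide +kernel

theorem chk_prim1_23 : (List.range 46).all (fun z =>
    Nat.ble z (23 - 1) || (Nat.ble 46 (23 + z) || (Nat.beq 23 0 ||
      chk [1, 2, 3, 4, 6, 1, 23, z]))) = true := by decide +kernel

theorem chk_prim1 : (List.range 24).all (fun y => (List.range 46).all (fun z =>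
    Nat.ble z (y - 1) || (Nat.ble 46 (y + z) || (Nat.beq y 0 ||
      chk [1, 2, 3, 4, 6, 1, y, z])))) = true := by
  rw [List.all_eq_true]
  intro y hy
  rw [List.mem_range] at hy
  interval_cases y
  · exact chk_prim1_0
  · exact chk_prim1_1
  · exact chk_prim1_2
  · exact chk_prim1_3
  · exact chk_prim1_4
  · exact chk_prim1_5
  · exact chk_prim1_6
  · exact chk_prim1_7
  · exact chk_prim1_8
  · exact chk_prim1_9
  · exact chk_prim1_10
  · exact chk_prim1_11
  · exact chk_prim1_12
  · exact chk_prim1_13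
  · exact chk_prim1_14
  · exact chk_prim1_15
  · exact chk_prim1_16
  · exact chk_prim1_17
  · exact chk_prim1_18
  · exact chk_prim1_19
  · exact chk_prim1_20
  · exact chk_prim1_21
  · exact chk_prim1_22
  · exact chk_prim1_23

end Pool.Agent.Semistar
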