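import Pool.Agent.Semistar.T3exc
import Pool.Agent.Semistar.T3prim1
import Pool.Agent.Semistar.T3prim5

set_option autoImplicit false

/-!
Recursively partitionable semistars with a centre of size three and eight cliques.
-/

namespace Pool.Agent.Semistar

/-- covering condition for a centre of size three and eight cliques -/
theorem cover_three {l : List ℕ} (hl : ∀ a ∈ l, a ≠ 0) (hlen : l.length = 8) (h : RL 3 l)
    {a : ℕ} (ha : 1 ≤ a) (ha' : a < 3 + l.sum) :
    ∃ s, (s = a ∨ s = 3 + l.sum - a) ∧
      ((∃ e m, l.Perm (e :: m) ∧ s ≤ e ∧ RL 3 ((e - s) :: m)) ∨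
      (∃ t u, l.Perm (t ++ u) ∧ t.length = 3 ∧ u.length = 5 ∧ 1 + t.sum = s ∧
        RL 1 t ∧ RL 2 u)) := by
  rw [RL_iff] at h
  obtain ⟨x₀, y₀, x, y, h0, hs, hax, hx, hy⟩ := h.2.2 a ha ha'
  have e1 := hs.sum
  have hle := hs.nz_le
  rw [nz_of_pos hl] at hle
  have hcases : x₀ = 0 ∨ x₀ = 1 ∨ x₀ = 2 ∨ x₀ = 3 := by omega
  rcases hcases with rfl | rfl | rfl | rfl
  · have hy0 : y₀ = 3 := by omega
    subst hy0
    obtain ⟨e, m, h3, h4, -, h5⟩ := RL_zero_chunk hs hx
    exact ⟨x.sum, Or.inl (by omega), Or.inl ⟨e, m, h3, h4, hy.perm h5⟩⟩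
  · have hy0 : y₀ = 2 := by omega
    subst hy0
    have hnx := RL_one_nz hx
    have hny := RL_two_nz hy
    have hp := hs.pick hl (by omega)
    refine ⟨a, Or.inl rfl, Or.inr ⟨_, _, hp, ?_, ?_, ?_, RL_filter.1 hx, RL_filter.1 hy⟩⟩
    · show nz x = 3
      omega
    · show nz y = 5
      omega
    · rw [sum_filter_ne]; exact hax
  · have hy0 : y₀ = 1 := by omega
    subst hy0
    have hnx := RL_two_nz hx
    have hny := RL_one_nz hy
    have hp := hs.symm.pick hl (by omega)
    refine ⟨3 + l.sum - a, Or.inr rfl, Or.inr ⟨_, _, hp, ?_, ?_, ?_, RL_filter.1 hy,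
      RL_filter.1 hx⟩⟩
    · show nz y = 3
      omega
    · show nz x = 5
      omega
    · rw [sum_filter_ne]; omega
  · have hy0 : y₀ = 0 := by omega
    subst hy0
    obtain ⟨e, m, h3, h4, -, h5⟩ := RL_zero_chunk hs.symm hy
    exact ⟨y.sum, Or.inr (by omega), Or.inl ⟨e, m, h3, h4, hx.perm h5⟩⟩

/-- `l` arises from `F1` or `F2` by enlarging one clique by `s` -/
def Exc (l : List ℕ) (s : ℕ) : Prop :=
  ∃ e m, 1 ≤ s ∧ 1 ≤ e ∧ l.Perm ((e + s) :: m) ∧ ((e :: m).Perm F1 ∨ (e :: m).Perm F2)

/-- the covering condition used in the main argument -/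
def Cov (l : List ℕ) (a : ℕ) : Prop :=
  ∃ s, (s = a ∨ s = 3 + l.sum - a) ∧ (s ∈ l ∨ Exc l s ∨
    ∃ t u, l.Perm (t ++ u) ∧ t.length = 3 ∧ u.length = 5 ∧ 1 + t.sum = s ∧ RL 1 t ∧ RL 2 u)

theorem F1_sum : F1.sum = 20 := by decide
theorem F2_sum : F2.sum = 26 := by decide

theorem Exc.sum {l : List ℕ} {s : ℕ} (h : Exc l s) : l.sum = s + 20 ∨ l.sum = s + 26 := by
  obtain ⟨e, m, hs, he, hp, h1 | h1⟩ := h
  · left
    have h2 := h1.sum_eq
    rw [F1_sum, List.sum_cons] at h2
    rw [hp.sum_eq, List.sum_cons]
    omega
  · right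
    have h2 := h1.sum_eq
    rw [F2_sum, List.sum_cons] at h2
    rw [hp.sum_eq, List.sum_cons]
    omega

theorem Cov.congr {l l' : List ℕ} (hp : l.Perm l') {a : ℕ} (h : Cov l a) : Cov l' a := by
  obtain ⟨s, hs, h1⟩ := h
  refine ⟨s, by rw [← hp.sum_eq]; exact hs, ?_⟩
  rcases h1 with h1 | ⟨e, m, h2, h3, h4, h5⟩ | ⟨t, u, h2, h3⟩
  · exact Or.inl (hp.mem_iff.1 h1)
  · exact Or.inr (Or.inl ⟨e, m, h2, h3, hp.symm.trans h4, h5⟩)
  · exact Or.inr (Or.inr ⟨t, u, hp.symm.trans h2, h3⟩)

/-- the covering condition follows from the classification of smaller semistars -/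
theorem cov_of {l : List ℕ} (hl : ∀ a ∈ l, a ≠ 0) (hlen : l.length = 8) (h : RL 3 l)
    (ih : ∀ l' : List ℕ, l'.sum < l.sum → (∀ a ∈ l', a ≠ 0) → l'.length = 8 → RL 3 l' →
      l'.Perm F1 ∨ l'.Perm F2)
    {a : ℕ} (ha : 1 ≤ a) (ha' : a < 3 + l.sum) : Cov l a := by
  obtain ⟨s, hs, ⟨e, m, hp, hse, hR⟩ | h1⟩ := cover_three hl hlen h ha ha'
  · refine ⟨s, hs, ?_⟩
    rcases Nat.lt_or_ge s e with hlt | hge
    · right; left
      have e1 := hp.sum_eq
      have e2 := hp.length_eq
      rw [List.sum_cons] at e1
      rw [List.length_cons] at e2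
      have hm : ∀ a ∈ m, a ≠ 0 := fun a ha => hl a (hp.mem_iff.2 (by simp [ha]))
      have h1 : ∀ a ∈ (e - s) :: m, a ≠ 0 := by
        intro a ha
        rw [List.mem_cons] at ha
        rcases ha with ha | ha
        · omega
        · exact hm a ha
      have := ih ((e - s) :: m) (by rw [List.sum_cons]; omega) h1
        (by rw [List.length_cons]; omega) hR
      refine ⟨e - s, m, by omega, by omega, ?_, this⟩
      rw [Nat.sub_add_cancel hse]
      exact hp
    · left
      have : s = e := by omega
      rw [this]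
      exact hp.mem_iff.2 (by simp)
  · exact ⟨s, hs, Or.inr (Or.inr h1)⟩

theorem any_beq_one {t : List ℕ} (h : 1 ∈ t) : t.any (Nat.beq 1) = true := by
  rw [List.any_eq_true]
  exact ⟨1, h, rfl⟩

theorem w0_of_RL {t : List ℕ} (ht : ∀ a ∈ t, a ≠ 0) (hlen : t.length = 3) (h : RL 1 t) :
    w0 t = true := by
  rw [w0, Bool.or_eq_true]
  rcases RL_one_mem ht hlen h with h | h
  · exact Or.inl (any_beq_one h)
  · exact Or.inr (List.isPerm_iff.2 h)

theorem beq_ne_false {x y : ℕ} (hxy : x = y) : ¬ (Nat.beq x y = false) := by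
  intro hf
  rw [← Nat.beq_eq] at hxy
  rw [hxy] at hf
  exact absurd hf (by simp)

/-- soundness of the finite check -/
theorem chk_sound {l : List ℕ} (hl : ∀ a ∈ l, a ≠ 0) (hc : chk l = true)
    (hcov : ∀ a, 1 ≤ a → a < 3 + l.sum → Cov l a) : l.Perm F1 ∨ l.Perm F2 := by
  simp only [chk, Bool.or_eq_true] at hc
  rcases hc with hc | hc | hc | hc
  · exfalso
    simp only [cheap, List.any_eq_true, List.mem_range, List.all_eq_true, Bool.and_eq_true,
      Bool.not_eq_true'] at hc
    obtain ⟨i, hi, h⟩ := hc
    obtain ⟨s, hs, h1⟩ := hcov (i + 1) (by omega) (by omega)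
    have key : ∀ s' ∈ sig0 l, (s' = i + 1 ∨ s' + (i + 1) = 3 + l.sum) → False := by
      intro s' hs' h2
      have h3 := h s' hs'
      rcases h2 with h2 | h2
      · exact beq_ne_false h2 h3.1
      · exact beq_ne_false h2 h3.2
    have hs' : s = i + 1 ∨ s + (i + 1) = 3 + l.sum := by omega
    rcases h1 with h1 | h1 | ⟨t, u, hp, ht, hu, hts, hRt, hRu⟩
    · exact key s (by simp [sig0, h1]) hs'
    · rcases h1.sum with h2 | h2
      · exact key 23 (by simp [sig0]) (by omega)
      · exact key 29 (by simp [sig0]) (by omega)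
    · obtain ⟨p, hpk, h3, h4⟩ := picks_complete hp
      rw [ht] at hpk
      have hw := w0_of_RL (t := p.1) (fun a ha => hl a (hp.mem_iff.2 (by
        rw [List.mem_append]; exact Or.inl (h3.mem_iff.2 ha)))) (by rw [← h3.length_eq]; exact ht)
        (hRt.perm h3)
      refine key s ?_ hs'
      rw [← hts, h3.sum_eq]
      simp only [sig0, List.mem_append, List.mem_map, List.mem_filter]
      exact Or.inr (Or.inr ⟨p, ⟨hpk, hw⟩, rfl⟩)
  · exfalso
    simp only [ref3, List.any_eq_true, List.mem_range, List.all_eq_true, Bool.and_eq_true,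
      Bool.not_eq_true', Bool.or_eq_true] at hc
    obtain ⟨i, hi, h, h'⟩ := hc
    obtain ⟨s, hs, h1⟩ := hcov (i + 1) (by omega) (by omega)
    have key : ∀ s' ∈ l ++ [23, 29], (s' = i + 1 ∨ s' + (i + 1) = 3 + l.sum) → False := by
      intro s' hs' h2
      have h3 := h s' hs'
      rcases h2 with h2 | h2
      · exact beq_ne_false h2 h3.1
      · exact beq_ne_false h2 h3.2
    have hs' : s = i + 1 ∨ s + (i + 1) = 3 + l.sum := by omega
    rcases h1 with h1 | h1 | ⟨t, u, hp, ht, hu, hts, hRt, hRu⟩
    · exact key s (by simp [h1]) hs'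
    · rcases h1.sum with h2 | h2
      · exact key 23 (by simp) (by omega)
      · exact key 29 (by simp) (by omega)
    · obtain ⟨p, hpk, h3, h4⟩ := picks_complete hp
      rw [ht] at hpk
      rcases h' p hpk with ⟨h5, h6⟩ | h5 | h5
      · rw [h3.sum_eq] at hts
        rcases hs' with h7 | h7
        · exact beq_ne_false (by omega) h5
        · exact beq_ne_false (by omega) h6
      · exact n1_sound NT_sound h5 (hRt.perm h3)
      · exact n2_sound NT_sound h5 (hRu.perm h4)
  · exact Or.inl (List.isPerm_iff.1 hc)
  · exact Or.inr (List.isPerm_iff.1 hc)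

/-- a recursively partitionable `K_3` semistar with eight cliques contains a clique of size one -/
theorem one_mem {l : List ℕ} (hl : ∀ a ∈ l, a ≠ 0) (hlen : l.length = 8)
    (hcov : ∀ a, 1 ≤ a → a < 3 + l.sum → Cov l a) : 1 ∈ l := by
  have hsum := sum_ge_length hl
  obtain ⟨s, hs, h1⟩ := hcov 1 (le_refl 1) (by omega)
  rcases h1 with h1 | ⟨e, m, hs1, he1, hp, h2⟩ | ⟨t, u, hp, ht, hu, hts, hRt, hRu⟩
  · rcases hs with rfl | rfl
    · exact h1
    · have := mem_le_sum hl h1
      omega
  · have h3 : 1 ∈ m := by
      have hc : (e :: m).count 1 = 3 := by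
        rcases h2 with h2 | h2
        · rw [h2.count_eq]; decide
        · rw [h2.count_eq]; decide
      rw [← List.count_pos_iff]
      have : (e :: m).count 1 ≤ m.count 1 + 1 := by
        rw [List.count_cons]
        split_ifs <;> omega
      omega
    exact hp.mem_iff.2 (by simp [h3])
  · have e1 := hp.sum_eq
    rw [List.sum_append] at e1
    have htp : ∀ a ∈ t, a ≠ 0 := fun a ha => hl a (hp.mem_iff.2 (by simp [ha]))
    have hup : ∀ a ∈ u, a ≠ 0 := fun a ha => hl a (hp.mem_iff.2 (by simp [ha]))
    have h2 := sum_ge_length htp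
    have h3 := sum_ge_length hup
    omega

theorem picks_two_length {m : List ℕ} (h : m.length = 7) : (picks 2 m).length = 21 := by
  match m, h with
  | [a, b, c, d, e, f, g], _ => rfl

/-- the pigeonhole bound on the number of vertices -/
theorem sum_le {l : List ℕ} (hl : ∀ a ∈ l, a ≠ 0) (hlen : l.length = 8)
    (hcov : ∀ a, 1 ≤ a → a < 3 + l.sum → Cov l a) : l.sum ≤ 62 := by
  obtain ⟨m, hm⟩ := exists_perm_cons (one_mem hl hlen hcov)
  have hmlen : m.length = 7 := by
    have := hm.length_eq
    rw [List.length_cons] at this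
    omega
  set n := 3 + l.sum with hn
  set S : List ℕ := l ++ ((picks 2 m).map (fun p => 2 + p.1.sum) ++ [13, 23, 29]) with hS
  have hSlen : S.length = 32 := by
    rw [hS, List.length_append, List.length_append, List.length_map, picks_two_length hmlen, hlen]
    rfl
  have hcover : ∀ a, 1 ≤ a → a < n → a ∈ S ∨ n - a ∈ S := by
    intro a ha ha'
    obtain ⟨s, hs, h1⟩ := hcov a ha (by omega)
    have key : s ∈ S → a ∈ S ∨ n - a ∈ S := by
      intro h
      rcases hs with rfl | rfl
      · exact Or.inl h
      · exact Or.inr h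
    rcases h1 with h1 | h1 | ⟨t, u, hp, ht, hu, hts, hRt, hRu⟩
    · exact key (by rw [hS]; simp [h1])
    · have h2 : 23 ∈ S := by rw [hS]; simp
      have h3 : 29 ∈ S := by rw [hS]; simp
      rcases h1.sum with h4 | h4
      · rcases hs with hs | hs
        · right
          have : n - a = 23 := by omega
          rw [this]; exact h2
        · left
          have : a = 23 := by omega
          rw [this]; exact h2
      · rcases hs with hs | hs
        · right
          have : n - a = 29 := by omega
          rw [this]; exact h3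
        · left
          have : a = 29 := by omega
          rw [this]; exact h3
    · apply key
      have htp : ∀ a ∈ t, a ≠ 0 := fun a ha => hl a (hp.mem_iff.2 (by simp [ha]))
      rcases RL_one_mem htp ht hRt with h2 | h2
      · obtain ⟨t', ht'⟩ := exists_perm_cons h2
        have h3 : m.Perm (t' ++ u) := by
          have h4 : (1 :: m).Perm (1 :: (t' ++ u)) :=
            hm.symm.trans (hp.trans (ht'.append_right u))
          exact (List.perm_cons 1).1 h4
        obtain ⟨p, hpk, h5, h6⟩ := picks_complete h3
        have ht'len : t'.length = 2 := by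
          have := ht'.length_eq
          rw [List.length_cons] at this
          omega
        rw [ht'len] at hpk
        have h7 : s = 2 + p.1.sum := by
          rw [← hts, ht'.sum_eq, List.sum_cons, h5.sum_eq]
          omega
        rw [hS, h7]
        simp only [List.mem_append, List.mem_map]
        exact Or.inr (Or.inl ⟨p, hpk, rfl⟩)
      · have h3 : s = 13 := by rw [← hts, h2.sum_eq]; rfl
        rw [hS, h3]
        simp
  -- count
  have hsub : Finset.Icc 1 (n / 2) ⊆
      (S.map (fun s => if 2 * s ≤ n then s else n - s)).toFinset := by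
    intro a ha
    rw [Finset.mem_Icc] at ha
    rw [List.mem_toFinset, List.mem_map]
    rcases hcover a ha.1 (by omega) with h | h
    · exact ⟨a, h, by rw [if_pos (by omega)]⟩
    · refine ⟨n - a, h, ?_⟩
      split_ifs with h2 <;> omega
  have h1 := Finset.card_le_card hsub
  rw [Nat.card_Icc] at h1
  have h2 := List.toFinset_card_le (S.map (fun s => if 2 * s ≤ n then s else n - s))
  rw [List.length_map, hSlen] at h2
  omega

theorem sort2 (x y : ℕ) : ∃ x' y', [x, y].Perm [x', y'] ∧ x' ≤ y' := by
  rcases Nat.le_total x y with h | h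
  · exact ⟨x, y, List.Perm.refl _, h⟩
  · exact ⟨y, x, List.Perm.swap _ _ _, h⟩

theorem main3 {l : List ℕ} (hl : ∀ a ∈ l, a ≠ 0) (hlen : l.length = 8) (h : RL 3 l) :
    l.Perm F1 ∨ l.Perm F2 := by
  induction hn : l.sum using Nat.strong_induction_on generalizing l with
  | _ n ih =>
    subst hn
    have hcov : ∀ a, 1 ≤ a → a < 3 + l.sum → Cov l a := fun a ha ha' =>
      cov_of hl hlen h (fun l' h1 h2 h3 h4 => ih _ h1 h2 h3 h4 rfl) ha ha'
    have hsum := sum_le hl hlen hcov
    have hsum' := sum_ge_length hl
    -- soundness of the check up to permutation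
    have fin : ∀ l' : List ℕ, l.Perm l' → chk l' = true → l.Perm F1 ∨ l.Perm F2 := by
      intro l' hp hc
      have h1 := chk_sound (l := l') (fun a ha => hl a (hp.mem_iff.2 ha)) hc
        (fun a ha ha' => (hcov a ha (by rw [hp.sum_eq]; exact ha')).congr hp)
      rcases h1 with h1 | h1
      · exact Or.inl (hp.trans h1)
      · exact Or.inr (hp.trans h1)
    by_cases hexc : ∃ s, Exc l s
    · obtain ⟨s, e, m, hs1, he1, hp, h1 | h1⟩ := hexc
      · obtain ⟨m', hm', hmm⟩ := sel_complete h1.symm
        have h2 := chk_exc1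
        simp only [List.all_eq_true, List.mem_range] at h2
        have h3 := h2 _ hm' s (by
          have e1 := hp.sum_eq
          have e2 := h1.sum_eq
          rw [List.sum_cons] at e1 e2
          rw [F1_sum] at e2
          omega)
        exact fin _ (hp.trans (hmm.cons _)) h3
      · obtain ⟨m', hm', hmm⟩ := sel_complete h1.symm
        have h2 := chk_exc2
        simp only [List.all_eq_true, List.mem_range] at h2
        have h3 := h2 _ hm' s (by
          have e1 := hp.sum_eq
          have e2 := h1.sum_eq
          rw [List.sum_cons] at e1 e2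
          rw [F2_sum] at e2
          omega)
        exact fin _ (hp.trans (hmm.cons _)) h3
    · push Not at hexc
      -- parts of size at most six
      have H : ∀ a, 1 ≤ a → a ≤ 6 → a ∈ l ∨
          (∃ t u, l.Perm (t ++ u) ∧ t.length = 3 ∧ (∀ a ∈ t, a ≠ 0) ∧ 1 + t.sum = a ∧
            RL 1 t) := by
        intro a ha ha6
        obtain ⟨s, hs, h1 | h1 | ⟨t, u, hp, ht, hu, hts, hRt, hRu⟩⟩ := hcov a ha (by omega)
        · rcases hs with rfl | rfl
          · exact Or.inl h1
          · have := mem_le_sum hl h1
            omega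
        · exact (hexc s h1).elim
        · right
          have e1 := hp.sum_eq
          rw [List.sum_append] at e1
          have htp : ∀ a ∈ t, a ≠ 0 := fun a ha => hl a (hp.mem_iff.2 (by simp [ha]))
          have hup : ∀ a ∈ u, a ≠ 0 := fun a ha => hl a (hp.mem_iff.2 (by simp [ha]))
          have h2 := sum_ge_length htp
          have h3 := sum_ge_length hup
          exact ⟨t, u, hp, ht, htp, by omega, hRt⟩
      have small : ∀ a, 1 ≤ a → a < 4 → a ∈ l := by
        intro a ha ha4
        rcases H a ha (by omega) with h | ⟨t, u, hp, ht, htp, hta, -⟩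
        · exact h
        · have := sum_ge_length htp
          omega
      obtain ⟨m1, hm1⟩ := exists_perm_cons (small 1 (by omega) (by omega))
      have h2 : 2 ∈ m1 := by
        have := hm1.mem_iff.1 (small 2 (by omega) (by omega))
        simpa using this
      obtain ⟨m2, hm2⟩ := exists_perm_cons h2
      have h3 : 3 ∈ m2 := by
        have := hm1.mem_iff.1 (small 3 (by omega) (by omega))
        simp only [List.mem_cons] at this
        rcases this with h | h
        · omega
        · have := hm2.mem_iff.1 h
          simpa using this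
      obtain ⟨m3, hm3⟩ := exists_perm_cons h3
      have hp3 : l.Perm (1 :: 2 :: 3 :: m3) :=
        hm1.trans ((hm2.trans (hm3.cons 2)).cons 1)
      have h4 : 4 ∈ l := by
        rcases H 4 (by omega) (by omega) with h | ⟨t, u, hp, ht, htp, hta, hRt⟩
        · exact h
        · exact (not_RL_one_sum_three htp ht (by omega) hRt).elim
      have h4' : 4 ∈ m3 := by
        have := hp3.mem_iff.1 h4
        simpa using this
      obtain ⟨m4, hm4⟩ := exists_perm_cons h4'
      have h6 : 6 ∈ l := by
        rcases H 6 (by omega) (by omega) with h | ⟨t, u, hp, ht, htp, hta, hRt⟩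
        · exact h
        · exact (not_RL_one_sum_five htp ht (by omega) hRt).elim
      have h6' : 6 ∈ m4 := by
        have := hp3.mem_iff.1 h6
        simp only [List.mem_cons] at this
        rcases this with h | h | h | h
        · omega
        · omega
        · omega
        · have := hm4.mem_iff.1 h
          simpa using this
      obtain ⟨m5, hm5⟩ := exists_perm_cons h6'
      have hp5 : l.Perm (1 :: 2 :: 3 :: 4 :: 6 :: m5) :=
        hp3.trans ((((hm4.trans (hm5.cons 4)).cons 3).cons 2).cons 1)
      have e5 := hp5.sum_eq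
      have e6 := hp5.length_eq
      simp only [List.sum_cons, List.length_cons] at e5 e6
      have hm5' : ∀ a ∈ m5, a ≠ 0 := fun a ha => hl a (hp5.mem_iff.2 (by simp [ha]))
      -- one of the three remaining cliques has size one or five
      have hw : 1 ∈ m5 ∨ 5 ∈ m5 := by
        rcases H 5 (by omega) (by omega) with h | ⟨t, u, hp, ht, htp, hta, hRt⟩
        · right
          have := hp5.mem_iff.1 h
          simpa using this
        · left
          -- t is a permutation of [1, 1, 2]
          obtain ⟨p, q, r, rfl⟩ : ∃ p q r, t = [p, q, r] := by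
            match t, ht with
            | [p, q, r], _ => exact ⟨p, q, r, rfl⟩
          have hp0 := htp p (by simp)
          have hq0 := htp q (by simp)
          have hr0 := htp r (by simp)
          simp only [List.sum_cons, List.sum_nil] at hta
          have hc1 : 2 ≤ [p, q, r].count 1 := by
            have : (p = 1 ∧ q = 1) ∨ (p = 1 ∧ r = 1) ∨ (q = 1 ∧ r = 1) := by omega
            rcases this with ⟨rfl, rfl⟩ | ⟨rfl, rfl⟩ | ⟨rfl, rfl⟩
            · simp [List.count_cons]
            · simp [List.count_cons]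
            · simp [List.count_cons]
          have hc2 : 2 ≤ l.count 1 := by
            rw [hp.count_eq, List.count_append]; omega
          rw [hp5.count_eq] at hc2
          simp only [List.count_cons] at hc2
          rw [← List.count_pos_iff]
          norm_num at hc2
          omega
      rcases hw with hw | hw
      · obtain ⟨m6, hm6⟩ := exists_perm_cons hw
        have e7 := hm6.sum_eq
        have e8 := hm6.length_eq
        rw [List.sum_cons] at e7
        rw [List.length_cons] at e8
        obtain ⟨y, z, rfl⟩ : ∃ y z, m6 = [y, z] := by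
          match m6, (show m6.length = 2 by omega) with
          | [y, z], _ => exact ⟨y, z, rfl⟩
        obtain ⟨y', z', hyz, hle⟩ := sort2 y z
        have hpf : l.Perm [1, 2, 3, 4, 6, 1, y', z'] :=
          hp5.trans ((((((hm6.trans (hyz.cons 1)).cons 6).cons 4).cons 3).cons 2).cons 1)
        have hy0 : y' ≠ 0 := hl _ (hpf.mem_iff.2 (by simp))
        have e9 := hpf.sum_eq
        simp only [List.sum_cons, List.sum_nil] at e9
        have h7 := chk_prim1
        simp only [List.all_eq_true, List.mem_range] at h7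
        have h8 := h7 y' (by omega) z' (by omega)
        simp only [Bool.or_eq_true, Nat.ble_eq, Nat.beq_eq] at h8
        rcases h8 with h8 | h8 | h8 | h8
        · omega
        · omega
        · omega
        · exact fin _ hpf h8
      · obtain ⟨m6, hm6⟩ := exists_perm_cons hw
        have e7 := hm6.sum_eq
        have e8 := hm6.length_eq
        rw [List.sum_cons] at e7
        rw [List.length_cons] at e8
        obtain ⟨y, z, rfl⟩ : ∃ y z, m6 = [y, z] := by
          match m6, (show m6.length = 2 by omega) with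
          | [y, z], _ => exact ⟨y, z, rfl⟩
        obtain ⟨y', z', hyz, hle⟩ := sort2 y z
        have hpf : l.Perm [1, 2, 3, 4, 6, 5, y', z'] :=
          hp5.trans ((((((hm6.trans (hyz.cons 5)).cons 6).cons 4).cons 3).cons 2).cons 1)
        have hy0 : y' ≠ 0 := hl _ (hpf.mem_iff.2 (by simp))
        have e9 := hpf.sum_eq
        simp only [List.sum_cons, List.sum_nil] at e9
        have h7 := chk_prim5
        simp only [List.all_eq_true, List.mem_range] at h7
        have h8 := h7 y' (by omega) z' (by omega)
        simp only [Bool.or_eq_true, Nat.ble_eq, Nat.beq_eq] at h8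
        rcases h8 with h8 | h8 | h8 | h8
        · omega
        · omega
        · omega
        · exact fin _ hpf h8

end Pool.Agent.Semistar
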