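import Pool.Agent.Semistar.T1

set_option autoImplicit false

/-!
Certificates that some semistars are recursively partitionable.
-/

namespace Pool.Agent.Semistar

/-- entrywise inequality of lists of the same length -/
def leL : List ℕ → List ℕ → Bool
  | [], [] => true
  | a :: x, b :: l => Nat.ble a b && leL x l
  | _, _ => false

/-- entrywise difference -/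
def subL : List ℕ → List ℕ → List ℕ
  | b :: l, a :: x => (b - a) :: subL l x
  | _, _ => []

theorem split_of_leL : ∀ {x l : List ℕ}, leL x l = true → Split l x (subL l x) := by
  intro x
  induction x with
  | nil =>
    intro l h
    cases l with
    | nil => exact Split.nil
    | cons b l => simp [leL] at h
  | cons a x ih =>
    intro l h
    cases l with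
    | nil => simp [leL] at h
    | cons b l =>
      simp only [leL, Bool.and_eq_true, Nat.ble_eq] at h
      have := (ih h.2).cons a (b - a)
      rw [Nat.add_sub_cancel' h.1] at this
      exact this

/-- known to be recursively partitionable -/
def okP (T : List (ℕ × List ℕ)) (c : ℕ) (l : List ℕ) : Bool :=
  (Nat.ble 1 (c + l.sum) && Nat.ble (nz l) (c + 1)) || T.contains (c, srt l)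

def SoundP (T : List (ℕ × List ℕ)) : Prop := ∀ p ∈ T, RL p.1 p.2

theorem okP_sound {T : List (ℕ × List ℕ)} (hT : SoundP T) {c : ℕ} {l : List ℕ}
    (h : okP T c l = true) : RL c l := by
  simp only [okP, Bool.or_eq_true, Bool.and_eq_true, Nat.ble_eq] at h
  rcases h with h | h
  · exact RL_of_nz_le h.2 h.1
  · have h1 : ((c, srt l) : ℕ × List ℕ) ∈ T := by simpa using h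
    exact RL_srt.1 (hT _ h1)

/-- checks the splittings for the part sizes `a, a + 1, …` -/
def chkCert (T : List (ℕ × List ℕ)) (c : ℕ) (l : List ℕ) : ℕ → List (ℕ × List ℕ) → Bool
  | _, [] => true
  | a, p :: C => (leL p.2 l && (Nat.ble p.1 c && (Nat.beq (p.1 + p.2.sum) a &&
      (okP T p.1 p.2 && okP T (c - p.1) (subL l p.2))))) && chkCert T c l (a + 1) C

theorem chkCert_sound {T : List (ℕ × List ℕ)} (hT : SoundP T) {c : ℕ} {l : List ℕ}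
    (C : List (ℕ × List ℕ)) : ∀ a, chkCert T c l a C = true → ∀ b, a ≤ b → b < a + C.length →
    ∃ (x₀ y₀ : ℕ) (x y : List ℕ), x₀ + y₀ = c ∧ Split l x y ∧ x₀ + x.sum = b ∧
      RL x₀ x ∧ RL y₀ y := by
  induction C with
  | nil => intro a _ b h1 h2; rw [List.length_nil] at h2; omega
  | cons p C ih =>
    intro a h b h1 h2
    simp only [chkCert, Bool.and_eq_true, Nat.ble_eq, Nat.beq_eq] at h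
    rcases Nat.eq_or_lt_of_le h1 with rfl | hlt
    · obtain ⟨⟨h3, h4, h5, h6, h7⟩, -⟩ := h
      exact ⟨p.1, c - p.1, p.2, subL l p.2, by omega, split_of_leL h3, h5,
        okP_sound hT h6, okP_sound hT h7⟩
    · rw [List.length_cons] at h2
      exact ih (a + 1) h.2 b (by omega) (by omega)

/-- checks a table of recursively partitionable semistars; each entry uses those after it -/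
def chkPos : List (ℕ × List ℕ × List (ℕ × List ℕ)) → Bool
  | [] => true
  | e :: T => (Nat.ble 1 e.1 && (Nat.beq e.2.2.length ((e.1 + e.2.1.sum) / 2) &&
      chkCert (T.map (fun q => (q.1, q.2.1))) e.1 e.2.1 1 e.2.2)) && chkPos T

theorem chkPos_sound (T : List (ℕ × List ℕ × List (ℕ × List ℕ))) (h : chkPos T = true) :
    SoundP (T.map (fun q => (q.1, q.2.1))) := by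
  induction T with
  | nil => intro p hp; simp at hp
  | cons e T ih =>
    simp only [chkPos, Bool.and_eq_true, Nat.ble_eq, Nat.beq_eq] at h
    intro q hq
    simp only [List.map_cons, List.mem_cons] at hq
    rcases hq with rfl | hq
    · obtain ⟨⟨h1, h2, h3⟩, h4⟩ := h
      have h5 := chkCert_sound (ih h4) e.2.2 1 h3
      simp only
      rw [RL_iff]
      refine ⟨by omega, Or.inl h1, fun a ha ha' => ?_⟩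
      by_cases hle : a ≤ (e.1 + e.2.1.sum) / 2
      · exact h5 a ha (by omega)
      · obtain ⟨x₀, y₀, x, y, g1, g2, g3, g4, g5⟩ := h5 (e.1 + e.2.1.sum - a) (by omega)
          (by omega)
        have := g2.sum
        exact ⟨y₀, x₀, y, x, by omega, g2.symm, by omega, g5, g4⟩
    · exact ih h.2 q hq

/-- the table of certificates -/
def PT : List (ℕ × List ℕ × List (ℕ × List ℕ)) :=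
  [(3, [1, 1, 1, 2, 3, 4, 6, 8], [(0, [0, 0, 1, 0, 0, 0, 0, 0]), (0, [0, 0, 0, 2, 0, 0, 0, 0]), (0, [0, 0, 0, 0, 3, 0, 0, 0]), (0, [0, 0, 0, 0, 0, 4, 0, 0]), (1, [0, 1, 1, 2, 0, 0, 0, 0]), (0, [0, 0, 0, 0, 0, 0, 6, 0]), (1, [0, 1, 1, 0, 0, 4, 0, 0]), (0, [0, 0, 0, 0, 0, 0, 0, 8]), (1, [0, 0, 1, 0, 3, 4, 0, 0]), (1, [0, 0, 1, 2, 0, 0, 6, 0]), (1, [0, 1, 1, 0, 0, 0, 0, 8]), (1, [0, 0, 1, 0, 0, 4, 6, 0]), (1, [0, 0, 1, 0, 3, 0, 0, 8]), (1, [0, 0, 1, 0, 0, 4, 0, 8])]),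
   (3, [1, 1, 2, 3, 4, 6, 8], [(0, [0, 1, 0, 0, 0, 0, 0]), (0, [0, 0, 2, 0, 0, 0, 0]), (0, [0, 0, 0, 3, 0, 0, 0]), (0, [0, 0, 0, 0, 4, 0, 0]), (1, [1, 1, 2, 0, 0, 0, 0]), (0, [0, 0, 0, 0, 0, 6, 0]), (1, [0, 1, 2, 3, 0, 0, 0]), (1, [0, 1, 2, 0, 4, 0, 0]), (1, [0, 1, 0, 3, 4, 0, 0]), (1, [0, 1, 2, 0, 0, 6, 0]), (1, [1, 1, 0, 0, 0, 0, 8]), (1, [0, 0, 0, 3, 0, 0, 8]), (2, [1, 1, 2, 3, 4, 0, 0]), (1, [0, 1, 0, 0, 4, 0, 8])]),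
   (3, [1, 1, 1, 3, 4, 6, 8], [(0, [0, 0, 1, 0, 0, 0, 0]), (0, [0, 0, 0, 0, 2, 0, 0]), (0, [0, 0, 0, 3, 0, 0, 0]), (0, [0, 0, 0, 0, 4, 0, 0]), (1, [0, 1, 1, 0, 2, 0, 0]), (0, [0, 0, 0, 0, 0, 0, 6]), (1, [0, 1, 1, 0, 4, 0, 0]), (0, [0, 0, 0, 0, 0, 0, 8]), (1, [0, 0, 1, 3, 4, 0, 0]), (1, [0, 0, 1, 0, 2, 6, 0]), (1, [0, 0, 1, 3, 0, 6, 0]), (1, [0, 0, 1, 0, 4, 6, 0]), (1, [0, 0, 1, 3, 0, 0, 8])]),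
   (3, [1, 2, 3, 4, 6, 8], [(0, [1, 0, 0, 0, 0, 0]), (0, [0, 2, 0, 0, 0, 0]), (0, [0, 0, 3, 0, 0, 0]), (0, [0, 0, 0, 4, 0, 0]), (0, [0, 0, 0, 0, 5, 0]), (0, [0, 0, 0, 0, 6, 0]), (1, [1, 2, 3, 0, 0, 0]), (0, [0, 0, 0, 0, 0, 8]), (1, [1, 0, 3, 4, 0, 0]), (1, [1, 2, 0, 0, 6, 0]), (1, [0, 0, 0, 4, 6, 0]), (2, [1, 2, 3, 4, 0, 0]), (1, [0, 0, 0, 4, 0, 8])]),
   (3, [1, 1, 1, 2, 4, 6, 8], [(0, [0, 0, 1, 0, 0, 0, 0]), (0, [0, 0, 0, 2, 0, 0, 0]), (1, [0, 1, 1, 0, 0, 0, 0]), (0, [0, 0, 0, 0, 4, 0, 0]), (1, [0, 1, 1, 2, 0, 0, 0]), (0, [0, 0, 0, 0, 0, 6, 0]), (1, [0, 1, 1, 0, 4, 0, 0]), (0, [0, 0, 0, 0, 0, 0, 8]), (1, [0, 1, 1, 0, 0, 6, 0]), (1, [0, 0, 1, 0, 0, 0, 8]), (1, [0, 1, 1, 0, 0, 0, 8]), (1, [0, 0, 1, 0, 4, 6, 0]), (1,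 [0, 0, 0, 2, 4, 6, 0])]),
   (3, [1, 1, 3, 4, 6, 8], [(0, [0, 1, 0, 0, 0, 0]), (0, [0, 0, 0, 2, 0, 0]), (0, [0, 0, 3, 0, 0, 0]), (0, [0, 0, 0, 4, 0, 0]), (1, [0, 1, 3, 0, 0, 0]), (0, [0, 0, 0, 0, 6, 0]), (1, [0, 1, 1, 4, 0, 0]), (0, [0, 0, 0, 0, 0, 8]), (1, [0, 1, 3, 4, 0, 0]), (1, [0, 1, 0, 0, 0, 8]), (2, [1, 1, 3, 4, 0, 0]), (1, [0, 0, 3, 0, 0, 8]), (1, [0, 0, 0, 4, 0, 8])]),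
   (3, [2, 3, 4, 6, 8], [(0, [0, 0, 0, 1, 0]), (0, [2, 0, 0, 0, 0]), (0, [0, 3, 0, 0, 0]), (0, [0, 0, 4, 0, 0]), (0, [0, 0, 0, 5, 0]), (0, [0, 0, 0, 6, 0]), (1, [2, 0, 4, 0, 0]), (0, [0, 0, 0, 0, 8]), (1, [2, 0, 0, 6, 0]), (1, [0, 3, 0, 6, 0]), (1, [0, 0, 4, 6, 0]), (1, [0, 3, 0, 0, 8]), (1, [0, 0, 4, 0, 8])]),
   (3, [1, 1, 1, 2, 3, 6, 8], [(0, [0, 0, 1, 0, 0, 0, 0]), (0, [0, 0, 0, 2, 0, 0, 0]), (0, [0, 0, 0, 0, 3, 0, 0]), (0, [0, 0, 0, 0, 0, 0, 4]), (1, [0, 1, 1, 2, 0, 0, 0]), (0, [0, 0, 0, 0, 0, 6, 0]), (1, [0, 0, 1, 2, 3, 0, 0]), (0, [0, 0, 0, 0, 0, 0, 8]), (1, [0, 1, 1, 0, 0, 6, 0]), (1, [0, 0, 1, 2, 0, 6, 0]), (1, [0, 0, 1, 0, 3, 6, 0]), (1, [0, 0, 0, 0, 3, 0, 8])]),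
   (3, [1, 1, 2, 4, 6, 8], [(0, [0, 1, 0, 0, 0, 0]), (0, [0, 0, 2, 0, 0, 0]), (0, [0, 0, 0, 0, 3, 0]), (0, [0, 0, 0, 4, 0, 0]), (1, [1, 1, 2, 0, 0, 0]), (0, [0, 0, 0, 0, 6, 0]), (1, [1, 1, 0, 4, 0, 0]), (1, [0, 1, 2, 4, 0, 0]), (1, [0, 1, 0, 1, 6, 0]), (1, [0, 1, 0, 0, 0, 8]), (1, [1, 1, 0, 0, 0, 8]), (1, [0, 0, 0, 0, 3, 8])]),
   (3, [1, 3, 4, 6, 8], [(0, [1, 0, 0, 0, 0]), (0, [0, 0, 2, 0, 0]), (0, [0, 3, 0, 0, 0]), (0, [0, 0, 4, 0, 0]), (1, [1, 3, 0, 0, 0]), (0, [0, 0, 0, 6, 0]), (1, [1, 3, 0, 0, 2]), (0, [0, 0, 0, 0, 8]), (1, [0, 3, 4, 0, 1]), (1, [0, 3, 0, 6, 0]), (1, [0, 0, 4, 6, 0]), (1, [0, 3, 0, 0, 8])]),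
   (3, [2, 3, 4, 5, 8], [(0, [1, 0, 0, 0, 0]), (0, [2, 0, 0, 0, 0]), (0, [0, 0, 3, 0, 0]), (0, [0, 0, 4, 0, 0]), (0, [0, 0, 0, 5, 0]), (1, [2, 3, 0, 0, 0]), (1, [2, 0, 4, 0, 0]), (0, [0, 0, 0, 0, 8]), (1, [0, 3, 0, 5, 0]), (1, [0, 0, 4, 5, 0]), (1, [2, 0, 0, 0, 8]), (1, [0, 3, 0, 0, 8])]),
   (2, [1, 3, 4, 6, 8], [(0, [1, 0, 0, 0, 0]), (0, [0, 0, 2, 0, 0]), (0, [0, 3, 0, 0, 0]), (0, [0, 0, 4, 0, 0]), (0, [0, 0, 0, 5, 0]), (0, [0, 0, 0, 0, 6]), (0, [0, 0, 0, 0, 7]), (0, [0, 0, 0, 0, 8]), (1, [1, 3, 4, 0, 0]), (1, [0, 3, 0, 6, 0]), (1, [0, 0, 4, 6, 0]), (1, [0, 3, 0, 0, 8])]),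
   (3, [1, 1, 1, 4, 6, 8], [(0, [0, 0, 1, 0, 0, 0]), (0, [0, 0, 0, 0, 0, 2]), (1, [0, 1, 1, 0, 0, 0]), (0, [0, 0, 0, 4, 0, 0]), (1, [0, 1, 1, 0, 0, 2]), (0, [0, 0, 0, 0, 6, 0]), (1, [0, 1, 1, 4, 0, 0]), (0, [0, 0, 0, 0, 0, 8]), (1, [0, 1, 1, 0, 6, 0]), (1, [0, 0, 1, 0, 0, 8]), (2, [1, 1, 1, 0, 6, 0]), (1, [0, 0, 1, 4, 0, 6])]),
   (3, [1, 1, 2, 3, 6, 8], [(0, [0, 1, 0, 0, 0, 0]), (0, [0, 0, 2, 0, 0, 0]), (0, [0, 0, 0, 3, 0, 0]), (1, [0, 1, 2, 0, 0, 0]), (1, [1, 1, 2, 0, 0, 0]), (0, [0, 0, 0, 0, 6, 0]), (1, [0, 1, 2, 3, 0, 0]), (0, [0, 0, 0, 0, 0, 8]), (2, [1, 1, 2, 3, 0, 0]), (1, [0, 1, 0, 0, 0, 8]), (1, [0, 0, 2, 0, 0, 8]), (1, [0, 0, 0, 3, 0, 8])]),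
   (3, [1, 2, 4, 6, 8], [(0, [1, 0, 0, 0, 0]), (0, [0, 2, 0, 0, 0]), (0, [0, 0, 0, 3, 0]), (0, [0, 0, 4, 0, 0]), (0, [0, 0, 0, 0, 5]), (0, [0, 0, 0, 6, 0]), (1, [0, 2, 4, 0, 0]), (0, [0, 0, 0, 0, 8]), (1, [0, 2, 0, 6, 0]), (1, [1, 0, 0, 0, 8]), (1, [0, 0, 4, 6, 0]), (1, [0, 0, 0, 3, 8])]),
   (3, [1, 3, 4, 5, 8], [(0, [1, 0, 0, 0, 0]), (0, [0, 0, 2, 0, 0]), (0, [0, 3, 0, 0, 0]), (0, [0, 0, 4, 0, 0]), (0, [0, 0, 0, 5, 0]), (1, [1, 0, 4, 0, 0]), (1, [1, 0, 0, 5, 0]), (0, [0, 0, 0, 0, 8]), (1, [0, 3, 0, 5, 0]), (1, [0, 0, 4, 5, 0]), (2, [1, 3, 0, 5, 0]), (1, [0, 3, 0, 0, 8])]),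
   (2, [1, 2, 4, 6, 8], [(0, [1, 0, 0, 0, 0]), (0, [0, 2, 0, 0, 0]), (0, [0, 0, 0, 0, 3]), (0, [0, 0, 4, 0, 0]), (0, [0, 0, 0, 0, 5]), (0, [0, 0, 0, 6, 0]), (0, [0, 0, 0, 0, 7]), (0, [0, 0, 0, 0, 8]), (1, [0, 2, 0, 6, 0]), (1, [1, 0, 0, 0, 8]), (1, [0, 2, 0, 0, 8])]),
   (2, [3, 4, 6, 8], [(0, [0, 0, 0, 1]), (0, [2, 0, 0, 0]), (0, [3, 0, 0, 0]), (0, [0, 4, 0, 0]), (0, [0, 0, 5, 0]), (0, [0, 0, 6, 0]), (0, [0, 0, 0, 7]), (0, [0, 0, 0, 8]), (1, [3, 4, 0, 1]), (1, [3, 0, 6, 0]), (1, [0, 4, 6, 0])]),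
   (3, [1, 1, 1, 2, 2, 3, 4, 6], [(0, [0, 0, 1, 0, 0, 0, 0, 0]), (0, [0, 0, 0, 0, 2, 0, 0, 0]), (0, [0, 0, 0, 0, 0, 3, 0, 0]), (0, [0, 0, 0, 0, 0, 0, 4, 0]), (1, [0, 1, 1, 0, 2, 0, 0, 0]), (0, [0, 0, 0, 0, 0, 0, 0, 6]), (1, [0, 0, 1, 0, 2, 3, 0, 0]), (1, [0, 0, 1, 0, 2, 0, 4, 0]), (1, [0, 0, 1, 0, 0, 3, 4, 0]), (1, [0, 0, 1, 0, 2, 0, 0, 6]), (2, [0, 1, 1, 2, 2, 3, 0, 0])]),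
   (3, [1, 1, 1, 2, 3, 4, 8], [(0, [0, 0, 1, 0, 0, 0, 0]), (0, [0, 0, 0, 2, 0, 0, 0]), (0, [0, 0, 0, 0, 3, 0, 0]), (0, [0, 0, 0, 0, 0, 4, 0]), (1, [0, 1, 1, 2, 0, 0, 0]), (1, [0, 0, 1, 0, 0, 4, 0]), (1, [0, 0, 1, 2, 3, 0, 0]), (0, [0, 0, 0, 0, 0, 0, 8]), (1, [0, 0, 1, 0, 3, 4, 0]), (2, [0, 1, 1, 2, 0, 4, 0]), (2, [1, 1, 1, 2, 0, 4, 0])]),
   (3, [1, 1, 1, 3, 6, 8], [(0, [0, 0, 1, 0, 0, 0]), (0, [0, 0, 0, 0, 2, 0]), (0, [0, 0, 0, 3, 0, 0]), (0, [0, 0, 0, 0, 4, 0]), (1, [0, 1, 1, 0, 2, 0]), (0, [0, 0, 0, 0, 6, 0]), (1, [0, 0, 1, 3, 2, 0]), (0, [0, 0, 0, 0, 0, 8]), (1, [0, 0, 1, 3, 4, 0]), (1, [0, 0, 0, 3, 6, 0]), (2, [1, 1, 1, 0, 6, 0])]),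
   (3, [1, 1, 4, 6, 8], [(0, [0, 1, 0, 0, 0]), (0, [0, 0, 2, 0, 0]), (1, [1, 1, 0, 0, 0]), (0, [0, 0, 4, 0, 0]), (1, [1, 1, 0, 0, 2]), (0, [0, 0, 0, 6, 0]), (1, [0, 1, 4, 0, 1]), (0, [0, 0, 0, 0, 8]), (1, [0, 1, 0, 6, 1]), (1, [0, 1, 0, 0, 8]), (1, [0, 0, 4, 6, 0])]),
   (3, [1, 2, 3, 6, 8], [(0, [1, 0, 0, 0, 0]), (0, [0, 2, 0, 0, 0]), (0, [0, 0, 3, 0, 0]), (1, [1, 2, 0, 0, 0]), (1, [1, 0, 3, 0, 0]), (0, [0, 0, 0, 6, 0]), (0, [0, 0, 0, 0, 7]), (0, [0, 0, 0, 0, 8]), (1, [0, 2, 0, 6, 0]), (1, [0, 0, 3, 6, 0]), (1, [0, 2, 0, 0, 8])]),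
   (2, [1, 2, 3, 6, 8], [(0, [1, 0, 0, 0, 0]), (0, [0, 2, 0, 0, 0]), (0, [0, 0, 3, 0, 0]), (0, [0, 0, 0, 0, 4]), (0, [0, 0, 0, 5, 0]), (0, [0, 0, 0, 6, 0]), (1, [1, 2, 3, 0, 0]), (0, [0, 0, 0, 0, 8]), (1, [0, 2, 0, 6, 0]), (1, [1, 2, 0, 6, 0]), (1, [0, 2, 0, 0, 8])]),
   (2, [2, 4, 6, 8], [(0, [1, 0, 0, 0]), (0, [2, 0, 0, 0]), (0, [0, 3, 0, 0]), (0, [0, 4, 0, 0]), (0, [0, 0, 0, 5]), (0, [0, 0, 6, 0]), (1, [2, 4, 0, 0]), (0, [0, 0, 0, 8]), (1, [2, 0, 6, 0]), (1, [2, 0, 6, 1]), (1, [0, 4, 6, 0])]),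
   (2, [3, 4, 6, 7], [(0, [1, 0, 0, 0]), (0, [2, 0, 0, 0]), (0, [3, 0, 0, 0]), (0, [0, 4, 0, 0]), (0, [0, 0, 5, 0]), (0, [0, 0, 6, 0]), (0, [0, 0, 0, 7]), (1, [3, 4, 0, 0]), (1, [3, 4, 0, 1]), (1, [3, 0, 6, 0]), (1, [0, 4, 6, 0])]),
   (3, [1, 1, 1, 2, 6, 8], [(0, [0, 0, 1, 0, 0, 0]), (0, [0, 0, 0, 2, 0, 0]), (1, [0, 1, 1, 0, 0, 0]), (0, [0, 0, 0, 0, 0, 4]), (1, [0, 1, 1, 2, 0, 0]), (0, [0, 0, 0, 0, 6, 0]), (2, [1, 1, 1, 2, 0, 0]), (0, [0, 0, 0, 0, 0, 8]), (1, [0, 0, 0, 2, 6, 0]), (1, [0, 0, 1, 0, 0, 8]), (1, [0, 0, 0, 2, 0, 8])]),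
   (3, [1, 1, 1, 4, 6, 6], [(0, [0, 0, 1, 0, 0, 0]), (0, [0, 0, 0, 2, 0, 0]), (1, [0, 1, 1, 0, 0, 0]), (0, [0, 0, 0, 4, 0, 0]), (1, [0, 1, 1, 2, 0, 0]), (0, [0, 0, 0, 0, 0, 6]), (1, [0, 1, 1, 4, 0, 0]), (1, [0, 0, 1, 0, 0, 6]), (2, [1, 1, 1, 4, 0, 0]), (1, [0, 0, 1, 2, 0, 6]), (1, [0, 0, 0, 4, 0, 6])]),
   (3, [1, 1, 2, 2, 3, 4, 6], [(0, [0, 1, 0, 0, 0, 0, 0]), (0, [0, 0, 0, 2, 0, 0, 0]), (0, [0, 0, 0, 0, 3, 0, 0]), (0, [0, 0, 0, 0, 0, 4, 0]), (1, [1, 1, 0, 2, 0, 0, 0]), (0, [0, 0, 0, 0, 0, 0, 6]), (1, [0, 1, 0, 2, 3, 0, 0]), (1, [0, 1, 0, 2, 0, 4, 0]), (1, [0, 1, 0, 0, 3, 4, 0]), (1, [0, 1, 0, 2, 0, 0, 6]), (1, [0, 0, 0, 0, 0, 4, 6])]),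
   (3, [1, 1, 2, 3, 4, 8], [(0, [0, 1, 0, 0, 0, 0]), (0, [0, 0, 2, 0, 0, 0]), (0, [0, 0, 0, 3, 0, 0]), (0, [0, 0, 0, 0, 4, 0]), (1, [1, 1, 2, 0, 0, 0]), (1, [0, 1, 0, 0, 4, 0]), (1, [0, 1, 2, 3, 0, 0]), (0, [0, 0, 0, 0, 0, 8]), (2, [1, 1, 2, 3, 0, 0]), (1, [0, 1, 0, 0, 0, 8]), (1, [0, 0, 2, 0, 0, 8])]),
   (3, [1, 1, 3, 6, 8], [(0, [0, 1, 0, 0, 0]), (0, [0, 0, 0, 2, 0]), (0, [0, 0, 3, 0, 0]), (0, [0, 0, 0, 4, 0]), (1, [0, 1, 3, 0, 0]), (0, [0, 0, 0, 6, 0]), (2, [1, 1, 3, 0, 0]), (0, [0, 0, 0, 0, 8]), (2, [1, 1, 3, 0, 2]), (1, [0, 0, 3, 6, 0]), (1, [0, 0, 0, 2, 8])]),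
   (3, [1, 2, 3, 5, 8], [(0, [1, 0, 0, 0, 0]), (0, [0, 2, 0, 0, 0]), (0, [0, 0, 3, 0, 0]), (1, [1, 2, 0, 0, 0]), (0, [0, 0, 0, 5, 0]), (1, [0, 2, 3, 0, 0]), (1, [1, 0, 0, 5, 0]), (0, [0, 0, 0, 0, 8]), (1, [0, 0, 3, 5, 0]), (1, [1, 0, 0, 0, 8]), (1, [0, 2, 0, 0, 8])]),
   (2, [1, 4, 6, 8], [(0, [1, 0, 0, 0]), (0, [0, 2, 0, 0]), (0, [0, 0, 0, 3]), (0, [0, 4, 0, 0]), (0, [0, 0, 0, 5]), (0, [0, 0, 6, 0]), (1, [1, 4, 0, 1]), (0, [0, 0, 0, 8]), (1, [1, 4, 0, 3]), (1, [1, 0, 0, 8])]),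
   (2, [2, 3, 6, 8], [(0, [1, 0, 0, 0]), (0, [2, 0, 0, 0]), (0, [0, 3, 0, 0]), (0, [0, 0, 0, 4]), (0, [0, 0, 5, 0]), (0, [0, 0, 6, 0]), (0, [0, 0, 0, 7]), (0, [0, 0, 0, 8]), (1, [2, 0, 6, 0]), (1, [0, 3, 6, 0])]),
   (2, [2, 4, 6, 7], [(0, [1, 0, 0, 0]), (0, [2, 0, 0, 0]), (0, [0, 3, 0, 0]), (0, [0, 4, 0, 0]), (0, [0, 0, 0, 5]), (0, [0, 0, 0, 6]), (0, [0, 0, 0, 7]), (1, [2, 4, 0, 1]), (1, [2, 0, 6, 0]), (1, [2, 0, 0, 7])]),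
   (3, [1, 1, 1, 2, 3, 4, 6], [(0, [0, 0, 1, 0, 0, 0, 0]), (0, [0, 0, 0, 2, 0, 0, 0]), (0, [0, 0, 0, 0, 3, 0, 0]), (0, [0, 0, 0, 0, 0, 4, 0]), (1, [0, 1, 1, 2, 0, 0, 0]), (0, [0, 0, 0, 0, 0, 0, 6]), (1, [0, 0, 1, 2, 3, 0, 0]), (1, [0, 0, 1, 2, 0, 4, 0]), (1, [0, 0, 1, 0, 3, 4, 0]), (1, [0, 0, 0, 0, 3, 0, 6])]),
   (3, [1, 1, 1, 3, 4, 8], [(0, [0, 0, 1, 0, 0, 0]), (0, [0, 0, 0, 0, 2, 0]), (1, [0, 1, 1, 0, 0, 0]), (0, [0, 0, 0, 0, 4, 0]), (1, [0, 1, 1, 0, 2, 0]), (1, [0, 0, 1, 0, 4, 0]), (1, [0, 0, 1, 3, 2, 0]), (0, [0, 0, 0, 0, 0, 8]), (1, [0, 0, 1, 3, 4, 0]), (1, [0, 0, 1, 0, 0, 8])]),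
   (3, [1, 1, 2, 6, 8], [(0, [0, 1, 0, 0, 0]), (0, [0, 0, 2, 0, 0]), (1, [1, 1, 0, 0, 0]), (1, [0, 1, 2, 0, 0]), (0, [0, 0, 0, 0, 5]), (0, [0, 0, 0, 6, 0]), (1, [0, 1, 2, 0, 3]), (0, [0, 0, 0, 0, 8]), (1, [0, 0, 2, 6, 0]), (1, [0, 1, 0, 0, 8])]),
   (3, [1, 1, 4, 6, 6], [(0, [0, 1, 0, 0, 0]), (0, [0, 0, 2, 0, 0]), (1, [1, 1, 0, 0, 0]), (0, [0, 0, 4, 0, 0]), (1, [1, 1, 0, 0, 2]), (0, [0, 0, 0, 0, 6]), (1, [0, 1, 2, 0, 3]), (1, [0, 1, 0, 0, 6]), (1, [0, 1, 4, 0, 3]), (2, [1, 1, 0, 0, 6])]),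
   (3, [1, 2, 2, 3, 4, 6], [(0, [1, 0, 0, 0, 0, 0]), (0, [0, 0, 2, 0, 0, 0]), (0, [0, 0, 0, 3, 0, 0]), (0, [0, 0, 0, 0, 4, 0]), (1, [0, 2, 2, 0, 0, 0]), (0, [0, 0, 0, 0, 0, 6]), (1, [0, 0, 2, 0, 4, 0]), (1, [0, 0, 0, 3, 4, 0]), (1, [0, 0, 2, 0, 0, 6]), (2, [1, 2, 2, 3, 0, 0])]),
   (3, [1, 2, 3, 4, 8], [(0, [1, 0, 0, 0, 0]), (0, [0, 2, 0, 0, 0]), (0, [0, 0, 3, 0, 0]), (0, [0, 0, 0, 4, 0]), (1, [1, 0, 3, 0, 0]), (1, [0, 2, 3, 0, 0]), (1, [0, 2, 0, 4, 0]), (0, [0, 0, 0, 0, 8]), (2, [1, 2, 0, 4, 0]), (1, [1, 0, 0, 0, 8])]),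
   (2, [1, 1, 2, 6, 8], [(0, [0, 1, 0, 0, 0]), (0, [0, 0, 2, 0, 0]), (0, [0, 0, 0, 3, 0]), (1, [0, 1, 2, 0, 0]), (1, [1, 1, 2, 0, 0]), (0, [0, 0, 0, 6, 0]), (1, [0, 1, 2, 3, 0]), (1, [0, 1, 2, 0, 4]), (1, [1, 1, 0, 6, 0]), (1, [0, 1, 0, 0, 8])]),
   (2, [1, 2, 4, 5, 6], [(0, [1, 0, 0, 0, 0]), (0, [0, 2, 0, 0, 0]), (0, [0, 0, 0, 0, 3]), (0, [0, 0, 4, 0, 0]), (0, [0, 0, 0, 5, 0]), (0, [0, 0, 0, 0, 6]), (1, [1, 0, 0, 5, 0]), (1, [0, 2, 0, 5, 0]), (1, [0, 2, 0, 0, 6]), (1, [0, 0, 4, 5, 0])]),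
   (2, [1, 3, 6, 8], [(0, [1, 0, 0, 0]), (0, [0, 0, 0, 2]), (0, [0, 3, 0, 0]), (0, [0, 0, 0, 4]), (1, [1, 3, 0, 0]), (0, [0, 0, 0, 6]), (1, [1, 3, 0, 2]), (0, [0, 0, 0, 8]), (1, [1, 3, 0, 4]), (1, [0, 3, 6, 0])]),
   (2, [1, 4, 6, 7], [(0, [1, 0, 0, 0]), (0, [0, 2, 0, 0]), (0, [0, 0, 3, 0]), (0, [0, 4, 0, 0]), (0, [0, 0, 0, 5]), (0, [0, 0, 6, 0]), (0, [0, 0, 0, 7]), (1, [1, 0, 6, 0]), (1, [1, 0, 0, 7]), (1, [0, 2, 0, 7])]),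
   (3, [1, 1, 1, 2, 2, 4, 6], [(0, [0, 0, 1, 0, 0, 0, 0]), (0, [0, 0, 0, 0, 2, 0, 0]), (1, [0, 1, 1, 0, 0, 0, 0]), (0, [0, 0, 0, 0, 0, 4, 0]), (1, [0, 1, 1, 0, 2, 0, 0]), (0, [0, 0, 0, 0, 0, 0, 6]), (1, [0, 1, 1, 0, 0, 4, 0]), (1, [0, 0, 1, 0, 2, 4, 0]), (1, [0, 0, 0, 0, 2, 0, 6]), (1, [0, 0, 1, 0, 2, 0, 6])]),
   (3, [1, 1, 1, 2, 4, 8], [(0, [0, 0, 1, 0, 0, 0]), (0, [0, 0, 0, 2, 0, 0]), (1, [0, 1, 1, 0, 0, 0]), (0, [0, 0, 0, 0, 4, 0]), (1, [0, 1, 1, 2, 0, 0]), (1, [0, 0, 1, 0, 4, 0]), (2, [1, 1, 1, 2, 0, 0]), (0, [0, 0, 0, 0, 0, 8]), (2, [1, 1, 1, 0, 4, 0]), (1, [0, 0, 1, 0, 0, 8])]),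
   (3, [1, 1, 1, 2, 6, 6], [(0, [0, 0, 1, 0, 0, 0]), (0, [0, 0, 0, 2, 0, 0]), (1, [0, 1, 1, 0, 0, 0]), (1, [0, 0, 1, 2, 0, 0]), (1, [0, 1, 1, 2, 0, 0]), (0, [0, 0, 0, 0, 0, 6]), (2, [1, 1, 1, 2, 0, 0]), (1, [0, 0, 1, 0, 0, 6]), (1, [0, 0, 0, 2, 0, 6]), (1, [0, 0, 1, 2, 0, 6])]),
   (3, [1, 1, 1, 6, 8], [(0, [0, 0, 1, 0, 0]), (0, [0, 0, 0, 0, 2]), (1, [0, 1, 1, 0, 0]), (0, [0, 0, 0, 0, 4]), (2, [1, 1, 1, 0, 0]), (0, [0, 0, 0, 0, 6]), (2, [1, 1, 1, 0, 2]), (0, [0, 0, 0, 0, 8]), (2, [1, 1, 1, 0, 4]), (1, [0, 0, 1, 0, 8])]),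
   (3, [1, 1, 2, 3, 4, 6], [(0, [0, 1, 0, 0, 0, 0]), (0, [0, 0, 2, 0, 0, 0]), (0, [0, 0, 0, 3, 0, 0]), (0, [0, 0, 0, 0, 4, 0]), (1, [1, 1, 2, 0, 0, 0]), (0, [0, 0, 0, 0, 0, 6]), (1, [0, 1, 2, 3, 0, 0]), (1, [0, 1, 0, 0, 0, 6]), (2, [1, 1, 2, 3, 0, 0]), (1, [0, 0, 0, 3, 0, 6])]),
   (3, [1, 1, 3, 4, 8], [(0, [0, 1, 0, 0, 0]), (0, [0, 0, 0, 2, 0]), (0, [0, 0, 3, 0, 0]), (0, [0, 0, 0, 4, 0]), (1, [0, 1, 3, 0, 0]), (1, [0, 1, 0, 4, 0]), (2, [1, 1, 3, 0, 0]), (0, [0, 0, 0, 0, 8]), (2, [1, 1, 3, 0, 2]), (1, [0, 1, 0, 0, 8])]),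
   (3, [2, 2, 3, 4, 6], [(0, [0, 1, 0, 0, 0]), (0, [0, 2, 0, 0, 0]), (0, [0, 0, 3, 0, 0]), (0, [0, 0, 0, 4, 0]), (1, [2, 2, 0, 0, 0]), (0, [0, 0, 0, 0, 6]), (1, [0, 2, 0, 4, 0]), (1, [0, 0, 3, 4, 0]), (1, [0, 2, 0, 0, 6]), (1, [0, 0, 3, 0, 6])]),
   (2, [1, 1, 3, 4, 8], [(0, [0, 1, 0, 0, 0]), (0, [0, 0, 0, 2, 0]), (0, [0, 0, 3, 0, 0]), (0, [0, 0, 0, 4, 0]), (1, [0, 1, 3, 0, 0]), (1, [0, 1, 0, 4, 0]), (1, [0, 1, 3, 0, 2]), (0, [0, 0, 0, 0, 8]), (1, [0, 1, 3, 4, 0])]),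
   (2, [1, 2, 6, 8], [(0, [1, 0, 0, 0]), (0, [0, 2, 0, 0]), (0, [0, 0, 0, 3]), (1, [1, 2, 0, 0]), (1, [1, 2, 0, 1]), (0, [0, 0, 6, 0]), (1, [1, 2, 0, 3]), (0, [0, 0, 0, 8]), (1, [0, 2, 6, 0])]),
   (2, [1, 4, 6, 6], [(0, [1, 0, 0, 0]), (0, [0, 2, 0, 0]), (0, [0, 0, 0, 3]), (0, [0, 4, 0, 0]), (0, [0, 0, 0, 5]), (0, [0, 0, 0, 6]), (1, [1, 4, 0, 1]), (1, [1, 0, 0, 6]), (1, [0, 2, 0, 6])]),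
   (2, [2, 4, 5, 6], [(0, [0, 1, 0, 0]), (0, [2, 0, 0, 0]), (0, [0, 0, 0, 3]), (0, [0, 4, 0, 0]), (0, [0, 0, 5, 0]), (0, [0, 0, 0, 6]), (1, [2, 4, 0, 0]), (1, [2, 0, 5, 0]), (1, [2, 0, 0, 6])]),
   (3, [1, 1, 1, 2, 2, 3, 6], [(0, [0, 0, 1, 0, 0, 0, 0]), (0, [0, 0, 0, 0, 2, 0, 0]), (0, [0, 0, 0, 0, 0, 3, 0]), (1, [0, 0, 1, 0, 2, 0, 0]), (1, [0, 1, 1, 0, 2, 0, 0]), (0, [0, 0, 0, 0, 0, 0, 6]), (1, [0, 0, 1, 0, 2, 3, 0]), (2, [0, 1, 1, 2, 2, 0, 0]), (2, [0, 1, 1, 0, 2, 3, 0])]),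
   (3, [1, 1, 1, 2, 3, 8], [(0, [0, 0, 1, 0, 0, 0]), (0, [0, 0, 0, 2, 0, 0]), (1, [0, 1, 1, 0, 0, 0]), (1, [0, 0, 1, 2, 0, 0]), (1, [0, 1, 1, 2, 0, 0]), (1, [0, 0, 0, 2, 3, 0]), (2, [1, 1, 1, 2, 0, 0]), (0, [0, 0, 0, 0, 0, 8]), (2, [0, 1, 1, 2, 3, 0])]),
   (3, [1, 1, 1, 3, 4, 6], [(0, [0, 0, 1, 0, 0, 0]), (0, [0, 0, 0, 0, 2, 0]), (0, [0, 0, 0, 3, 0, 0]), (0, [0, 0, 0, 0, 4, 0]), (1, [0, 0, 1, 3, 0, 0]), (0, [0, 0, 0, 0, 0, 6]), (1, [0, 0, 1, 3, 2, 0]), (1, [0, 0, 1, 0, 0, 6]), (2, [1, 1, 1, 0, 4, 0])]),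
   (3, [1, 1, 2, 2, 4, 6], [(0, [0, 1, 0, 0, 0, 0]), (0, [0, 0, 0, 2, 0, 0]), (1, [1, 1, 0, 0, 0, 0]), (1, [0, 1, 0, 2, 0, 0]), (1, [1, 1, 0, 2, 0, 0]), (0, [0, 0, 0, 0, 0, 6]), (1, [0, 1, 0, 2, 0, 3]), (1, [0, 1, 0, 2, 4, 0]), (1, [0, 0, 0, 2, 0, 6])]),
   (3, [1, 1, 2, 4, 8], [(0, [0, 1, 0, 0, 0]), (0, [0, 0, 2, 0, 0]), (1, [1, 1, 0, 0, 0]), (0, [0, 0, 0, 4, 0]), (0, [0, 0, 0, 0, 5]), (1, [0, 1, 0, 4, 0]), (1, [0, 0, 2, 4, 0]), (0, [0, 0, 0, 0, 8]), (2, [0, 1, 2, 4, 0])]),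
   (3, [1, 1, 2, 6, 6], [(0, [0, 1, 0, 0, 0]), (0, [0, 0, 2, 0, 0]), (1, [1, 1, 0, 0, 0]), (1, [0, 1, 2, 0, 0]), (1, [0, 1, 2, 0, 1]), (0, [0, 0, 0, 0, 6]), (1, [0, 1, 2, 0, 3]), (1, [0, 1, 0, 0, 6]), (1, [0, 0, 2, 0, 6])]),
   (3, [1, 2, 3, 4, 6], [(0, [1, 0, 0, 0, 0]), (0, [0, 2, 0, 0, 0]), (0, [0, 0, 3, 0, 0]), (0, [0, 0, 0, 4, 0]), (1, [1, 0, 3, 0, 0]), (0, [0, 0, 0, 0, 6]), (1, [0, 2, 0, 4, 0]), (1, [0, 0, 3, 4, 0]), (1, [0, 2, 0, 0, 6])]),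
   (2, [1, 1, 6, 8], [(0, [0, 1, 0, 0]), (0, [0, 0, 2, 0]), (1, [1, 1, 0, 0]), (0, [0, 0, 4, 0]), (0, [0, 0, 0, 5]), (0, [0, 0, 6, 0]), (0, [0, 0, 0, 7]), (0, [0, 0, 0, 8]), (1, [0, 1, 3, 4])]),
   (2, [1, 2, 3, 4, 6], [(0, [1, 0, 0, 0, 0]), (0, [0, 2, 0, 0, 0]), (0, [0, 0, 3, 0, 0]), (0, [0, 0, 0, 4, 0]), (0, [0, 0, 0, 0, 5]), (0, [0, 0, 0, 0, 6]), (1, [1, 2, 3, 0, 0]), (1, [0, 0, 3, 4, 0]), (1, [0, 2, 0, 0, 6])]),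
   (2, [1, 2, 6, 7], [(0, [1, 0, 0, 0]), (0, [0, 2, 0, 0]), (0, [0, 0, 3, 0]), (1, [1, 2, 0, 0]), (1, [1, 2, 0, 1]), (0, [0, 0, 6, 0]), (0, [0, 0, 0, 7]), (1, [1, 0, 6, 0]), (1, [0, 2, 6, 0])]),
   (2, [1, 3, 4, 8], [(0, [1, 0, 0, 0]), (0, [0, 0, 2, 0]), (0, [0, 3, 0, 0]), (0, [0, 0, 4, 0]), (1, [1, 3, 0, 0]), (1, [1, 0, 4, 0]), (0, [0, 0, 0, 7]), (0, [0, 0, 0, 8]), (1, [0, 0, 0, 8])]),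
   (2, [1, 3, 6, 6], [(0, [1, 0, 0, 0]), (0, [0, 0, 0, 2]), (0, [0, 3, 0, 0]), (0, [0, 0, 0, 4]), (1, [1, 3, 0, 0]), (0, [0, 0, 0, 6]), (1, [1, 3, 0, 2]), (1, [1, 0, 0, 6]), (1, [0, 0, 2, 6])]),
   (2, [1, 4, 5, 6], [(0, [1, 0, 0, 0]), (0, [0, 2, 0, 0]), (0, [0, 0, 0, 3]), (0, [0, 4, 0, 0]), (0, [0, 0, 5, 0]), (0, [0, 0, 0, 6]), (1, [1, 0, 5, 0]), (1, [1, 0, 0, 6]), (1, [0, 0, 2, 6])]),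
   (2, [2, 3, 5, 6], [(0, [1, 0, 0, 0]), (0, [2, 0, 0, 0]), (0, [0, 3, 0, 0]), (0, [0, 0, 4, 0]), (0, [0, 0, 0, 5]), (0, [0, 0, 0, 6]), (1, [2, 3, 0, 1]), (1, [2, 0, 5, 0]), (1, [0, 3, 5, 0])]),
   (3, [1, 1, 1, 2, 4, 6], [(0, [0, 0, 1, 0, 0, 0]), (0, [0, 0, 0, 2, 0, 0]), (1, [0, 1, 1, 0, 0, 0]), (0, [0, 0, 0, 0, 4, 0]), (1, [0, 1, 1, 2, 0, 0]), (0, [0, 0, 0, 0, 0, 6]), (2, [1, 1, 1, 2, 0, 0]), (1, [0, 0, 1, 0, 0, 6]), (1, [0, 0, 0, 2, 0, 6])]),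
   (3, [1, 1, 1, 4, 8], [(0, [0, 0, 1, 0, 0]), (0, [0, 0, 0, 2, 0]), (1, [0, 1, 1, 0, 0]), (0, [0, 0, 0, 4, 0]), (2, [1, 1, 1, 0, 0]), (1, [0, 0, 1, 4, 0]), (0, [0, 0, 0, 0, 7]), (0, [0, 0, 0, 0, 8]), (1, [0, 0, 0, 0, 8])]),
   (3, [1, 1, 1, 6, 6], [(0, [0, 0, 1, 0, 0]), (0, [0, 0, 0, 0, 2]), (1, [0, 1, 1, 0, 0]), (0, [0, 0, 0, 0, 4]), (2, [1, 1, 1, 0, 0]), (0, [0, 0, 0, 0, 6]), (2, [1, 1, 1, 0, 2]), (1, [0, 0, 1, 0, 6]), (1, [0, 0, 0, 2, 6])]),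
   (3, [1, 1, 2, 2, 3, 6], [(0, [0, 1, 0, 0, 0, 0]), (0, [0, 0, 0, 2, 0, 0]), (0, [0, 0, 0, 0, 3, 0]), (1, [0, 1, 0, 2, 0, 0]), (1, [1, 1, 0, 2, 0, 0]), (0, [0, 0, 0, 0, 0, 6]), (1, [0, 1, 0, 2, 3, 0]), (1, [0, 1, 0, 0, 0, 6]), (1, [0, 0, 0, 2, 0, 6])]),
   (3, [1, 1, 2, 3, 8], [(0, [0, 1, 0, 0, 0]), (0, [0, 0, 2, 0, 0]), (0, [0, 0, 0, 3, 0]), (1, [0, 1, 2, 0, 0]), (1, [0, 1, 0, 3, 0]), (1, [0, 0, 2, 3, 0]), (2, [1, 1, 0, 3, 0]), (0, [0, 0, 0, 0, 8]), (1, [0, 0, 0, 0, 8])]),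
   (3, [1, 1, 3, 4, 6], [(0, [0, 1, 0, 0, 0]), (0, [0, 0, 0, 2, 0]), (0, [0, 0, 3, 0, 0]), (0, [0, 0, 0, 4, 0]), (1, [0, 1, 3, 0, 0]), (0, [0, 0, 0, 0, 6]), (2, [1, 1, 3, 0, 0]), (1, [0, 0, 3, 4, 0]), (1, [0, 0, 0, 2, 6])]),
   (3, [1, 2, 2, 4, 6], [(0, [1, 0, 0, 0, 0]), (0, [0, 0, 2, 0, 0]), (0, [0, 0, 0, 0, 3]), (0, [0, 0, 0, 4, 0]), (1, [0, 2, 2, 0, 0]), (0, [0, 0, 0, 0, 6]), (1, [0, 0, 2, 4, 0]), (1, [1, 0, 0, 0, 6]), (1, [0, 0, 2, 0, 6])]),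
   (2, [1, 1, 2, 3, 8], [(0, [0, 1, 0, 0, 0]), (0, [0, 0, 2, 0, 0]), (0, [0, 0, 0, 3, 0]), (1, [0, 1, 2, 0, 0]), (1, [1, 1, 2, 0, 0]), (0, [0, 0, 0, 0, 6]), (1, [0, 1, 2, 3, 0]), (0, [0, 0, 0, 0, 8])]),
   (2, [1, 1, 3, 4, 6], [(0, [0, 1, 0, 0, 0]), (0, [0, 0, 0, 2, 0]), (0, [0, 0, 3, 0, 0]), (0, [0, 0, 0, 4, 0]), (1, [0, 1, 3, 0, 0]), (0, [0, 0, 0, 0, 6]), (1, [0, 1, 1, 4, 0]), (1, [0, 1, 0, 0, 6])]),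
   (2, [1, 2, 2, 4, 6], [(0, [1, 0, 0, 0, 0]), (0, [0, 0, 2, 0, 0]), (0, [0, 0, 0, 0, 3]), (0, [0, 0, 0, 4, 0]), (1, [0, 2, 2, 0, 0]), (0, [0, 0, 0, 0, 6]), (1, [0, 0, 2, 4, 0]), (1, [1, 0, 2, 4, 0])]),
   (2, [1, 2, 3, 4, 5], [(0, [1, 0, 0, 0, 0]), (0, [0, 2, 0, 0, 0]), (0, [0, 0, 3, 0, 0]), (0, [0, 0, 0, 4, 0]), (0, [0, 0, 0, 0, 5]), (1, [0, 2, 3, 0, 0]), (1, [1, 2, 3, 0, 0]), (1, [0, 2, 0, 0, 5])]),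
   (2, [1, 2, 4, 8], [(0, [1, 0, 0, 0]), (0, [0, 2, 0, 0]), (0, [0, 0, 0, 3]), (0, [0, 0, 4, 0]), (0, [0, 0, 0, 5]), (1, [1, 0, 4, 0]), (1, [0, 2, 4, 0]), (0, [0, 0, 0, 8])]),
   (2, [1, 2, 6, 6], [(0, [1, 0, 0, 0]), (0, [0, 2, 0, 0]), (0, [0, 0, 0, 3]), (1, [1, 2, 0, 0]), (1, [1, 2, 0, 1]), (0, [0, 0, 0, 6]), (1, [1, 2, 0, 3]), (1, [1, 0, 0, 6])]),
   (2, [1, 3, 4, 7], [(0, [1, 0, 0, 0]), (0, [0, 0, 2, 0]), (0, [0, 3, 0, 0]), (0, [0, 0, 4, 0]), (1, [1, 3, 0, 0]), (1, [1, 0, 4, 0]), (0, [0, 0, 0, 7]), (1, [0, 3, 4, 0])]),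
   (2, [1, 3, 5, 6], [(0, [1, 0, 0, 0]), (0, [0, 0, 0, 2]), (0, [0, 3, 0, 0]), (0, [0, 0, 0, 4]), (0, [0, 0, 5, 0]), (0, [0, 0, 0, 6]), (1, [1, 0, 5, 0]), (1, [1, 0, 0, 6])]),
   (2, [2, 3, 4, 6], [(0, [0, 0, 0, 1]), (0, [2, 0, 0, 0]), (0, [0, 3, 0, 0]), (0, [0, 0, 4, 0]), (0, [0, 0, 0, 5]), (0, [0, 0, 0, 6]), (1, [2, 0, 4, 0]), (1, [0, 3, 4, 0])]),
   (3, [1, 1, 1, 2, 2, 3, 4], [(0, [0, 0, 1, 0, 0, 0, 0]), (0, [0, 0, 0, 0, 2, 0, 0]), (0, [0, 0, 0, 0, 0, 3, 0]), (0, [0, 0, 0, 0, 0, 0, 4]), (1, [0, 1, 1, 0, 2, 0, 0]), (1, [0, 0, 1, 0, 0, 0, 4]), (1, [0, 0, 1, 0, 2, 3, 0]), (1, [0, 0, 1, 0, 2, 0, 4])]),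
   (3, [1, 1, 1, 2, 3, 6], [(0, [0, 0, 1, 0, 0, 0]), (0, [0, 0, 0, 2, 0, 0]), (0, [0, 0, 0, 0, 3, 0]), (1, [0, 0, 1, 2, 0, 0]), (1, [0, 0, 1, 0, 3, 0]), (0, [0, 0, 0, 0, 0, 6]), (2, [1, 1, 1, 2, 0, 0]), (1, [0, 0, 1, 0, 0, 6])]),
   (3, [1, 1, 1, 3, 8], [(0, [0, 0, 1, 0, 0]), (0, [0, 0, 0, 0, 2]), (0, [0, 0, 0, 3, 0]), (0, [0, 0, 0, 0, 4]), (1, [0, 0, 1, 3, 0]), (0, [0, 0, 0, 0, 6]), (2, [0, 1, 1, 3, 0]), (0, [0, 0, 0, 0, 8])]),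
   (3, [1, 1, 2, 4, 6], [(0, [0, 1, 0, 0, 0]), (0, [0, 0, 2, 0, 0]), (1, [1, 1, 0, 0, 0]), (0, [0, 0, 0, 4, 0]), (0, [0, 0, 0, 0, 5]), (0, [0, 0, 0, 0, 6]), (1, [0, 0, 2, 4, 0]), (1, [0, 1, 0, 0, 6])]),
   (3, [1, 2, 2, 3, 6], [(0, [1, 0, 0, 0, 0]), (0, [0, 0, 2, 0, 0]), (0, [0, 0, 0, 3, 0]), (1, [1, 0, 2, 0, 0]), (1, [0, 2, 2, 0, 0]), (0, [0, 0, 0, 0, 6]), (2, [1, 2, 2, 0, 0]), (1, [1, 0, 0, 0, 6])]),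
   (1, [1, 6, 8], [(0, [1, 0, 0]), (0, [0, 2, 0]), (0, [0, 3, 0]), (0, [0, 0, 4]), (0, [0, 0, 5]), (0, [0, 0, 6]), (0, [0, 0, 7]), (0, [0, 0, 8])]),
   (2, [1, 1, 2, 4, 6], [(0, [0, 1, 0, 0, 0]), (0, [0, 0, 2, 0, 0]), (0, [0, 0, 0, 0, 3]), (0, [0, 0, 0, 4, 0]), (1, [1, 1, 2, 0, 0]), (0, [0, 0, 0, 0, 6]), (1, [1, 1, 0, 4, 0]), (1, [0, 1, 0, 0, 6])]),
   (2, [1, 1, 4, 8], [(0, [0, 1, 0, 0]), (0, [0, 0, 2, 0]), (1, [1, 1, 0, 0]), (0, [0, 0, 4, 0]), (0, [0, 0, 0, 5]), (1, [0, 1, 4, 0]), (0, [0, 0, 0, 7]), (0, [0, 0, 0, 8])]),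
   (2, [1, 1, 6, 6], [(0, [0, 1, 0, 0]), (0, [0, 0, 0, 2]), (1, [1, 1, 0, 0]), (0, [0, 0, 0, 4]), (0, [0, 0, 0, 5]), (0, [0, 0, 0, 6]), (1, [0, 1, 2, 3]), (1, [0, 1, 0, 6])]),
   (2, [1, 2, 3, 8], [(0, [1, 0, 0, 0]), (0, [0, 2, 0, 0]), (0, [0, 0, 3, 0]), (1, [1, 2, 0, 0]), (1, [1, 0, 3, 0]), (1, [0, 2, 3, 0]), (0, [0, 0, 0, 7]), (0, [0, 0, 0, 8])]),
   (2, [1, 2, 5, 6], [(0, [1, 0, 0, 0]), (0, [0, 2, 0, 0]), (0, [0, 0, 0, 3]), (1, [1, 2, 0, 0]), (0, [0, 0, 5, 0]), (0, [0, 0, 0, 6]), (1, [1, 0, 5, 0]), (1, [0, 2, 5, 0])]),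
   (2, [1, 3, 4, 6], [(0, [1, 0, 0, 0]), (0, [0, 0, 2, 0]), (0, [0, 3, 0, 0]), (0, [0, 0, 4, 0]), (1, [1, 3, 0, 0]), (0, [0, 0, 0, 6]), (1, [1, 3, 0, 2]), (1, [0, 3, 4, 0])]),
   (2, [2, 2, 4, 6], [(0, [0, 1, 0, 0]), (0, [0, 2, 0, 0]), (0, [0, 0, 0, 3]), (0, [0, 0, 4, 0]), (1, [2, 2, 0, 0]), (0, [0, 0, 0, 6]), (1, [0, 2, 4, 0]), (1, [0, 1, 0, 6])]),
   (2, [2, 3, 4, 5], [(0, [1, 0, 0, 0]), (0, [2, 0, 0, 0]), (0, [0, 0, 3, 0]), (0, [0, 0, 4, 0]), (0, [0, 0, 0, 5]), (1, [2, 3, 0, 0]), (1, [2, 0, 4, 0]), (1, [0, 3, 4, 0])]),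
   (3, [1, 1, 1, 2, 2, 6], [(0, [0, 0, 1, 0, 0, 0]), (0, [0, 0, 0, 0, 2, 0]), (1, [0, 1, 1, 0, 0, 0]), (1, [0, 0, 1, 0, 2, 0]), (1, [0, 1, 1, 0, 2, 0]), (0, [0, 0, 0, 0, 0, 6]), (2, [1, 1, 1, 0, 2, 0]), (1, [0, 0, 1, 0, 0, 6])]),
   (3, [1, 1, 1, 2, 8], [(0, [0, 0, 1, 0, 0]), (0, [0, 0, 0, 2, 0]), (1, [0, 1, 1, 0, 0]), (1, [0, 0, 1, 2, 0]), (2, [1, 1, 1, 0, 0]), (2, [0, 1, 1, 2, 0]), (0, [0, 0, 0, 0, 7]), (0, [0, 0, 0, 0, 8])]),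
   (3, [1, 1, 1, 4, 6], [(0, [0, 0, 1, 0, 0]), (0, [0, 0, 0, 2, 0]), (1, [0, 1, 1, 0, 0]), (0, [0, 0, 0, 4, 0]), (2, [1, 1, 1, 0, 0]), (0, [0, 0, 0, 0, 6]), (2, [1, 1, 1, 0, 2]), (1, [0, 0, 1, 0, 6])]),
   (3, [1, 1, 2, 2, 3, 4], [(0, [0, 1, 0, 0, 0, 0]), (0, [0, 0, 0, 2, 0, 0]), (0, [0, 0, 0, 0, 3, 0]), (0, [0, 0, 0, 0, 0, 4]), (1, [1, 1, 0, 2, 0, 0]), (1, [0, 0, 0, 2, 3, 0]), (1, [0, 0, 0, 2, 0, 4]), (1, [0, 0, 0, 0, 3, 4])]),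
   (3, [1, 1, 2, 3, 6], [(0, [0, 1, 0, 0, 0]), (0, [0, 0, 2, 0, 0]), (0, [0, 0, 0, 3, 0]), (1, [0, 1, 2, 0, 0]), (1, [0, 1, 0, 3, 0]), (0, [0, 0, 0, 0, 6]), (2, [1, 1, 0, 3, 0]), (1, [0, 1, 0, 0, 6])]),
   (2, [1, 1, 2, 3, 6], [(0, [0, 1, 0, 0, 0]), (0, [0, 0, 2, 0, 0]), (0, [0, 0, 0, 3, 0]), (1, [0, 1, 2, 0, 0]), (1, [1, 1, 2, 0, 0]), (0, [0, 0, 0, 0, 6]), (1, [0, 1, 2, 3, 0])]),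
   (2, [1, 1, 3, 8], [(0, [0, 1, 0, 0]), (0, [0, 0, 0, 2]), (0, [0, 0, 3, 0]), (0, [0, 0, 0, 4]), (1, [0, 1, 3, 0]), (0, [0, 0, 0, 6]), (2, [1, 1, 3, 0])]),
   (2, [1, 2, 3, 7], [(0, [1, 0, 0, 0]), (0, [0, 2, 0, 0]), (0, [0, 0, 3, 0]), (1, [1, 2, 0, 0]), (1, [1, 0, 3, 0]), (1, [0, 2, 3, 0]), (0, [0, 0, 0, 7])]),
   (2, [1, 2, 4, 6], [(0, [1, 0, 0, 0]), (0, [0, 2, 0, 0]), (0, [0, 0, 0, 3]), (0, [0, 0, 4, 0]), (1, [1, 2, 0, 1]), (0, [0, 0, 0, 6]), (1, [0, 2, 4, 0])]),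
   (2, [1, 3, 4, 5], [(0, [1, 0, 0, 0]), (0, [0, 0, 2, 0]), (0, [0, 3, 0, 0]), (0, [0, 0, 4, 0]), (0, [0, 0, 0, 5]), (1, [1, 0, 4, 0]), (1, [1, 0, 0, 5])]),
   (3, [1, 1, 1, 2, 3, 4], [(0, [0, 0, 1, 0, 0, 0]), (0, [0, 0, 0, 2, 0, 0]), (0, [0, 0, 0, 0, 3, 0]), (0, [0, 0, 0, 0, 0, 4]), (1, [0, 1, 1, 2, 0, 0]), (1, [0, 0, 1, 0, 0, 4]), (1, [0, 0, 1, 2, 3, 0])]),
   (3, [1, 1, 1, 3, 6], [(0, [0, 0, 1, 0, 0]), (0, [0, 0, 0, 0, 2]), (0, [0, 0, 0, 3, 0]), (0, [0, 0, 0, 0, 4]), (1, [0, 0, 1, 3, 0]), (0, [0, 0, 0, 0, 6]), (2, [0, 1, 1, 3, 0])]),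
   (3, [1, 1, 2, 2, 6], [(0, [0, 1, 0, 0, 0]), (0, [0, 0, 0, 2, 0]), (1, [1, 1, 0, 0, 0]), (1, [0, 1, 0, 2, 0]), (1, [0, 0, 2, 2, 0]), (0, [0, 0, 0, 0, 6]), (2, [0, 1, 2, 2, 0])]),
   (3, [1, 2, 2, 3, 4], [(0, [1, 0, 0, 0, 0]), (0, [0, 0, 2, 0, 0]), (0, [0, 0, 0, 3, 0]), (0, [0, 0, 0, 0, 4]), (1, [0, 2, 2, 0, 0]), (1, [0, 0, 2, 3, 0]), (1, [0, 0, 2, 0, 4])]),
   (1, [1, 4, 8], [(0, [1, 0, 0]), (0, [0, 0, 2]), (0, [0, 0, 3]), (0, [0, 4, 0]), (0, [0, 0, 5]), (0, [0, 0, 6]), (0, [0, 0, 7])]),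
   (2, [1, 1, 2, 2, 6], [(0, [0, 1, 0, 0, 0]), (0, [0, 0, 0, 2, 0]), (0, [0, 0, 0, 0, 3]), (1, [0, 1, 0, 2, 0]), (1, [1, 1, 0, 2, 0]), (0, [0, 0, 0, 0, 6]), (1, [0, 1, 0, 2, 3])]),
   (2, [1, 1, 2, 8], [(0, [0, 1, 0, 0]), (0, [0, 0, 2, 0]), (1, [1, 1, 0, 0]), (1, [0, 1, 2, 0]), (0, [0, 0, 0, 5]), (2, [1, 1, 2, 0]), (0, [0, 0, 0, 7])]),
   (2, [1, 1, 4, 6], [(0, [0, 1, 0, 0]), (0, [0, 0, 2, 0]), (1, [1, 1, 0, 0]), (0, [0, 0, 4, 0]), (0, [0, 0, 0, 5]), (0, [0, 0, 0, 6]), (1, [0, 1, 2, 3])]),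
   (2, [1, 2, 2, 3, 4], [(0, [1, 0, 0, 0, 0]), (0, [0, 0, 2, 0, 0]), (0, [0, 0, 0, 3, 0]), (0, [0, 0, 0, 0, 4]), (1, [0, 2, 2, 0, 0]), (1, [0, 0, 2, 3, 0]), (1, [0, 0, 2, 0, 4])]),
   (2, [1, 2, 3, 6], [(0, [1, 0, 0, 0]), (0, [0, 2, 0, 0]), (0, [0, 0, 3, 0]), (1, [1, 2, 0, 0]), (1, [1, 0, 3, 0]), (0, [0, 0, 0, 6]), (1, [0, 0, 0, 6])]),
   (2, [1, 2, 4, 5], [(0, [1, 0, 0, 0]), (0, [0, 2, 0, 0]), (0, [0, 0, 3, 0]), (0, [0, 0, 4, 0]), (0, [0, 0, 0, 5]), (1, [1, 0, 4, 0]), (1, [0, 2, 4, 0])]),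
   (3, [1, 1, 1, 2, 2, 4], [(0, [0, 0, 1, 0, 0, 0]), (0, [0, 0, 0, 0, 2, 0]), (1, [0, 1, 1, 0, 0, 0]), (0, [0, 0, 0, 0, 0, 4]), (1, [0, 1, 1, 0, 2, 0]), (1, [0, 0, 1, 0, 0, 4]), (1, [0, 0, 0, 0, 2, 4])]),
   (3, [1, 1, 1, 2, 6], [(0, [0, 0, 1, 0, 0]), (0, [0, 0, 0, 2, 0]), (1, [0, 1, 1, 0, 0]), (1, [0, 0, 1, 2, 0]), (2, [1, 1, 1, 0, 0]), (0, [0, 0, 0, 0, 6]), (1, [0, 0, 0, 0, 6])]),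
   (3, [1, 1, 2, 3, 4], [(0, [0, 1, 0, 0, 0]), (0, [0, 0, 2, 0, 0]), (0, [0, 0, 0, 3, 0]), (0, [0, 0, 0, 0, 4]), (1, [0, 1, 0, 3, 0]), (1, [0, 0, 2, 3, 0]), (1, [0, 0, 2, 0, 4])]),
   (1, [1, 3, 8], [(0, [1, 0, 0]), (0, [0, 0, 2]), (0, [0, 3, 0]), (0, [0, 0, 4]), (1, [1, 3, 0]), (0, [0, 0, 6])]),
   (1, [2, 4, 6], [(0, [1, 0, 0]), (0, [2, 0, 0]), (0, [0, 3, 0]), (0, [0, 4, 0]), (0, [0, 0, 5]), (0, [0, 0, 6])]),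
   (2, [1, 1, 1, 2, 6], [(0, [0, 0, 1, 0, 0]), (0, [0, 0, 0, 2, 0]), (1, [0, 1, 1, 0, 0]), (1, [0, 0, 1, 2, 0]), (1, [0, 1, 1, 2, 0]), (0, [0, 0, 0, 0, 6])]),
   (2, [1, 1, 1, 8], [(0, [0, 0, 1, 0]), (0, [0, 0, 0, 2]), (1, [0, 1, 1, 0]), (0, [0, 0, 0, 4]), (2, [1, 1, 1, 0]), (0, [0, 0, 0, 6])]),
   (2, [1, 1, 2, 3, 4], [(0, [0, 1, 0, 0, 0]), (0, [0, 0, 2, 0, 0]), (0, [0, 0, 0, 3, 0]), (0, [0, 0, 0, 0, 4]), (1, [1, 1, 2, 0, 0]), (1, [0, 0, 2, 3, 0])]),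
   (2, [1, 1, 3, 6], [(0, [0, 1, 0, 0]), (0, [0, 0, 0, 2]), (0, [0, 0, 3, 0]), (0, [0, 0, 0, 4]), (1, [0, 1, 3, 0]), (0, [0, 0, 0, 6])]),
   (2, [1, 2, 2, 6], [(0, [1, 0, 0, 0]), (0, [0, 0, 2, 0]), (0, [0, 0, 0, 3]), (1, [1, 0, 2, 0]), (1, [0, 2, 2, 0]), (0, [0, 0, 0, 6])]),
   (2, [1, 2, 3, 5], [(0, [1, 0, 0, 0]), (0, [0, 2, 0, 0]), (0, [0, 0, 3, 0]), (1, [1, 2, 0, 0]), (0, [0, 0, 0, 5]), (1, [0, 2, 3, 0])]),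
   (2, [2, 2, 3, 4], [(0, [0, 1, 0, 0]), (0, [0, 2, 0, 0]), (0, [0, 0, 3, 0]), (0, [0, 0, 0, 4]), (1, [2, 2, 0, 0]), (1, [0, 2, 3, 0])]),
   (3, [1, 1, 1, 2, 2, 3], [(0, [0, 0, 1, 0, 0, 0]), (0, [0, 0, 0, 0, 2, 0]), (0, [0, 0, 0, 0, 0, 3]), (1, [0, 0, 1, 0, 2, 0]), (1, [0, 0, 1, 0, 0, 3]), (1, [0, 0, 0, 0, 2, 3])]),
   (3, [1, 1, 1, 3, 4], [(0, [0, 0, 1, 0, 0]), (0, [0, 0, 0, 0, 2]), (0, [0, 0, 0, 3, 0]), (0, [0, 0, 0, 0, 4]), (1, [0, 0, 1, 3, 0]), (1, [0, 0, 1, 0, 4])]),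
   (3, [1, 1, 2, 2, 4], [(0, [0, 1, 0, 0, 0]), (0, [0, 0, 0, 2, 0]), (1, [1, 1, 0, 0, 0]), (0, [0, 0, 0, 0, 4]), (1, [0, 0, 2, 2, 0]), (1, [0, 1, 0, 0, 4])]),
   (1, [1, 4, 6], [(0, [1, 0, 0]), (0, [0, 2, 0]), (0, [0, 0, 3]), (0, [0, 4, 0]), (0, [0, 0, 5]), (0, [0, 0, 6])]),
   (2, [1, 1, 2, 6], [(0, [0, 1, 0, 0]), (0, [0, 0, 2, 0]), (1, [1, 1, 0, 0]), (1, [0, 1, 2, 0]), (0, [0, 0, 0, 5]), (0, [0, 0, 0, 6])]),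
   (2, [1, 2, 3, 4], [(0, [1, 0, 0, 0]), (0, [0, 2, 0, 0]), (0, [0, 0, 3, 0]), (0, [0, 0, 0, 4]), (1, [1, 0, 3, 0]), (1, [0, 2, 3, 0])]),
   (3, [1, 1, 1, 2, 4], [(0, [0, 0, 1, 0, 0]), (0, [0, 0, 0, 2, 0]), (1, [0, 1, 1, 0, 0]), (0, [0, 0, 0, 0, 4]), (2, [1, 1, 1, 0, 0]), (1, [0, 0, 1, 0, 4])]),
   (3, [1, 1, 2, 2, 3], [(0, [0, 1, 0, 0, 0]), (0, [0, 0, 0, 2, 0]), (0, [0, 0, 0, 0, 3]), (1, [0, 1, 0, 2, 0]), (1, [0, 0, 2, 2, 0]), (1, [0, 0, 0, 2, 3])]),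
   (1, [1, 1, 8], [(0, [0, 1, 0]), (0, [0, 0, 2]), (1, [1, 1, 0]), (0, [0, 0, 4]), (1, [1, 1, 2])]),
   (1, [1, 3, 6], [(0, [1, 0, 0]), (0, [0, 0, 2]), (0, [0, 3, 0]), (0, [0, 0, 4]), (1, [1, 3, 0])]),
   (1, [1, 4, 5], [(0, [1, 0, 0]), (0, [0, 0, 2]), (0, [0, 0, 3]), (0, [0, 4, 0]), (0, [0, 0, 5])]),
   (2, [1, 1, 1, 2, 4], [(0, [0, 0, 1, 0, 0]), (0, [0, 0, 0, 2, 0]), (1, [0, 1, 1, 0, 0]), (0, [0, 0, 0, 0, 4]), (1, [0, 1, 1, 2, 0])]),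
   (2, [1, 1, 1, 6], [(0, [0, 0, 1, 0]), (0, [0, 0, 0, 2]), (1, [0, 1, 1, 0]), (0, [0, 0, 0, 4]), (2, [1, 1, 1, 0])]),
   (2, [1, 1, 2, 2, 3], [(0, [0, 1, 0, 0, 0]), (0, [0, 0, 0, 2, 0]), (0, [0, 0, 0, 0, 3]), (1, [0, 1, 0, 2, 0]), (1, [1, 1, 0, 2, 0])]),
   (2, [1, 1, 2, 5], [(0, [0, 1, 0, 0]), (0, [0, 0, 2, 0]), (1, [1, 1, 0, 0]), (1, [0, 1, 2, 0]), (0, [0, 0, 0, 5])]),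
   (2, [1, 1, 3, 4], [(0, [0, 1, 0, 0]), (0, [0, 0, 0, 2]), (0, [0, 0, 3, 0]), (0, [0, 0, 0, 4]), (1, [0, 1, 3, 0])]),
   (2, [1, 2, 2, 4], [(0, [1, 0, 0, 0]), (0, [0, 0, 2, 0]), (0, [0, 0, 0, 3]), (0, [0, 0, 0, 4]), (1, [0, 2, 2, 0])]),
   (3, [1, 1, 1, 1, 4], [(0, [0, 0, 0, 1, 0]), (0, [0, 0, 0, 0, 2]), (1, [0, 0, 1, 1, 0]), (0, [0, 0, 0, 0, 4]), (2, [0, 1, 1, 1, 0])]),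
   (3, [1, 1, 1, 2, 3], [(0, [0, 0, 1, 0, 0]), (0, [0, 0, 0, 2, 0]), (0, [0, 0, 0, 0, 3]), (1, [0, 0, 1, 2, 0]), (1, [0, 0, 1, 0, 3])]),
   (1, [1, 2, 6], [(0, [1, 0, 0]), (0, [0, 2, 0]), (0, [0, 0, 3]), (1, [1, 2, 0]), (0, [0, 0, 5])]),
   (2, [1, 1, 2, 4], [(0, [0, 1, 0, 0]), (0, [0, 0, 2, 0]), (1, [1, 1, 0, 0]), (0, [0, 0, 0, 4]), (1, [0, 0, 0, 4])]),
   (2, [1, 2, 2, 3], [(0, [1, 0, 0, 0]), (0, [0, 0, 2, 0]), (0, [0, 0, 0, 3]), (1, [1, 0, 2, 0]), (1, [0, 2, 2, 0])]),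
   (3, [1, 1, 1, 2, 2], [(0, [0, 0, 1, 0, 0]), (0, [0, 0, 0, 0, 2]), (1, [0, 1, 1, 0, 0]), (1, [0, 0, 1, 0, 2]), (1, [0, 0, 0, 2, 2])]),
   (1, [1, 1, 6], [(0, [0, 1, 0]), (0, [0, 0, 2]), (1, [1, 1, 0]), (0, [0, 0, 4])]),
   (1, [1, 3, 4], [(0, [1, 0, 0]), (0, [0, 0, 2]), (0, [0, 3, 0]), (0, [0, 0, 4])]),
   (2, [1, 1, 1, 4], [(0, [0, 0, 1, 0]), (0, [0, 0, 0, 2]), (1, [0, 1, 1, 0]), (0, [0, 0, 0, 4])]),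
   (2, [1, 1, 2, 3], [(0, [0, 1, 0, 0]), (0, [0, 0, 2, 0]), (0, [0, 0, 0, 3]), (1, [0, 1, 2, 0])]),
   (3, [1, 1, 1, 1, 2], [(0, [0, 0, 0, 1, 0]), (0, [0, 0, 0, 0, 2]), (1, [0, 0, 1, 1, 0]), (1, [0, 0, 0, 1, 2])]),
   (1, [1, 2, 4], [(0, [1, 0, 0]), (0, [0, 2, 0]), (0, [0, 0, 3]), (0, [0, 0, 4])]),
   (2, [1, 1, 2, 2], [(0, [0, 1, 0, 0]), (0, [0, 0, 0, 2]), (1, [1, 1, 0, 0]), (1, [0, 1, 0, 2])]),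
   (1, [1, 1, 4], [(0, [0, 1, 0]), (0, [0, 0, 2]), (1, [1, 1, 0])]),
   (1, [1, 2, 3], [(0, [1, 0, 0]), (0, [0, 2, 0]), (0, [0, 0, 3])]),
   (2, [1, 1, 1, 2], [(0, [0, 0, 1, 0]), (0, [0, 0, 0, 2]), (1, [0, 1, 1, 0])]),
   (1, [1, 1, 2], [(0, [0, 1, 0]), (0, [0, 0, 2])])]

theorem PT_ok : chkPos PT = true := by decide +kernel

theorem RL_F2 : RL 3 [1, 1, 1, 2, 3, 4, 6, 8] := by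
  have h := chkPos_sound PT PT_ok
  exact h (3, [1, 1, 1, 2, 3, 4, 6, 8]) (by decide +kernel)

theorem RL_F1 : RL 3 [1, 1, 1, 2, 2, 3, 4, 6] := by
  have h := chkPos_sound PT PT_ok
  exact h (3, [1, 1, 1, 2, 2, 3, 4, 6]) (by decide +kernel)

end Pool.Agent.Semistar
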