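import Pool.Agent.Semistar.Lists

set_option autoImplicit false

/-!
Traceable semistars, and the shape of two-part splittings.
-/

namespace Pool.Agent.Semistar

theorem exists_path_split (l : List ℕ) : ∀ (c a : ℕ), nz l ≤ c + 1 → a ≤ c + l.sum →
    ∃ (x₀ y₀ : ℕ) (x y : List ℕ), x₀ + y₀ = c ∧ Split l x y ∧ x₀ + x.sum = a ∧
      nz x ≤ x₀ + 1 ∧ nz y ≤ y₀ + 1 := by
  induction l with
  | nil =>
    intro c a _ ha
    simp only [List.sum_nil, Nat.add_zero] at ha
    exact ⟨a, c - a, [], [], by omega, Split.nil, by simp, by simp [nz], by simp [nz]⟩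
  | cons b l ih =>
    intro c a hc ha
    rw [List.sum_cons] at ha
    by_cases hb : b = 0
    · subst hb
      rw [nz_cons_zero] at hc
      obtain ⟨x₀, y₀, x, y, h0, hs, hx, h1, h2⟩ := ih c a hc (by omega)
      refine ⟨x₀, y₀, 0 :: x, 0 :: y, h0, hs.cons 0 0, ?_, ?_, ?_⟩
      · rw [List.sum_cons]; omega
      · rw [nz_cons_zero]; exact h1
      · rw [nz_cons_zero]; exact h2
    · rw [nz_cons_pos hb] at hc
      have hl0 : ∀ l : List ℕ, Split l (List.replicate l.length 0) l := by
        intro l
        induction l with
        | nil => exact Split.nil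
        | cons a l ih =>
          have := ih.cons 0 a
          simpa [List.replicate_succ] using this
      have hnz0 : ∀ n : ℕ, nz (List.replicate n 0) = 0 := by
        intro n
        induction n with
        | zero => rfl
        | succ n ih => rw [List.replicate_succ, nz_cons_zero]; exact ih
      by_cases hab : a ≤ b
      · refine ⟨0, c, a :: List.replicate l.length 0, (b - a) :: l, by omega, ?_, ?_, ?_, ?_⟩
        · have := (hl0 l).cons a (b - a)
          rwa [Nat.add_sub_cancel' hab] at this
        · simp
        · by_cases ha0 : a = 0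
          · subst ha0; rw [nz_cons_zero, hnz0]; omega
          · rw [nz_cons_pos ha0, hnz0]
        · by_cases hba : b - a = 0
          · rw [hba, nz_cons_zero]; omega
          · rw [nz_cons_pos hba]; omega
      · have hc1 : 1 ≤ c := by
          by_contra h
          have h1 : nz l = 0 := by omega
          have h2 : l.sum = 0 := by
            have h3 : ∀ a ∈ l, a = 0 := by
              unfold nz at h1
              rw [List.length_eq_zero_iff, List.filter_eq_nil_iff] at h1
              intro a ha
              simpa using h1 a ha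
            exact List.sum_eq_zero h3
          omega
        obtain ⟨x₀, y₀, x, y, h0, hs, hx, h1, h2⟩ := ih (c - 1) (a - b - 1) (by omega) (by omega)
        refine ⟨x₀ + 1, y₀, b :: x, 0 :: y, by omega, ?_, ?_, ?_, ?_⟩
        · have := hs.cons b 0
          simpa using this
        · rw [List.sum_cons]; omega
        · rw [nz_cons_pos hb]; omega
        · rw [nz_cons_zero]; exact h2

/-- semistars with at most `c + 1` cliques around a centre of size `c` -/
theorem RL_of_nz_le {c : ℕ} {l : List ℕ} (h : nz l ≤ c + 1) (h1 : 1 ≤ c + l.sum) : RL c l := by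
  induction hn : c + l.sum using Nat.strong_induction_on generalizing c l with
  | _ n ih =>
    rw [RL_iff]
    refine ⟨h1, by omega, fun a ha ha' => ?_⟩
    obtain ⟨x₀, y₀, x, y, h0, hs, hx, hx1, hy1⟩ := exists_path_split l c a h (by omega)
    have e := hs.sum
    exact ⟨x₀, y₀, x, y, h0, hs, hx, ih _ (by omega) hx1 (by omega) rfl,
      ih _ (by omega) hy1 (by omega) rfl⟩

theorem Split.eq_of_nz_zero {l x y : List ℕ} (h : Split l x y) (hx : nz x = 0) : y = l := by
  induction h with
  | nil => rfl
  | cons a b _ ih =>
    by_cases ha : a = 0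
    · subst ha
      rw [nz_cons_zero] at hx
      rw [ih hx, Nat.zero_add]
    · rw [nz_cons_pos ha] at hx; omega

/-- removing a part of one clique -/
theorem Split.chunk {l x y : List ℕ} (h : Split l x y) (hx : nz x ≤ 1) (hx1 : 1 ≤ x.sum) :
    ∃ e m, l.Perm (e :: m) ∧ x.sum ≤ e ∧ y.Perm ((e - x.sum) :: m) := by
  induction h with
  | nil => simp at hx1
  | @cons a b l x y h ih =>
    by_cases ha : a = 0
    · subst ha
      rw [nz_cons_zero] at hx
      simp only [List.sum_cons, Nat.zero_add] at hx1 ⊢
      obtain ⟨e, m, h1, h2, h3⟩ := ih hx hx1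
      refine ⟨e, b :: m, ?_, h2, ?_⟩
      · exact (h1.cons b).trans (List.Perm.swap _ _ _)
      · exact (h3.cons b).trans (List.Perm.swap _ _ _)
    · rw [nz_cons_pos ha] at hx
      have hx0 : nz x = 0 := by omega
      have hxs : x.sum = 0 := by
        have h3 : ∀ a ∈ x, a = 0 := by
          unfold nz at hx0
          rw [List.length_eq_zero_iff, List.filter_eq_nil_iff] at hx0
          intro a ha
          simpa using hx0 a ha
        exact List.sum_eq_zero h3
      refine ⟨a + b, l, List.Perm.refl _, ?_, ?_⟩
      · rw [List.sum_cons, hxs]; omega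
      · rw [List.sum_cons, hxs, h.eq_of_nz_zero hx0]
        have : a + b - (a + 0) = b := by omega
        rw [this]

/-- if no clique can be divided, the splitting is a partition of the set of cliques -/
theorem Split.pick {l x y : List ℕ} (h : Split l x y) (hl : ∀ a ∈ l, a ≠ 0)
    (hxy : nz x + nz y ≤ l.length) :
    l.Perm (x.filter (fun a => decide (a ≠ 0)) ++ y.filter (fun a => decide (a ≠ 0))) := by
  induction h with
  | nil => simp
  | @cons a b l x y h ih =>
    have hle := h.nz_le
    rw [nz_of_pos (fun a ha => hl a (by simp [ha]))] at hle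
    have hab : a + b ≠ 0 := hl _ (by simp)
    rw [List.length_cons] at hxy
    by_cases ha : a = 0
    · subst ha
      have hb : b ≠ 0 := by omega
      rw [nz_cons_zero, nz_cons_pos hb] at hxy
      have := ih (fun a ha => hl a (by simp [ha])) (by omega)
      have e1 : (0 :: x).filter (fun a => decide (a ≠ 0)) = x.filter (fun a => decide (a ≠ 0)) := by
        simp
      have e2 : (b :: y).filter (fun a => decide (a ≠ 0)) =
          b :: y.filter (fun a => decide (a ≠ 0)) := by simp [hb]
      rw [e1, e2, Nat.zero_add]
      exact (this.cons b).trans List.perm_middle.symm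
    · by_cases hb : b = 0
      · subst hb
        rw [nz_cons_zero, nz_cons_pos ha] at hxy
        have := ih (fun a ha => hl a (by simp [ha])) (by omega)
        have e1 : (a :: x).filter (fun a => decide (a ≠ 0)) =
            a :: x.filter (fun a => decide (a ≠ 0)) := by simp [ha]
        have e2 : (0 :: y).filter (fun a => decide (a ≠ 0)) =
          y.filter (fun a => decide (a ≠ 0)) := by simp
        rw [e1, e2, Nat.add_zero]
        exact this.cons a
      · rw [nz_cons_pos ha, nz_cons_pos hb] at hxy
        omega

theorem sum_filter_ne (l : List ℕ) : (l.filter (fun a => decide (a ≠ 0))).sum = l.sum := by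
  induction l with
  | nil => rfl
  | cons a l ih =>
    by_cases ha : a = 0
    · subst ha
      have e1 : (0 :: l).filter (fun a => decide (a ≠ 0)) = l.filter (fun a => decide (a ≠ 0)) := by
        simp
      rw [e1, ih]; simp
    · have e1 : (a :: l).filter (fun a => decide (a ≠ 0)) =
            a :: l.filter (fun a => decide (a ≠ 0)) := by simp [ha]
      rw [e1, List.sum_cons, List.sum_cons, ih]

/-- the sub-splitting with empty centre on one side removes a part of one clique -/
theorem RL_zero_chunk {l x y : List ℕ} (h : Split l x y) (hx : RL 0 x) :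
    ∃ e m, l.Perm (e :: m) ∧ x.sum ≤ e ∧ 1 ≤ x.sum ∧ y.Perm ((e - x.sum) :: m) := by
  rw [RL_iff] at hx
  obtain ⟨h1, h2, -⟩ := hx
  have h2' : nz x ≤ 1 := by rcases h2 with h2 | h2 <;> omega
  obtain ⟨e, m, h3, h4, h5⟩ := h.chunk h2' (by omega)
  exact ⟨e, m, h3, h4, by omega, h5⟩

/-- covering condition for a centre of size one -/
theorem cover_one {l : List ℕ} (h : RL 1 l) {a : ℕ} (ha : 1 ≤ a) (ha' : a < 1 + l.sum) :
    ∃ s, (s = a ∨ s = 1 + l.sum - a) ∧ ∃ e m, l.Perm (e :: m) ∧ s ≤ e ∧ RL 1 ((e - s) :: m) := by
  rw [RL_iff] at h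
  obtain ⟨x₀, y₀, x, y, h0, hs, hax, hx, hy⟩ := h.2.2 a ha ha'
  have e1 := hs.sum
  rcases Nat.eq_zero_or_pos x₀ with hx0 | hx0
  · subst hx0
    have hy0 : y₀ = 1 := by omega
    subst hy0
    obtain ⟨e, m, h3, h4, -, h5⟩ := RL_zero_chunk hs hx
    refine ⟨x.sum, Or.inl (by omega), e, m, h3, h4, hy.perm h5⟩
  · have hy0 : y₀ = 0 := by omega
    have hx0' : x₀ = 1 := by omega
    subst hy0; subst hx0'
    obtain ⟨e, m, h3, h4, -, h5⟩ := RL_zero_chunk hs.symm hy
    refine ⟨y.sum, Or.inr (by omega), e, m, h3, h4, hx.perm h5⟩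

end Pool.Agent.Semistar
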