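import Mathlib

set_option autoImplicit false

/-!
Recursively partitionable graphs and semistars.
-/

namespace Pool.Agent.Semistar

/-- `RPOn G S`: the subgraph of `G` induced by the finite vertex set `S` is recursively
partitionable, i.e. it has one vertex, or it is connected and for every list `a 0, …, a (k-1)` of
`k ≥ 2` positive integers with sum `|S|` there is a partition of `S` into parts `A i` with
`|A i| = a i` whose induced subgraphs are recursively partitionable. -/
def RPOn {V : Type} [DecidableEq V] (G : SimpleGraph V) (S : Finset V) : Prop :=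
  S.card = 1 ∨ ((G.induce (S : Set V)).Connected ∧
    ∀ (k : ℕ) (a : Fin k → ℕ) (_ : 2 ≤ k) (_ : ∀ i, 1 ≤ a i) (_ : ∑ i, a i = S.card),
      ∃ (A : Fin k → Finset V) (_ : ∀ i, (A i).card = a i),
        (∀ i j, i ≠ j → Disjoint (A i) (A j)) ∧ Finset.univ.biUnion A = S ∧
          ∀ i, RPOn G (A i))
termination_by S.card
decreasing_by
  rename_i hk ha hs hA
  rw [hA i, ← hs]
  obtain ⟨j, hj⟩ : ∃ j : Fin k, j ≠ i := by
    have : 1 < Fintype.card (Fin k) := by rw [Fintype.card_fin]; omega
    have : Nontrivial (Fin k) := Fintype.one_lt_card_iff_nontrivial.1 this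
    exact exists_ne i
  calc a i < a i + a j := by have := ha j; omega
    _ = ∑ x ∈ {i, j}, a x := by rw [Finset.sum_pair (Ne.symm hj)]
    _ ≤ ∑ x, a x := Finset.sum_le_sum_of_subset (Finset.subset_univ _)

/-- A finite graph is recursively partitionable. -/
def IsRP {V : Type} [DecidableEq V] [Fintype V] (G : SimpleGraph V) : Prop :=
  RPOn G Finset.univ

/-- The block of a vertex of a semistar: `none` for the central clique. -/
def blk {b₀ k : ℕ} {b : Fin k → ℕ} : Fin b₀ ⊕ (Σ i : Fin k, Fin (b i)) → Option (Fin k)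
  | Sum.inl _ => none
  | Sum.inr v => some v.1

/-- The graph on `V` in which two distinct vertices are adjacent when one of them has block `none`
or both have the same block. -/
def blockGraph {V ι : Type} (f : V → Option ι) : SimpleGraph V where
  Adj x y := x ≠ y ∧ (f x = none ∨ f y = none ∨ f x = f y)
  symm := ⟨by
    rintro x y ⟨h, h'⟩
    refine ⟨h.symm, ?_⟩
    rcases h' with h' | h' | h'
    · exact Or.inr (Or.inl h')
    · exact Or.inl h'
    · exact Or.inr (Or.inr h'.symm)⟩
  loopless := ⟨fun x h => h.1 rfl⟩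

/-- The semistar `K_{b₀}(b 0, …, b (k-1))`: the disjoint union of cliques of sizes `b₀` and
`b 0, …, b (k-1)` together with all edges meeting the clique of size `b₀`. -/
def semistar (b₀ : ℕ) {k : ℕ} (b : Fin k → ℕ) :
    SimpleGraph (Fin b₀ ⊕ (Σ i : Fin k, Fin (b i))) :=
  blockGraph blk

/-- The `(b₀, k)` RP semistars, given by their sorted parameter lists `b 0 ≤ … ≤ b (k-1)`. -/
def rpSemistars (b₀ k : ℕ) : Set (Fin k → ℕ) :=
  {b | Monotone b ∧ (∀ i, 1 ≤ b i) ∧ IsRP (semistar b₀ b)}

end Pool.Agent.Semistar
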