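import Pool.Agent.Semistar.Defs
import Pool.Agent.Semistar.Cover

set_option autoImplicit false

/-!
Recursively partitionable vertex sets of a block graph are described by the numbers of vertices in
the blocks.
-/

namespace Pool.Agent.Semistar

theorem nz_ofFn {k : ℕ} (g : Fin k → ℕ) :
    nz (List.ofFn g) = (Finset.univ.filter (fun i => g i ≠ 0)).card := by
  induction k with
  | zero => simp [nz]
  | succ k ih =>
    rw [List.ofFn_succ]
    have h1 := ih (fun i => g i.succ)
    rw [Finset.card_filter, Fin.sum_univ_succ, ← Finset.card_filter (fun i : Fin k => g i.succ ≠ 0),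
      ← h1]
    by_cases h0 : g 0 = 0
    · rw [h0, nz_cons_zero]; simp
    · rw [nz_cons_pos h0]; simp [h0]; omega

theorem split_ofFn {k : ℕ} (g h : Fin k → ℕ) :
    Split (List.ofFn (fun i => g i + h i)) (List.ofFn g) (List.ofFn h) := by
  induction k with
  | zero => simp only [List.ofFn_zero]; exact Split.nil
  | succ k ih =>
    simp only [List.ofFn_succ]
    exact (ih (fun i => g i.succ) (fun i => h i.succ)).cons _ _

theorem split_ofFn_inv {k : ℕ} (g : Fin k → ℕ) {x y : List ℕ} (h : Split (List.ofFn g) x y) :
    ∃ g₁ g₂ : Fin k → ℕ, x = List.ofFn g₁ ∧ y = List.ofFn g₂ ∧ ∀ i, g i = g₁ i + g₂ i := by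
  induction k generalizing x y with
  | zero =>
    simp only [List.ofFn_zero] at h
    cases h
    exact ⟨fun _ => 0, fun _ => 0, by simp, by simp, fun i => i.elim0⟩
  | succ k ih =>
    simp only [List.ofFn_succ] at h
    generalize hg : g 0 = g0 at h
    cases h with
    | cons a b h =>
      obtain ⟨g₁, g₂, h1, h2, h3⟩ := ih (fun i => g i.succ) h
      refine ⟨Fin.cons a g₁, Fin.cons b g₂, ?_, ?_, ?_⟩
      · simp [List.ofFn_succ, h1]
      · simp [List.ofFn_succ, h2]
      · intro i
        refine Fin.cases ?_ (fun j => ?_) i
        · simpa using hg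
        · simpa using h3 j

section

variable {V : Type} [DecidableEq V] {k : ℕ} (f : V → Option (Fin k))

/-- number of vertices of `S` in block `o` -/
def cnt (S : Finset V) (o : Option (Fin k)) : ℕ := (S.filter (fun v => f v = o)).card

/-- the list of the numbers of vertices of `S` in the outer blocks -/
def lst (S : Finset V) : List ℕ := List.ofFn (fun i : Fin k => cnt f S (some i))

omit [DecidableEq V] in
theorem card_eq (S : Finset V) : cnt f S none + (lst f S).sum = S.card := by
  have h := Finset.card_eq_sum_card_fiberwise (f := f) (s := S) (t := Finset.univ)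
    (fun _ _ => Finset.mem_coe.2 (Finset.mem_univ _))
  rw [Fintype.sum_option] at h
  rw [h, lst, List.sum_ofFn]
  rfl

omit [DecidableEq V] in
theorem cnt_pos {S : Finset V} {v : V} (hv : v ∈ S) : cnt f S (f v) ≠ 0 := by
  unfold cnt
  rw [Finset.card_ne_zero]
  exact ⟨v, by simp [hv]⟩

omit [DecidableEq V] in
theorem exists_of_cnt {S : Finset V} {o : Option (Fin k)} (h : cnt f S o ≠ 0) :
    ∃ v ∈ S, f v = o := by
  unfold cnt at h
  rw [Finset.card_ne_zero] at h
  obtain ⟨v, hv⟩ := h
  rw [Finset.mem_filter] at hv
  exact ⟨v, hv.1, hv.2⟩

theorem cnt_union {A B : Finset V} (h : Disjoint A B) (o : Option (Fin k)) :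
    cnt f (A ∪ B) o = cnt f A o + cnt f B o := by
  unfold cnt
  rw [Finset.filter_union, Finset.card_union_of_disjoint]
  exact Finset.disjoint_filter_filter h

theorem lst_union {A B : Finset V} (h : Disjoint A B) :
    Split (lst f (A ∪ B)) (lst f A) (lst f B) := by
  have : lst f (A ∪ B) = List.ofFn (fun i : Fin k => cnt f A (some i) + cnt f B (some i)) := by
    unfold lst
    congr 1
    funext i
    exact cnt_union f h _
  rw [this]
  exact split_ofFn _ _

theorem exists_subset (S : Finset V) (g : Option (Fin k) → ℕ) (hg : ∀ o, g o ≤ cnt f S o) :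
    ∃ A ⊆ S, ∀ o, cnt f A o = g o := by
  have h : ∀ o, ∃ T ⊆ S.filter (fun v => f v = o), T.card = g o := fun o =>
    Finset.exists_subset_card_eq (hg o)
  choose T hT1 hT2 using h
  refine ⟨Finset.univ.biUnion T, ?_, fun o => ?_⟩
  · intro v hv
    rw [Finset.mem_biUnion] at hv
    obtain ⟨o, -, ho⟩ := hv
    exact (Finset.mem_filter.1 (hT1 o ho)).1
  · have : (Finset.univ.biUnion T).filter (fun v => f v = o) = T o := by
      ext v
      rw [Finset.mem_filter, Finset.mem_biUnion]
      constructor
      · rintro ⟨⟨o', -, ho'⟩, hv⟩
        have := (Finset.mem_filter.1 (hT1 o' ho')).2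
        rw [← hv, this]
        exact ho'
      · intro hv
        exact ⟨⟨o, Finset.mem_univ _, hv⟩, (Finset.mem_filter.1 (hT1 o hv)).2⟩
    rw [cnt, this, hT2]

theorem connected_iff (S : Finset V) (hS : S.Nonempty) :
    ((blockGraph f).induce (S : Set V)).Connected ↔ (1 ≤ cnt f S none ∨ nz (lst f S) ≤ 1) := by
  constructor
  · intro hc
    by_contra hcon
    push Not at hcon
    obtain ⟨h0, h1⟩ := hcon
    have h0' : cnt f S none = 0 := by omega
    have hnone : ∀ v ∈ S, f v ≠ none := by
      intro v hv h
      have := cnt_pos f hv
      rw [h] at this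
      exact this h0'
    rw [lst, nz_ofFn, Finset.one_lt_card] at h1
    obtain ⟨i, hi, j, hj, hij⟩ := h1
    simp only [Finset.mem_filter, Finset.mem_univ, true_and] at hi hj
    obtain ⟨u, hu, hui⟩ := exists_of_cnt f hi
    obtain ⟨v, hv, hvj⟩ := exists_of_cnt f hj
    have hreach := hc.preconnected ⟨u, hu⟩ ⟨v, hv⟩
    obtain ⟨w⟩ := hreach
    have hconst : ∀ {a b : (S : Set V)} (w : ((blockGraph f).induce (S : Set V)).Walk a b),
        f a.1 = f b.1 := by
      intro a b w
      induction w with
      | nil => rfl
      | cons hadj _ ih =>
        rw [← ih]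
        rcases hadj.2 with h | h | h
        · exact (hnone _ (Subtype.prop _) h).elim
        · exact (hnone _ (Subtype.prop _) h).elim
        · exact h
    have := hconst w
    simp only at this
    rw [hui, hvj] at this
    exact hij (Option.some.inj this)
  · intro h
    have : Nonempty (S : Set V) := hS.to_subtype
    rcases h with h | h
    · obtain ⟨c, hc, hcn⟩ := exists_of_cnt f (o := none) (S := S) (by omega)
      have hreach : ∀ v : (S : Set V),
          ((blockGraph f).induce (S : Set V)).Reachable ⟨c, hc⟩ v := by
        intro v
        by_cases hv : (⟨c, hc⟩ : (S : Set V)) = v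
        · rw [hv]
        · apply SimpleGraph.Adj.reachable
          refine ⟨fun h => hv (Subtype.ext h), Or.inl hcn⟩
      exact ⟨fun u v => (hreach u).symm.trans (hreach v)⟩
    · by_cases hn : cnt f S none = 0
      · have hnone : ∀ v ∈ S, f v ≠ none := by
          intro v hv h'
          have := cnt_pos f hv
          rw [h'] at this
          exact this hn
        have hsame : ∀ u ∈ S, ∀ v ∈ S, f u = f v := by
          intro u hu v hv
          obtain ⟨i, hi⟩ := Option.ne_none_iff_exists'.1 (hnone u hu)
          obtain ⟨j, hj⟩ := Option.ne_none_iff_exists'.1 (hnone v hv)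
          rw [lst, nz_ofFn, Finset.card_le_one] at h
          have := h i (by
            rw [Finset.mem_filter]
            refine ⟨Finset.mem_univ _, ?_⟩
            have := cnt_pos f hu
            rwa [hi] at this) j (by
            rw [Finset.mem_filter]
            refine ⟨Finset.mem_univ _, ?_⟩
            have := cnt_pos f hv
            rwa [hj] at this)
          rw [hi, hj, this]
        refine ⟨fun u v => ?_⟩
        by_cases huv : u = v
        · rw [huv]
        · apply SimpleGraph.Adj.reachable
          exact ⟨fun h => huv (Subtype.ext h), Or.inr (Or.inr (hsame _ u.2 _ v.2))⟩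
      · obtain ⟨c, hc, hcn⟩ := exists_of_cnt f (o := none) (S := S) hn
        have hreach : ∀ v : (S : Set V),
            ((blockGraph f).induce (S : Set V)).Reachable ⟨c, hc⟩ v := by
          intro v
          by_cases hv : (⟨c, hc⟩ : (S : Set V)) = v
          · rw [hv]
          · apply SimpleGraph.Adj.reachable
            refine ⟨fun h => hv (Subtype.ext h), Or.inl hcn⟩
        exact ⟨fun u v => (hreach u).symm.trans (hreach v)⟩

/-- the main link between vertex sets and lists of block sizes -/
theorem rpOn_iff (S : Finset V) : RPOn (blockGraph f) S ↔ RL (cnt f S none) (lst f S) := by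
  induction hn : S.card using Nat.strong_induction_on generalizing S with
  | _ n ih =>
    subst hn
    have hcard := card_eq f S
    constructor
    · intro h
      rw [RPOn] at h
      rw [RL_iff]
      rcases h with h | ⟨hc, h⟩
      · refine ⟨by omega, ?_, fun a ha ha' => by omega⟩
        have := nz_le_sum (lst f S)
        omega
      · have hne : S.Nonempty := by
          obtain ⟨⟨v, hv⟩⟩ := hc.nonempty
          exact ⟨v, hv⟩
        have hpos := Finset.card_pos.2 hne
        refine ⟨by omega, (connected_iff f S hne).1 hc, fun a ha ha' => ?_⟩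
        obtain ⟨A, hA1, hA2, hA3, hA4⟩ := h 2 ![a, S.card - a] (le_refl 2)
          (by intro i; fin_cases i <;> simp <;> omega)
          (by simp [Fin.sum_univ_two]; omega)
        have hdis : Disjoint (A 0) (A 1) := hA2 0 1 (by decide)
        have hun : A 0 ∪ A 1 = S := by
          rw [← hA3]
          ext v
          simp [Fin.exists_fin_two]
        have hc0 : (A 0).card = a := by simpa using hA1 0
        have hc1 : (A 1).card = S.card - a := by simpa using hA1 1
        have e0 := card_eq f (A 0)
        refine ⟨cnt f (A 0) none, cnt f (A 1) none, lst f (A 0), lst f (A 1), ?_, ?_, ?_, ?_, ?_⟩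
        · rw [← cnt_union f hdis, hun]
        · have := lst_union f hdis
          rwa [hun] at this
        · omega
        · exact (ih _ (by omega) (A 0) rfl).1 (hA4 0)
        · exact (ih _ (by omega) (A 1) rfl).1 (hA4 1)
    · intro h
      have h' := h
      rw [RL_iff] at h'
      obtain ⟨h1, h2, h3⟩ := h'
      rw [RPOn]
      by_cases hS1 : S.card = 1
      · exact Or.inl hS1
      · right
        have hne : S.Nonempty := Finset.card_pos.1 (by omega)
        refine ⟨(connected_iff f S hne).2 h2, ?_⟩
        intro k' a hk ha hs
        obtain ⟨k'', rfl⟩ : ∃ k'', k' = k'' + 2 := ⟨k' - 2, by omega⟩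
        have hsum : a 0 + ∑ i : Fin (k'' + 1), a i.succ = S.card := by
          rw [← Fin.sum_univ_succ]; exact hs
        have hrest : 1 ≤ ∑ i : Fin (k'' + 1), a i.succ := by
          calc 1 ≤ a (Fin.succ 0) := ha _
            _ ≤ ∑ i : Fin (k'' + 1), a i.succ :=
              Finset.single_le_sum (f := fun i : Fin (k'' + 1) => a i.succ)
                (fun _ _ => Nat.zero_le _) (Finset.mem_univ 0)
        have ha0 := ha 0
        obtain ⟨x₀, y₀, x, y, g0, gs, gx, gRx, gRy⟩ := h3 (a 0) ha0 (by omega)
        obtain ⟨g₁, g₂, rfl, rfl, g3⟩ := split_ofFn_inv _ gs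
        obtain ⟨A₀, hA₀S, hA₀⟩ := exists_subset f S (fun o => o.elim x₀ g₁) (by
          intro o
          cases o with
          | none => simp; omega
          | some i => simp; have := g3 i; omega)
        have hA₀n : cnt f A₀ none = x₀ := by simpa using hA₀ none
        have hA₀l : lst f A₀ = List.ofFn g₁ := by
          unfold lst
          congr 1
          funext i
          simpa using hA₀ (some i)
        have hdis : Disjoint A₀ (S \ A₀) := Finset.disjoint_sdiff
        have hun : A₀ ∪ (S \ A₀) = S := Finset.union_sdiff_of_subset hA₀S
        have hBn : cnt f (S \ A₀) none = y₀ := by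
          have := cnt_union f hdis none
          rw [hun, hA₀n] at this
          omega
        have hBl : lst f (S \ A₀) = List.ofFn g₂ := by
          unfold lst
          congr 1
          funext i
          have h4 := cnt_union f hdis (some i)
          rw [hun] at h4
          have h5 : cnt f A₀ (some i) = g₁ i := by simpa using hA₀ (some i)
          have h6 := g3 i
          omega
        have hA₀c := card_eq f A₀
        rw [hA₀n, hA₀l] at hA₀c
        have hBc : (S \ A₀).card = S.card - a 0 := by
          rw [Finset.card_sdiff_of_subset hA₀S]; omega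
        have hRA : RPOn (blockGraph f) A₀ := (ih _ (by omega) A₀ rfl).2 (by
          rw [hA₀n, hA₀l]; exact gRx)
        have hRB : RPOn (blockGraph f) (S \ A₀) := (ih _ (by omega) (S \ A₀) rfl).2 (by
          rw [hBn, hBl]; exact gRy)
        -- partition the rest
        have hB : ∃ A' : Fin (k'' + 1) → Finset V, (∀ i, (A' i).card = a i.succ) ∧
            (∀ i j, i ≠ j → Disjoint (A' i) (A' j)) ∧ Finset.univ.biUnion A' = S \ A₀ ∧
            ∀ i, RPOn (blockGraph f) (A' i) := by
          rcases Nat.eq_zero_or_pos k'' with hk0 | hk0
          · subst hk0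
            refine ⟨fun _ => S \ A₀, ?_, ?_, ?_, fun _ => hRB⟩
            · intro i
              have hi : i = 0 := Fin.ext (by have := i.isLt; simp only [Fin.val_zero]; omega)
              subst hi
              rw [hBc]
              have : ∑ i : Fin (0 + 1), a i.succ = a (Fin.succ 0) := by simp
              omega
            · intro i j hij
              exact (hij (Fin.ext (by have := i.isLt; have := j.isLt; omega))).elim
            · ext v; simp
          · have hB2 := hRB
            rw [RPOn] at hB2
            have hge : k'' + 1 ≤ ∑ i : Fin (k'' + 1), a i.succ := by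
              calc k'' + 1 = ∑ _i : Fin (k'' + 1), 1 := by simp
                _ ≤ _ := Finset.sum_le_sum (fun i _ => ha _)
            rcases hB2 with hB2 | ⟨-, hB2⟩
            · omega
            · obtain ⟨A', b1, b2, b3, b4⟩ := hB2 (k'' + 1) (fun i => a i.succ) (by omega)
                (fun i => ha _) (by omega)
              exact ⟨A', b1, b2, b3, b4⟩
        obtain ⟨A', b1, b2, b3, b4⟩ := hB
        refine ⟨Fin.cons A₀ A', ?_, ?_, ?_, ?_⟩
        · intro i
          refine Fin.cases ?_ (fun j => ?_) i
          · simp only [Fin.cons_zero]; omega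
          · simp only [Fin.cons_succ]; exact b1 j
        · have hA'sub : ∀ i, A' i ⊆ S \ A₀ := by
            intro i
            rw [← b3]
            exact Finset.subset_biUnion_of_mem A' (Finset.mem_univ i)
          intro i j
          refine Fin.cases ?_ (fun i' => ?_) i
          · refine Fin.cases ?_ (fun j' => ?_) j
            · intro h; exact (h rfl).elim
            · intro _
              simp only [Fin.cons_zero, Fin.cons_succ]
              exact hdis.mono_right (hA'sub j')
          · refine Fin.cases ?_ (fun j' => ?_) j
            · intro _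
              simp only [Fin.cons_zero, Fin.cons_succ]
              exact (hdis.mono_right (hA'sub i')).symm
            · intro hij
              simp only [Fin.cons_succ]
              exact b2 i' j' (fun h => hij (by rw [h]))
        · ext v
          rw [← hun, ← b3]
          simp only [Finset.mem_biUnion, Finset.mem_univ, true_and, Finset.mem_union,
            Fin.exists_fin_succ, Fin.cons_zero, Fin.cons_succ]
        · intro i
          refine Fin.cases ?_ (fun j => ?_) i
          · simp only [Fin.cons_zero]; exact hRA
          · simp only [Fin.cons_succ]; exact b4 j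

end

end Pool.Agent.Semistar
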