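import Mathlib

set_option autoImplicit false

/-!
The abstract two-part splitting predicate on lists of clique sizes.
-/

namespace Pool.Agent.Semistar

/-- `Split l x y`: the list `l` is the entrywise sum of `x` and `y`. -/
inductive Split : List ℕ → List ℕ → List ℕ → Prop
  | nil : Split [] [] []
  | cons (a b : ℕ) {l x y : List ℕ} : Split l x y → Split ((a + b) :: l) (a :: x) (b :: y)

theorem Split.symm {l x y : List ℕ} (h : Split l x y) : Split l y x := by
  induction h with
  | nil => exact Split.nil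
  | cons a b _ ih => rw [Nat.add_comm]; exact Split.cons b a ih

theorem Split.sum {l x y : List ℕ} (h : Split l x y) : x.sum + y.sum = l.sum := by
  induction h with
  | nil => rfl
  | cons a b _ ih => simp only [List.sum_cons]; omega

theorem Split.perm {l l' x y : List ℕ} (hp : l.Perm l') (h : Split l x y) :
    ∃ x' y', x.Perm x' ∧ y.Perm y' ∧ Split l' x' y' := by
  induction hp generalizing x y with
  | nil => exact ⟨x, y, List.Perm.refl _, List.Perm.refl _, h⟩
  | cons c _ ih =>
    cases h with
    | cons a b h =>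
      obtain ⟨x', y', hx, hy, hs⟩ := ih h
      exact ⟨a :: x', b :: y', hx.cons a, hy.cons b, hs.cons a b⟩
  | swap c d l =>
    cases h with
    | cons a b h =>
      cases h with
      | cons a' b' h =>
        exact ⟨a' :: a :: _, b' :: b :: _, List.Perm.swap _ _ _, List.Perm.swap _ _ _,
          (h.cons a b).cons a' b'⟩
  | trans _ _ ih1 ih2 =>
    obtain ⟨x', y', hx, hy, hs⟩ := ih1 h
    obtain ⟨x'', y'', hx', hy', hs'⟩ := ih2 hs
    exact ⟨x'', y'', hx.trans hx', hy.trans hy', hs'⟩

/-- number of nonzero entries -/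
def nz (l : List ℕ) : ℕ := (l.filter (fun a => decide (a ≠ 0))).length

theorem nz_nil : nz [] = 0 := rfl

theorem nz_cons_zero (l : List ℕ) : nz (0 :: l) = nz l := by simp [nz]

theorem nz_cons_pos {a : ℕ} (ha : a ≠ 0) (l : List ℕ) : nz (a :: l) = nz l + 1 := by
  simp [nz, ha]

theorem nz_perm {l l' : List ℕ} (h : l.Perm l') : nz l = nz l' := (h.filter _).length_eq

theorem nz_le_sum (l : List ℕ) : nz l ≤ l.sum := by
  induction l with
  | nil => simp [nz]
  | cons a l ih =>
    by_cases ha : a = 0
    · subst ha; rw [nz_cons_zero, List.sum_cons]; omega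
    · rw [nz_cons_pos ha, List.sum_cons]; omega

theorem nz_le_length (l : List ℕ) : nz l ≤ l.length := List.length_filter_le _ _

theorem nz_of_pos {l : List ℕ} (h : ∀ a ∈ l, a ≠ 0) : nz l = l.length := by
  rw [nz, List.filter_eq_self.2]
  intro a ha
  simpa using h a ha

theorem Split.nz_le {l x y : List ℕ} (h : Split l x y) : nz l ≤ nz x + nz y := by
  induction h with
  | nil => simp [nz]
  | cons a b _ ih =>
    by_cases ha : a = 0
    · subst ha
      rw [nz_cons_zero, Nat.zero_add]
      by_cases hb : b = 0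
      · subst hb; rw [nz_cons_zero, nz_cons_zero]; exact ih
      · rw [nz_cons_pos hb, nz_cons_pos hb]; omega
    · rw [nz_cons_pos ha, nz_cons_pos (by omega)]
      by_cases hb : b = 0
      · subst hb; rw [nz_cons_zero]; omega
      · rw [nz_cons_pos hb]; omega

/-- The abstract predicate: a central clique of size `c` and cliques of sizes `l`. -/
def RL (c : ℕ) (l : List ℕ) : Prop :=
  1 ≤ c + l.sum ∧ (1 ≤ c ∨ nz l ≤ 1) ∧
  ∀ a, 1 ≤ a → a < c + l.sum →
    ∃ (x₀ y₀ : ℕ) (x y : List ℕ) (_ : x₀ + y₀ = c) (_ : Split l x y) (_ : x₀ + x.sum = a),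
      RL x₀ x ∧ RL y₀ y
termination_by c + l.sum
decreasing_by
  · omega
  · rename_i hs h1
    have := hs.sum
    omega

theorem RL_iff (c : ℕ) (l : List ℕ) : RL c l ↔ (1 ≤ c + l.sum ∧ (1 ≤ c ∨ nz l ≤ 1) ∧
  ∀ a, 1 ≤ a → a < c + l.sum →
    ∃ (x₀ y₀ : ℕ) (x y : List ℕ), x₀ + y₀ = c ∧ Split l x y ∧ x₀ + x.sum = a ∧
      RL x₀ x ∧ RL y₀ y) := by
  rw [RL]
  simp only [exists_prop]

theorem RL.perm {c : ℕ} {l l' : List ℕ} (hp : l.Perm l') (h : RL c l) : RL c l' := by
  induction hn : c + l.sum using Nat.strong_induction_on generalizing c l l' with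
  | _ n ih =>
    rw [RL_iff] at h ⊢
    obtain ⟨h1, h2, h3⟩ := h
    have hsum : l.sum = l'.sum := hp.sum_eq
    refine ⟨by omega, ?_, ?_⟩
    · rw [← nz_perm hp]; exact h2
    · intro a ha ha'
      obtain ⟨x₀, y₀, x, y, h0, hs, hax, hx, hy⟩ := h3 a ha (by omega)
      obtain ⟨x', y', hxx, hyy, hs'⟩ := hs.perm hp
      have e1 := hs.sum
      refine ⟨x₀, y₀, x', y', h0, hs', ?_, ?_, ?_⟩
      · rw [← hxx.sum_eq]; exact hax
      · exact ih _ (by omega) hxx hx rfl
      · exact ih _ (by omega) hyy hy rfl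

theorem RL_perm_iff {c : ℕ} {l l' : List ℕ} (hp : l.Perm l') : RL c l ↔ RL c l' :=
  ⟨fun h => h.perm hp, fun h => h.perm hp.symm⟩

theorem RL_zero_cons {c : ℕ} {l : List ℕ} : RL c (0 :: l) ↔ RL c l := by
  induction hn : c + l.sum using Nat.strong_induction_on generalizing c l with
  | _ n ih =>
    rw [RL_iff c (0 :: l), RL_iff c l]
    have hsum : (0 :: l).sum = l.sum := by simp
    rw [hsum, nz_cons_zero]
    constructor
    · rintro ⟨h1, h2, h3⟩
      refine ⟨h1, h2, fun a ha ha' => ?_⟩
      obtain ⟨x₀, y₀, x, y, h0, hs, hax, hx, hy⟩ := h3 a ha ha'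
      generalize hl : 0 :: l = l0 at hs
      cases hs with
      | nil => simp at hl
      | @cons p q l' x y hs =>
        simp only [List.cons.injEq] at hl
        obtain ⟨hpq, rfl⟩ := hl
        have hp : p = 0 := by omega
        have hq : q = 0 := by omega
        subst hp; subst hq
        have e1 := hs.sum
        simp only [List.sum_cons, Nat.zero_add] at hax
        exact ⟨x₀, y₀, x, y, h0, hs, hax, (ih _ (by omega) rfl).1 hx, (ih _ (by omega) rfl).1 hy⟩
    · rintro ⟨h1, h2, h3⟩
      refine ⟨h1, h2, fun a ha ha' => ?_⟩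
      obtain ⟨x₀, y₀, x, y, h0, hs, hax, hx, hy⟩ := h3 a ha ha'
      have e1 := hs.sum
      exact ⟨x₀, y₀, 0 :: x, 0 :: y, h0, hs.cons 0 0, by simpa using hax,
        (ih _ (by omega) rfl).2 hx, (ih _ (by omega) rfl).2 hy⟩

/-- a list of clique sizes can be replaced by its nonzero entries -/
theorem RL_filter {c : ℕ} {l : List ℕ} :
    RL c l ↔ RL c (l.filter (fun a => decide (a ≠ 0))) := by
  have key : ∀ (l m : List ℕ), RL c (l ++ m) ↔ RL c (l.filter (fun a => decide (a ≠ 0)) ++ m) := by
    intro l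
    induction l with
    | nil => intro m; simp
    | cons a l ih =>
      intro m
      by_cases ha : a = 0
      · subst ha
        rw [List.cons_append, RL_zero_cons, ih m]
        simp
      · have e : (a :: l).filter (fun a => decide (a ≠ 0)) =
            a :: l.filter (fun a => decide (a ≠ 0)) := by simp [ha]
        rw [e]
        have h1 : RL c ((a :: l) ++ m) ↔ RL c (l ++ (a :: m)) := RL_perm_iff List.perm_middle.symm
        have h2 : RL c ((a :: l.filter (fun a => decide (a ≠ 0))) ++ m) ↔
            RL c (l.filter (fun a => decide (a ≠ 0)) ++ (a :: m)) := RL_perm_iff List.perm_middle.symm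
        rw [h1, h2, ih (a :: m)]
  have := key l []
  simpa using this

end Pool.Agent.Semistar
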