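import Pool.Agent.Semistar.Cover

set_option autoImplicit false

/-!
Semistars with a centre of size one.
-/

namespace Pool.Agent.Semistar

theorem exists_perm_cons {a : ℕ} {l : List ℕ} (h : a ∈ l) : ∃ m, l.Perm (a :: m) :=
  ⟨l.erase a, List.perm_cons_erase h⟩

theorem sum_ge_length {l : List ℕ} (h : ∀ a ∈ l, a ≠ 0) : l.length ≤ l.sum := by
  have := nz_le_sum l
  rwa [nz_of_pos h] at this

/-- a clique of size `e` cannot be too large -/
theorem mem_le_sum {l : List ℕ} (h : ∀ a ∈ l, a ≠ 0) {e : ℕ} (he : e ∈ l) :
    e + l.length ≤ l.sum + 1 := by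
  obtain ⟨m, hm⟩ := exists_perm_cons he
  have h1 : ∀ a ∈ m, a ≠ 0 := fun a ha => h a (hm.mem_iff.2 (by simp [ha]))
  have h2 := sum_ge_length h1
  rw [hm.sum_eq, hm.length_eq, List.sum_cons, List.length_cons]
  omega

theorem RL_one_length {l : List ℕ} (hl : ∀ a ∈ l, a ≠ 0) (h : RL 1 l) : l.length ≤ 3 := by
  induction hn : l.sum using Nat.strong_induction_on generalizing l with
  | _ n ih =>
    by_contra hlen
    have hsum := sum_ge_length hl
    -- every size is covered by a whole clique
    have H : ∀ a, 1 ≤ a → a < 1 + l.sum → ∃ s, (s = a ∨ s = 1 + l.sum - a) ∧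
        ∃ m, l.Perm (s :: m) ∧ RL 1 m := by
      intro a ha ha'
      obtain ⟨s, hs, e, m, hp, hse, hR⟩ := cover_one h ha ha'
      refine ⟨s, hs, ?_⟩
      have hm : ∀ a ∈ m, a ≠ 0 := fun a ha => hl a (hp.mem_iff.2 (by simp [ha]))
      have e1 := hp.sum_eq
      have e2 := hp.length_eq
      rw [List.sum_cons] at e1
      rw [List.length_cons] at e2
      rcases Nat.lt_or_ge s e with hlt | hge
      · exfalso
        have h1 : ∀ a ∈ (e - s) :: m, a ≠ 0 := by
          intro a ha
          rw [List.mem_cons] at ha
          rcases ha with ha | ha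
          · omega
          · exact hm a ha
        have := ih _ (by rw [List.sum_cons]; omega) h1 hR rfl
        rw [List.length_cons] at this
        omega
      · have : s = e := by omega
        subst this
        rw [Nat.sub_self, RL_zero_cons] at hR
        exact ⟨m, hp, hR⟩
    have hlen4 : l.length = 4 := by
      by_contra hne
      obtain ⟨s, hs, m, hp, hR⟩ := H 1 (by omega) (by omega)
      have hm : ∀ a ∈ m, a ≠ 0 := fun a ha => hl a (hp.mem_iff.2 (by simp [ha]))
      have e1 := hp.sum_eq
      have e2 := hp.length_eq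
      rw [List.sum_cons] at e1
      rw [List.length_cons] at e2
      have hs0 : s ≠ 0 := hl s (hp.mem_iff.2 (by simp))
      have := ih _ (by omega) hm hR rfl
      omega
    have H' : ∀ a, 1 ≤ a → a < 1 + l.sum → a ∈ l ∨ 1 + l.sum - a ∈ l := by
      intro a ha ha'
      obtain ⟨s, hs, m, hp, -⟩ := H a ha ha'
      have hsl : s ∈ l := hp.mem_iff.2 (by simp)
      rcases hs with rfl | rfl
      · exact Or.inl hsl
      · exact Or.inr hsl
    have small : ∀ a, 1 ≤ a → a < 4 → a ∈ l := by
      intro a ha ha4
      rcases H' a ha (by omega) with h | h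
      · exact h
      · have := mem_le_sum hl h
        omega
    obtain ⟨m1, hm1⟩ := exists_perm_cons (small 1 (by omega) (by omega))
    have h2 : 2 ∈ m1 := by
      have := hm1.mem_iff.1 (small 2 (by omega) (by omega))
      simpa using this
    obtain ⟨m2, hm2⟩ := exists_perm_cons h2
    have h3 : 3 ∈ m2 := by
      have := hm1.mem_iff.1 (small 3 (by omega) (by omega))
      simp only [List.mem_cons] at this
      rcases this with h | h
      · omega
      · have := hm2.mem_iff.1 h
        simpa using this
    obtain ⟨m3, hm3⟩ := exists_perm_cons h3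
    have hp : l.Perm (1 :: 2 :: 3 :: m3) :=
      hm1.trans ((hm2.trans (hm3.cons 2)).cons 1)
    have e1 := hp.sum_eq
    have e2 := hp.length_eq
    simp only [List.sum_cons, List.length_cons] at e1 e2
    obtain ⟨w, rfl⟩ : ∃ w, m3 = [w] := List.length_eq_one_iff.1 (by omega)
    simp only [List.sum_cons, List.sum_nil] at e1
    have hw : w ≠ 0 := hl w (hp.mem_iff.2 (by simp))
    have h4 := H' 4 (by omega) (by omega)
    rw [hp.mem_iff, hp.mem_iff] at h4
    simp only [List.mem_cons, List.not_mem_nil, or_false] at h4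
    have hw4 : w = 4 := by omega
    subst hw4
    have h5 := H' 5 (by omega) (by omega)
    rw [hp.mem_iff, hp.mem_iff] at h5
    simp only [List.mem_cons, List.not_mem_nil, or_false] at h5
    omega

theorem RL_one_nz {l : List ℕ} (h : RL 1 l) : nz l ≤ 3 := by
  have h1 := RL_one_length (l := l.filter (fun a => decide (a ≠ 0)))
    (by intro a ha; simpa using (List.mem_filter.1 ha).2) (RL_filter.1 h)
  exact h1

/-- all ways to single out one entry of a list -/
def sel : List ℕ → List (ℕ × List ℕ)
  | [] => []
  | x :: l => (x, l) :: (sel l).map (fun p => (p.1, x :: p.2))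

theorem sel_complete {l m : List ℕ} {e : ℕ} (h : l.Perm (e :: m)) :
    ∃ m', (e, m') ∈ sel l ∧ m.Perm m' := by
  have he : e ∈ l := h.mem_iff.2 (by simp)
  have key : ∀ l : List ℕ, e ∈ l → ∃ m', (e, m') ∈ sel l ∧ l.Perm (e :: m') := by
    intro l
    induction l with
    | nil => intro h; simp at h
    | cons x l ih =>
      intro hx
      rw [List.mem_cons] at hx
      rcases hx with rfl | hx
      · exact ⟨l, by simp [sel], List.Perm.refl _⟩
      · obtain ⟨m', h1, h2⟩ := ih hx
        refine ⟨x :: m', ?_, (h2.cons x).trans (List.Perm.swap _ _ _)⟩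
        simp only [sel, List.mem_cons, List.mem_map]
        exact Or.inr ⟨(e, m'), h1, rfl⟩
  obtain ⟨m', h1, h2⟩ := key l he
  exact ⟨m', h1, (List.perm_cons e).1 (h.symm.trans h2)⟩

/-- insertion -/
def ins (a : ℕ) : List ℕ → List ℕ
  | [] => [a]
  | b :: l => if Nat.ble a b then a :: b :: l else b :: ins a l

/-- sorted list of the nonzero entries -/
def srt : List ℕ → List ℕ
  | [] => []
  | a :: l => if Nat.beq a 0 then srt l else ins a (srt l)

theorem ins_perm (a : ℕ) (l : List ℕ) : (ins a l).Perm (a :: l) := by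
  induction l with
  | nil => exact List.Perm.refl _
  | cons b l ih =>
    unfold ins
    split_ifs
    · exact List.Perm.refl _
    · exact (ih.cons b).trans (List.Perm.swap _ _ _)

theorem srt_perm (l : List ℕ) : (srt l).Perm (l.filter (fun a => decide (a ≠ 0))) := by
  induction l with
  | nil => exact List.Perm.refl _
  | cons a l ih =>
    unfold srt
    split_ifs with h
    · rw [Nat.beq_eq] at h
      subst h
      have e1 : (0 :: l).filter (fun a => decide (a ≠ 0)) = l.filter (fun a => decide (a ≠ 0)) := by
        simp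
      rw [e1]; exact ih
    · have ha : a ≠ 0 := by
        intro h0; apply h; rw [h0]; rfl
      have e1 : (a :: l).filter (fun a => decide (a ≠ 0)) =
            a :: l.filter (fun a => decide (a ≠ 0)) := by simp [ha]
      rw [e1]
      exact (ins_perm a _).trans (ih.cons a)

theorem RL_srt {c : ℕ} {l : List ℕ} : RL c (srt l) ↔ RL c l := by
  rw [RL_filter (l := l)]
  exact RL_perm_iff (srt_perm l)

/-- `T` lists semistars that are not recursively partitionable -/
def Sound (T : List (ℕ × List ℕ)) : Prop := ∀ p ∈ T, ¬ RL p.1 p.2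

/-- known not to be recursively partitionable (centre of size one) -/
def nr1 (T : List (ℕ × List ℕ)) (l : List ℕ) : Bool :=
  Nat.ble 4 (nz l) || T.contains (1, srt l)

theorem nr1_sound {T : List (ℕ × List ℕ)} (hT : Sound T) {l : List ℕ} (h : nr1 T l = true) :
    ¬ RL 1 l := by
  intro hR
  simp only [nr1, Bool.or_eq_true, Nat.ble_eq] at h
  rcases h with h | h
  · have := RL_one_nz hR
    omega
  · have h1 : ((1, srt l) : ℕ × List ℕ) ∈ T := by simpa using h
    exact hT _ h1 (RL_srt.2 hR)

/-- the part size `a` shows that the semistar with centre of size one is not recursively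
partitionable -/
def refute1 (T : List (ℕ × List ℕ)) (l : List ℕ) (a : ℕ) : Bool :=
  Nat.ble 1 a && Nat.ble (a + 1) (1 + l.sum) && (sel l).all (fun p =>
    (!(Nat.ble a p.1) || nr1 T ((p.1 - a) :: p.2)) &&
    (!(Nat.ble (1 + l.sum - a) p.1) || nr1 T ((p.1 - (1 + l.sum - a)) :: p.2)))

theorem refute1_sound {T : List (ℕ × List ℕ)} (hT : Sound T) {l : List ℕ} {a : ℕ}
    (h : refute1 T l a = true) : ¬ RL 1 l := by
  intro hR
  simp only [refute1, Bool.and_eq_true, Bool.or_eq_true, Nat.ble_eq, List.all_eq_true,
    Bool.not_eq_true'] at h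
  obtain ⟨⟨h1, h2⟩, h3⟩ := h
  obtain ⟨s, hs, e, m, hp, hse, hRm⟩ := cover_one hR h1 (by omega)
  obtain ⟨m', hm', hmm⟩ := sel_complete hp
  have h4 := h3 _ hm'
  have hRm' : RL 1 ((e - s) :: m') := hRm.perm (hmm.cons _)
  have hb : ∀ x y : ℕ, x ≤ y → ¬ (Nat.ble x y = false) := by
    intro x y hxy hf
    rw [← Nat.ble_eq] at hxy
    rw [hxy] at hf
    exact absurd hf (by simp)
  rcases hs with rfl | rfl
  · rcases h4.1 with h5 | h5
    · exact hb _ _ hse h5
    · exact nr1_sound hT h5 hRm'
  · rcases h4.2 with h5 | h5
    · exact hb _ _ hse h5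
    · exact nr1_sound hT h5 hRm'

/-- checks a table of non-recursively-partitionable semistars with centre of size one; each entry
comes with a part size and uses the entries after it -/
def checkT1 : List (List ℕ × ℕ) → Bool
  | [] => true
  | p :: T => refute1 (T.map (fun q => (1, q.1))) p.1 p.2 && checkT1 T

theorem checkT1_sound (T : List (List ℕ × ℕ)) (h : checkT1 T = true) :
    Sound (T.map (fun q => (1, q.1))) := by
  induction T with
  | nil => intro p hp; simp at hp
  | cons p T ih =>
    simp only [checkT1, Bool.and_eq_true] at h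
    intro q hq
    simp only [List.map_cons, List.mem_cons] at hq
    rcases hq with rfl | hq
    · exact refute1_sound (ih h.2) h.1
    · exact ih h.2 q hq

end Pool.Agent.Semistar
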