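import Pool.Agent.Semistar.T1

set_option autoImplicit false

/-!
Recursively partitionable semistars with centre of size one and three cliques.
-/

namespace Pool.Agent.Semistar

/-- some non-recursively-partitionable semistars `K_1(p, q, r)` -/
def T1tab : List (List ℕ × ℕ) :=
  [([2, 4, 11], 6), ([2, 4, 9], 5), ([2, 6, 7], 8), ([2, 4, 7], 5), ([2, 5, 6], 7),
   ([3, 4, 6], 7), ([2, 4, 5], 6), ([2, 3, 5], 1), ([2, 4, 4], 5), ([1, 3, 5], 4),
   ([2, 2, 5], 3), ([2, 3, 4], 5), ([2, 2, 4], 3), ([2, 2, 3], 4), ([2, 2, 2], 3),
   ([1, 1, 3], 2), ([1, 2, 2], 3), ([1, 1, 1], 2)]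

theorem T1tab_ok : checkT1 T1tab = true := by decide +kernel

theorem T1tab_sound : Sound (T1tab.map (fun q => (1, q.1))) := checkT1_sound _ T1tab_ok

/-- a list whose sorted form is in the table -/
theorem not_RL_of_srt {l : List ℕ} (h : ((1, srt l) : ℕ × List ℕ) ∈ T1tab.map (fun q => (1, q.1))) :
    ¬ RL 1 l := fun hR => T1tab_sound _ h (RL_srt.2 hR)

theorem cover_one_sel {l : List ℕ} (h : RL 1 l) {a : ℕ} (ha : 1 ≤ a) (ha' : a < 1 + l.sum) :
    ∃ p ∈ sel l, ∃ s, (s = a ∨ s = 1 + l.sum - a) ∧ s ≤ p.1 ∧ RL 1 ((p.1 - s) :: p.2) := by
  obtain ⟨s, hs, e, m, hp, hse, hR⟩ := cover_one h ha ha'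
  obtain ⟨m', hm', hmm⟩ := sel_complete hp
  exact ⟨(e, m'), hm', s, hs, hse, hR.perm (hmm.cons _)⟩

theorem perm2 {x y a b : ℕ} (h : [x, y].Perm [a, b]) : (x = a ∧ y = b) ∨ (x = b ∧ y = a) := by
  have hx : x ∈ [a, b] := h.mem_iff.1 (by simp)
  simp only [List.mem_cons, List.not_mem_nil, or_false] at hx
  rcases hx with rfl | rfl
  · left
    have := (List.perm_cons x).1 h
    exact ⟨rfl, by simpa using this⟩
  · right
    have h2 : [x, y].Perm [x, a] := h.trans (List.Perm.swap _ _ _)
    have := (List.perm_cons x).1 h2
    exact ⟨rfl, by simpa using this⟩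

theorem perm3 {x y z a b c : ℕ} (h : [x, y, z].Perm [a, b, c]) :
    (x = a ∧ ((y = b ∧ z = c) ∨ (y = c ∧ z = b))) ∨
    (x = b ∧ ((y = a ∧ z = c) ∨ (y = c ∧ z = a))) ∨
    (x = c ∧ ((y = a ∧ z = b) ∨ (y = b ∧ z = a))) := by
  have hx : x ∈ [a, b, c] := h.mem_iff.1 (by simp)
  simp only [List.mem_cons, List.not_mem_nil, or_false] at hx
  rcases hx with rfl | rfl | rfl
  · left
    exact ⟨rfl, perm2 ((List.perm_cons x).1 h)⟩
  · right; left
    have h2 : [x, y, z].Perm [x, a, c] := h.trans (List.Perm.swap _ _ _)
    exact ⟨rfl, perm2 ((List.perm_cons x).1 h2)⟩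
  · right; right
    have h2 : [x, y, z].Perm [x, a, b] :=
      h.trans (((List.Perm.swap x b []).cons a).trans (List.Perm.swap _ _ _))
    exact ⟨rfl, perm2 ((List.perm_cons x).1 h2)⟩

theorem RL_one_one_even {r : ℕ} (h : RL 1 [1, 1, r]) : r % 2 = 0 := by
  induction hn : r using Nat.strong_induction_on generalizing r with
  | _ n ih =>
    subst hn
    by_contra hr
    obtain ⟨p, hp, s, hs, hse, hR⟩ := cover_one_sel h (a := 2) (by omega)
      (by simp only [List.sum_cons, List.sum_nil]; omega)
    simp only [sel, List.map_cons, List.map_nil, List.mem_cons, List.not_mem_nil, or_false] at hp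
    simp only [List.sum_cons, List.sum_nil] at hs
    rcases hp with rfl | rfl | rfl
    · simp only at hse; omega
    · simp only at hse; omega
    · simp only at hse hR
      have hs2 : s = 2 := by omega
      subst hs2
      have hR' : RL 1 [1, 1, r - 2] := hR.perm
        (((List.Perm.swap 1 (r - 2) [1])).trans ((List.Perm.swap 1 (r - 2) []).cons 1))
      have := ih (r - 2) (by omega) hR' rfl
      omega

theorem RL_one_three {p q r : ℕ} (hp : 2 ≤ p) (hq : 2 ≤ q) (hr : 2 ≤ r) (h : RL 1 [p, q, r]) :
    [p, q, r].Perm [2, 4, 6] := by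
  induction hn : p + q + r using Nat.strong_induction_on generalizing p q r with
  | _ n ih =>
    -- the contradictions from the table
    have tab : ∀ x y z : ℕ, ((1, srt [x, y, z]) : ℕ × List ℕ) ∈ T1tab.map (fun q => (1, q.1)) →
        [p, q, r].Perm [x, y, z] → False := by
      intro x y z hx hxy
      exact not_RL_of_srt hx (h.perm hxy)
    -- the case of an entry two
    have two : ∀ q r : ℕ, 2 ≤ q → 2 ≤ r → [p, q, r].Perm [p, q, r] →
        ∀ q' r' : ℕ, 2 ≤ q' → 2 ≤ r' → n = 2 + q' + r' → RL 1 [2, q', r'] →
        (∀ x y z : ℕ, ((1, srt [x, y, z]) : ℕ × List ℕ) ∈ T1tab.map (fun q => (1, q.1)) →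
        [2, q', r'].Perm [x, y, z] → False) → [2, q', r'].Perm [2, 4, 6] := by
      intro _ _ _ _ _ q r hq hr hn h tab
      -- one of q, r is three or four
      have key : ∀ q r : ℕ, 2 ≤ q → 2 ≤ r → n = 2 + q + r → RL 1 [2, q, r] →
          (∀ x y z : ℕ, ((1, srt [x, y, z]) : ℕ × List ℕ) ∈ T1tab.map (fun q => (1, q.1)) →
          [2, q, r].Perm [x, y, z] → False) → 3 ≤ q → RL 1 [q - 3, 2, r] →
          [2, q, r].Perm [2, 4, 6] := by
        intro q r hq hr hn h tab hq3 hR
        have hq34 : q = 3 ∨ q = 4 := by
          by_contra hne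
          have h1 := ih (q - 3 + 2 + r) (by omega) (by omega) (le_refl 2) hr hR rfl
          rcases perm3 h1 with ⟨h2, h3 | h3⟩ | ⟨h2, h3 | h3⟩ | ⟨h2, h3 | h3⟩ <;> try omega
          · have hq7 : q = 7 := by omega
            have hr6 : r = 6 := by omega
            subst hq7; subst hr6
            exact tab 2 7 6 (by decide) (List.Perm.refl _)
          · have hq9 : q = 9 := by omega
            have hr4 : r = 4 := by omega
            subst hq9; subst hr4
            exact tab 2 9 4 (by decide) (List.Perm.refl _)
        rcases hq34 with rfl | rfl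
        · exfalso
          obtain ⟨p, hp, s, hs, hse, hR⟩ := cover_one_sel h (a := 4) (by omega)
            (by simp only [List.sum_cons, List.sum_nil]; omega)
          simp only [sel, List.map_cons, List.map_nil, List.mem_cons, List.not_mem_nil,
            or_false] at hp
          simp only [List.sum_cons, List.sum_nil] at hs
          rcases hp with rfl | rfl | rfl
          · simp only at hse; omega
          · simp only at hse; omega
          · simp only at hse hR
            have hs4 : s = 4 := by omega
            subst hs4
            have hr45 : r = 4 ∨ r = 5 := by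
              by_contra hne
              have h1 := ih (r - 4 + 2 + 3) (by omega) (by omega) (le_refl 2) (by omega) hR rfl
              rcases perm3 h1 with ⟨h2, h3 | h3⟩ | ⟨h2, h3 | h3⟩ | ⟨h2, h3 | h3⟩ <;> omega
            rcases hr45 with rfl | rfl
            · exact tab 2 3 4 (by decide) (List.Perm.refl _)
            · exact tab 2 3 5 (by decide) (List.Perm.refl _)
        · obtain ⟨p, hp, s, hs, hse, hR⟩ := cover_one_sel h (a := 5) (by omega)
            (by simp only [List.sum_cons, List.sum_nil]; omega)
          simp only [sel, List.map_cons, List.map_nil, List.mem_cons, List.not_mem_nil,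
            or_false] at hp
          simp only [List.sum_cons, List.sum_nil] at hs
          rcases hp with rfl | rfl | rfl
          · simp only at hse; omega
          · simp only at hse
            have hr2 : r = 2 := by omega
            subst hr2
            exact (tab 2 4 2 (by decide) (List.Perm.refl _)).elim
          · simp only at hse hR
            have hs5 : s = 5 := by omega
            subst hs5
            have hr56 : r = 5 ∨ r = 6 ∨ r = 11 := by
              by_contra hne
              have h1 := ih (r - 5 + 2 + 4) (by omega) (by omega) (le_refl 2) (by omega) hR rfl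
              rcases perm3 h1 with ⟨h2, h3 | h3⟩ | ⟨h2, h3 | h3⟩ | ⟨h2, h3 | h3⟩ <;> omega
            rcases hr56 with rfl | rfl | rfl
            · exact (tab 2 4 5 (by decide) (List.Perm.refl _)).elim
            · exact List.Perm.refl _
            · exact (tab 2 4 11 (by decide) (List.Perm.refl _)).elim
      obtain ⟨p, hp, s, hs, hse, hR⟩ := cover_one_sel h (a := 3) (by omega)
        (by simp only [List.sum_cons, List.sum_nil]; omega)
      simp only [sel, List.map_cons, List.map_nil, List.mem_cons, List.not_mem_nil,
        or_false] at hp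
      simp only [List.sum_cons, List.sum_nil] at hs
      rcases hp with rfl | rfl | rfl
      · simp only at hse; omega
      · simp only at hse hR
        have hs3 : s = 3 := by omega
        subst hs3
        exact key q r hq hr hn h tab hse hR
      · simp only at hse hR
        have hs3 : s = 3 := by omega
        subst hs3
        have hsw : [2, r, q].Perm [2, q, r] := (List.Perm.swap q r []).cons 2
        have := key r q hr hq (by omega) (h.perm hsw.symm)
          (fun x y z h1 h2 => tab x y z h1 (hsw.symm.trans h2)) hse hR
        exact hsw.symm.trans this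
    obtain ⟨w, hw, s, hs, hse, hR⟩ := cover_one_sel h (a := 1) (by omega)
      (by simp only [List.sum_cons, List.sum_nil]; omega)
    simp only [sel, List.map_cons, List.map_nil, List.mem_cons, List.not_mem_nil,
      or_false] at hw
    simp only [List.sum_cons, List.sum_nil] at hs
    -- entry `e` reduced by one, the others `u`, `v`
    have fin : ∀ e u v : ℕ, 2 ≤ e → 2 ≤ u → 2 ≤ v → [p, q, r].Perm [e, u, v] →
        n = e + u + v → RL 1 [e - 1, u, v] → [p, q, r].Perm [2, 4, 6] := by
      intro e u v he hu hv hperm hsum hR
      rcases Nat.lt_or_ge e 3 with he3 | he3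
      · have he2 : e = 2 := by omega
        subst he2
        refine hperm.trans (two u v hu hv (List.Perm.refl _) u v hu hv (by omega)
          (h.perm hperm) ?_)
        intro x y z h1 h2
        exact tab x y z h1 (hperm.trans h2)
      · have h1 := ih (e - 1 + u + v) (by omega) (by omega) hu hv hR rfl
        rcases perm3 h1 with ⟨h2, h3 | h3⟩ | ⟨h2, h3 | h3⟩ | ⟨h2, h3 | h3⟩
        · exact (tab 3 4 6 (by decide) (by
            have : e = 3 := by omega
            rw [this, h3.1, h3.2] at hperm; exact hperm)).elim
        · exact (tab 3 6 4 (by decide) (by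
            have : e = 3 := by omega
            rw [this, h3.1, h3.2] at hperm; exact hperm)).elim
        · exact (tab 5 2 6 (by decide) (by
            have : e = 5 := by omega
            rw [this, h3.1, h3.2] at hperm; exact hperm)).elim
        · exact (tab 5 6 2 (by decide) (by
            have : e = 5 := by omega
            rw [this, h3.1, h3.2] at hperm; exact hperm)).elim
        · exact (tab 7 2 4 (by decide) (by
            have : e = 7 := by omega
            rw [this, h3.1, h3.2] at hperm; exact hperm)).elim
        · exact (tab 7 4 2 (by decide) (by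
            have : e = 7 := by omega
            rw [this, h3.1, h3.2] at hperm; exact hperm)).elim
    rcases hw with rfl | rfl | rfl
    · simp only at hse hR
      have hs1 : s = 1 := by omega
      subst hs1
      exact fin p q r hp hq hr (List.Perm.refl _) (by omega) hR
    · simp only at hse hR
      have hs1 : s = 1 := by omega
      subst hs1
      exact fin q p r hq hp hr (List.Perm.swap _ _ _) (by omega) hR
    · simp only at hse hR
      have hs1 : s = 1 := by omega
      subst hs1
      exact fin r p q hr hp hq
        (((List.Perm.swap r q []).cons p).trans (List.Perm.swap _ _ _)) (by omega) hR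

/-- the structure of recursively partitionable `K_1(p, q, r)` used later -/
theorem RL_one_mem {l : List ℕ} (hl : ∀ a ∈ l, a ≠ 0) (hlen : l.length = 3) (h : RL 1 l) :
    1 ∈ l ∨ l.Perm [2, 4, 6] := by
  by_cases h1 : 1 ∈ l
  · exact Or.inl h1
  · right
    obtain ⟨p, q, r, rfl⟩ : ∃ p q r, l = [p, q, r] := by
      match l, hlen with
      | [p, q, r], _ => exact ⟨p, q, r, rfl⟩
    simp only [List.mem_cons, List.not_mem_nil, or_false, not_or] at h1
    have := hl p (by simp)
    have := hl q (by simp)
    have := hl r (by simp)
    exact RL_one_three (by omega) (by omega) (by omega) h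

end Pool.Agent.Semistar
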