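import Pool.Agent.Semistar.T1b

set_option autoImplicit false

/-!
Semistars with a centre of size two.
-/

namespace Pool.Agent.Semistar

/-- all ways to choose `k` entries of a list, with the remaining entries -/
def picks : ℕ → List ℕ → List (List ℕ × List ℕ)
  | 0, l => [([], l)]
  | _ + 1, [] => []
  | k + 1, x :: l => (picks k l).map (fun p => (x :: p.1, p.2)) ++
      (picks (k + 1) l).map (fun p => (p.1, x :: p.2))

theorem picks_complete {l t u : List ℕ} (h : l.Perm (t ++ u)) :
    ∃ p ∈ picks t.length l, t.Perm p.1 ∧ u.Perm p.2 := by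
  induction l generalizing t u with
  | nil =>
    have h1 := h.nil_eq
    rw [eq_comm, List.append_eq_nil_iff] at h1
    obtain ⟨rfl, rfl⟩ := h1
    exact ⟨([], []), by simp [picks], List.Perm.refl _, List.Perm.refl _⟩
  | cons x l ih =>
    have hx : x ∈ t ++ u := h.mem_iff.1 (by simp)
    rw [List.mem_append] at hx
    by_cases ht : t = []
    · subst ht
      exact ⟨([], x :: l), by simp [picks], List.Perm.refl _, by simpa using h.symm⟩
    obtain ⟨k, hk⟩ : ∃ k, t.length = k + 1 :=
      ⟨t.length - 1, by have := List.length_pos_iff.2 ht; omega⟩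
    rcases hx with hx | hx
    · obtain ⟨t', ht'⟩ := exists_perm_cons hx
      have h1 : l.Perm (t' ++ u) := by
        have h2 : (x :: l).Perm (x :: (t' ++ u)) := h.trans (ht'.append_right u)
        exact (List.perm_cons x).1 h2
      obtain ⟨p, hp, h3, h4⟩ := ih h1
      refine ⟨(x :: p.1, p.2), ?_, ht'.trans (h3.cons x), h4⟩
      rw [ht'.length_eq, List.length_cons]
      simp only [picks, List.mem_append, List.mem_map]
      exact Or.inl ⟨p, hp, rfl⟩
    · obtain ⟨u', hu'⟩ := exists_perm_cons hx
      have h1 : l.Perm (t ++ u') := by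
        have h2 : (x :: l).Perm (x :: (t ++ u')) :=
          h.trans ((hu'.append_left t).trans List.perm_middle)
        exact (List.perm_cons x).1 h2
      obtain ⟨p, hp, h3, h4⟩ := ih h1
      refine ⟨(p.1, x :: p.2), ?_, h3, hu'.trans (h4.cons x)⟩
      rw [hk] at hp ⊢
      simp only [picks, List.mem_append, List.mem_map]
      exact Or.inr ⟨p, hp, rfl⟩

/-- covering condition for a centre of size two -/
theorem cover_two {l : List ℕ} (h : RL 2 l) {a : ℕ} (ha : 1 ≤ a) (ha' : a < 2 + l.sum) :
    (∃ s, (s = a ∨ s = 2 + l.sum - a) ∧ ∃ e m, l.Perm (e :: m) ∧ s ≤ e ∧ RL 2 ((e - s) :: m)) ∨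
    (∃ x y, Split l x y ∧ 1 + x.sum = a ∧ RL 1 x ∧ RL 1 y) := by
  rw [RL_iff] at h
  obtain ⟨x₀, y₀, x, y, h0, hs, hax, hx, hy⟩ := h.2.2 a ha ha'
  have e1 := hs.sum
  rcases Nat.eq_zero_or_pos x₀ with hx0 | hx0
  · subst hx0
    have hy0 : y₀ = 2 := by omega
    subst hy0
    obtain ⟨e, m, h3, h4, -, h5⟩ := RL_zero_chunk hs hx
    exact Or.inl ⟨x.sum, Or.inl (by omega), e, m, h3, h4, hy.perm h5⟩
  · rcases Nat.eq_zero_or_pos y₀ with hy0 | hy0
    · subst hy0
      have hx0' : x₀ = 2 := by omega
      subst hx0'
      obtain ⟨e, m, h3, h4, -, h5⟩ := RL_zero_chunk hs.symm hy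
      exact Or.inl ⟨y.sum, Or.inr (by omega), e, m, h3, h4, hx.perm h5⟩
    · have hx1 : x₀ = 1 := by omega
      have hy1 : y₀ = 1 := by omega
      subst hx1; subst hy1
      exact Or.inr ⟨x, y, hs, hax, hx, hy⟩

theorem mem_filter_ne {l : List ℕ} : ∀ a ∈ l.filter (fun a => decide (a ≠ 0)), a ≠ 0 := by
  intro a ha
  simpa using (List.mem_filter.1 ha).2

theorem not_RL_one_sum_five {t : List ℕ} (ht : ∀ a ∈ t, a ≠ 0) (h3 : t.length = 3)
    (h5 : t.sum = 5) (h : RL 1 t) : False := by
  obtain ⟨p, q, r, rfl⟩ : ∃ p q r, t = [p, q, r] := by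
    match t, h3 with
    | [p, q, r], _ => exact ⟨p, q, r, rfl⟩
  have hp := ht p (by simp)
  have hq := ht q (by simp)
  have hr := ht r (by simp)
  simp only [List.sum_cons, List.sum_nil] at h5
  have hp3 : p ≤ 3 := by omega
  have hq3 : q ≤ 3 := by omega
  have hr' : r = 5 - p - q := by omega
  subst hr'
  have hp1 : 1 ≤ p := by omega
  have hq1 : 1 ≤ q := by omega
  interval_cases p <;> interval_cases q <;>
    first
    | exact not_RL_of_srt (by decide) h
    | omega

theorem not_RL_one_sum_three {t : List ℕ} (ht : ∀ a ∈ t, a ≠ 0) (h3 : t.length = 3)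
    (h5 : t.sum = 3) (h : RL 1 t) : False := by
  obtain ⟨p, q, r, rfl⟩ : ∃ p q r, t = [p, q, r] := by
    match t, h3 with
    | [p, q, r], _ => exact ⟨p, q, r, rfl⟩
  have hp := ht p (by simp)
  have hq := ht q (by simp)
  have hr := ht r (by simp)
  simp only [List.sum_cons, List.sum_nil] at h5
  have h1 : p = 1 := by omega
  have h2 : q = 1 := by omega
  have h4 : r = 1 := by omega
  subst h1; subst h2; subst h4
  exact not_RL_of_srt (by decide) h

theorem RL_two_length {l : List ℕ} (hl : ∀ a ∈ l, a ≠ 0) (h : RL 2 l) : l.length ≤ 5 := by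
  induction hn : l.sum using Nat.strong_induction_on generalizing l with
  | _ n ih =>
    by_contra hlen
    have hsum := sum_ge_length hl
    have H : ∀ a, 1 ≤ a → a < 2 + l.sum → (∃ s, (s = a ∨ s = 2 + l.sum - a) ∧
        ∃ m, l.Perm (s :: m) ∧ RL 2 m) ∨
        (∃ t u, l.Perm (t ++ u) ∧ t.length = 3 ∧ u.length = 3 ∧ 1 + t.sum = a ∧
          RL 1 t ∧ RL 1 u) := by
      intro a ha ha'
      rcases cover_two h ha ha' with ⟨s, hs, e, m, hp, hse, hR⟩ | ⟨x, y, hs, hx, hRx, hRy⟩
      · left
        refine ⟨s, hs, ?_⟩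
        have hm : ∀ a ∈ m, a ≠ 0 := fun a ha => hl a (hp.mem_iff.2 (by simp [ha]))
        have e1 := hp.sum_eq
        have e2 := hp.length_eq
        rw [List.sum_cons] at e1
        rw [List.length_cons] at e2
        rcases Nat.lt_or_ge s e with hlt | hge
        · exfalso
          have h1 : ∀ a ∈ (e - s) :: m, a ≠ 0 := by
            intro a ha
            rw [List.mem_cons] at ha
            rcases ha with ha | ha
            · omega
            · exact hm a ha
          have := ih _ (by rw [List.sum_cons]; omega) h1 hR rfl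
          rw [List.length_cons] at this
          omega
        · have : s = e := by omega
          subst this
          rw [Nat.sub_self, RL_zero_cons] at hR
          exact ⟨m, hp, hR⟩
      · right
        have hnx := RL_one_nz hRx
        have hny := RL_one_nz hRy
        have hle := hs.nz_le
        rw [nz_of_pos hl] at hle
        have hp := hs.pick hl (by omega)
        refine ⟨_, _, hp, ?_, ?_, ?_, RL_filter.1 hRx, RL_filter.1 hRy⟩
        · show nz x = 3
          omega
        · show nz y = 3
          omega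
        · rw [sum_filter_ne]; exact hx
    have hlen6 : l.length = 6 := by
      by_contra hne
      rcases H 1 (by omega) (by omega) with ⟨s, hs, m, hp, hR⟩ | ⟨t, u, hp, ht, hu, -⟩
      · have hm : ∀ a ∈ m, a ≠ 0 := fun a ha => hl a (hp.mem_iff.2 (by simp [ha]))
        have e1 := hp.sum_eq
        have e2 := hp.length_eq
        rw [List.sum_cons] at e1
        rw [List.length_cons] at e2
        have hs0 : s ≠ 0 := hl s (hp.mem_iff.2 (by simp))
        have := ih _ (by omega) hm hR rfl
        omega
      · have := hp.length_eq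
        rw [List.length_append] at this
        omega
    have H' : ∀ a, 1 ≤ a → a < 2 + l.sum → a ≤ 7 → a ∈ l ∨ (a = 7 ∧ 2 + l.sum - a ∈ l) ∨
        (∃ t u, l.Perm (t ++ u) ∧ t.length = 3 ∧ u.length = 3 ∧ 1 + t.sum = a ∧
          RL 1 t ∧ RL 1 u) := by
      intro a ha ha' ha7
      rcases H a ha ha' with ⟨s, hs, m, hp, -⟩ | h
      · have hsl : s ∈ l := hp.mem_iff.2 (by simp)
        rcases hs with rfl | rfl
        · exact Or.inl hsl
        · right; left
          have := mem_le_sum hl hsl
          exact ⟨by omega, hsl⟩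
      · exact Or.inr (Or.inr h)
    have htpos : ∀ t u : List ℕ, l.Perm (t ++ u) → ∀ a ∈ t, a ≠ 0 := by
      intro t u hp a ha
      exact hl a (hp.mem_iff.2 (by simp [ha]))
    have small : ∀ a, 1 ≤ a → a < 4 → a ∈ l := by
      intro a ha ha4
      rcases H' a ha (by omega) (by omega) with h | h | ⟨t, u, hp, ht, hu, hta, -⟩
      · exact h
      · omega
      · have := sum_ge_length (htpos t u hp)
        omega
    obtain ⟨m1, hm1⟩ := exists_perm_cons (small 1 (by omega) (by omega))
    have h2 : 2 ∈ m1 := by
      have := hm1.mem_iff.1 (small 2 (by omega) (by omega))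
      simpa using this
    obtain ⟨m2, hm2⟩ := exists_perm_cons h2
    have h3 : 3 ∈ m2 := by
      have := hm1.mem_iff.1 (small 3 (by omega) (by omega))
      simp only [List.mem_cons] at this
      rcases this with h | h
      · omega
      · have := hm2.mem_iff.1 h
        simpa using this
    obtain ⟨m3, hm3⟩ := exists_perm_cons h3
    have hp3 : l.Perm (1 :: 2 :: 3 :: m3) :=
      hm1.trans ((hm2.trans (hm3.cons 2)).cons 1)
    have e1 := hp3.sum_eq
    have e2 := hp3.length_eq
    simp only [List.sum_cons, List.length_cons] at e1 e2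
    have hm3' : ∀ a ∈ m3, a ≠ 0 := fun a ha => hl a (hp3.mem_iff.2 (by simp [ha]))
    have hm3s := sum_ge_length hm3'
    have h4 : 4 ∈ l := by
      rcases H' 4 (by omega) (by omega) (by omega) with h | h | ⟨t, u, hp, ht, hu, hta, hRt, -⟩
      · exact h
      · omega
      · exact (not_RL_one_sum_three (htpos t u hp) ht (by omega) hRt).elim
    have h4' : 4 ∈ m3 := by
      have := hp3.mem_iff.1 h4
      simpa using this
    obtain ⟨m4, hm4⟩ := exists_perm_cons h4'
    have e3 := hm4.sum_eq
    have e4 := hm4.length_eq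
    simp only [List.sum_cons, List.length_cons] at e3 e4
    have hm4' : ∀ a ∈ m4, a ≠ 0 := fun a ha => hm3' a (hm4.mem_iff.2 (by simp [ha]))
    have hm4s := sum_ge_length hm4'
    have h6 : 6 ∈ l := by
      rcases H' 6 (by omega) (by omega) (by omega) with h | h | ⟨t, u, hp, ht, hu, hta, hRt, -⟩
      · exact h
      · omega
      · exact (not_RL_one_sum_five (htpos t u hp) ht (by omega) hRt).elim
    have h6' : 6 ∈ m4 := by
      have := hp3.mem_iff.1 h6
      simp only [List.mem_cons] at this
      rcases this with h | h | h | h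
      · omega
      · omega
      · omega
      · have := hm4.mem_iff.1 h
        simpa using this
    obtain ⟨m5, hm5⟩ := exists_perm_cons h6'
    have e5 := hm5.sum_eq
    have e6 := hm5.length_eq
    simp only [List.sum_cons, List.length_cons] at e5 e6
    obtain ⟨w, rfl⟩ : ∃ w, m5 = [w] := List.length_eq_one_iff.1 (by omega)
    have hw : w ≠ 0 := hm4' w (hm5.mem_iff.2 (by simp))
    have hp : l.Perm [1, 2, 3, 4, 6, w] :=
      hp3.trans ((((hm4.trans (hm5.cons 4)).cons 3).cons 2).cons 1)
    have hw15 : w = 5 ∨ w = 1 := by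
      rcases H' 5 (by omega) (by omega) (by omega) with h | h | ⟨t, u, hptu, ht, hu, hta, hRt, -⟩
      · have := hp.mem_iff.1 h
        simp only [List.mem_cons, List.not_mem_nil, or_false] at this
        omega
      · omega
      · right
        obtain ⟨p, hpk, h1, h2⟩ := picks_complete (hp.symm.trans hptu)
        rw [ht] at hpk
        have hs : p.1.sum = 4 := by rw [← h1.sum_eq]; omega
        simp only [picks, List.map_cons, List.map_nil, List.cons_append, List.nil_append,
          List.mem_cons, List.not_mem_nil, or_false] at hpk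
        rcases hpk with h | h | h | h | h | h | h | h | h | h | h | h | h | h | h | h | h | h |
          h | h <;> subst h <;> simp only [List.sum_cons, List.sum_nil] at hs <;> omega
    rcases hw15 with rfl | rfl
    · have hR := h.perm hp
      rcases H' 7 (by omega) (by have := hp.sum_eq; simp at this; omega) (le_refl 7) with
        h | h | ⟨t, u, hptu, ht, hu, hta, hRt, hRu⟩
      · have := hp.mem_iff.1 h
        simp at this
      · have := hp.mem_iff.1 h.2
        have e := hp.sum_eq
        simp only [List.sum_cons, List.sum_nil] at e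
        rw [e] at this
        simp at this
      · obtain ⟨p, hpk, h1, h2⟩ := picks_complete (hp.symm.trans hptu)
        rw [ht] at hpk
        have hs : p.1.sum = 6 := by rw [← h1.sum_eq]; omega
        have key : ∀ p ∈ picks 3 [1, 2, 3, 4, 6, 5], p.1.sum = 6 → p.2 = [4, 6, 5] := by decide
        have := key p hpk hs
        rw [this] at h2
        have := RL_one_three (by omega) (by omega) (by omega) (hRu.perm h2)
        revert this
        decide
    · rcases H' 5 (by omega) (by omega) (by omega) with
        h | h | ⟨t, u, hptu, ht, hu, hta, hRt, hRu⟩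
      · have := hp.mem_iff.1 h
        simp at this
      · omega
      · obtain ⟨p, hpk, h1, h2⟩ := picks_complete (hp.symm.trans hptu)
        rw [ht] at hpk
        have hs : p.1.sum = 4 := by rw [← h1.sum_eq]; omega
        have key : ∀ p ∈ picks 3 [1, 2, 3, 4, 6, 1], p.1.sum = 4 → p.2 = [3, 4, 6] := by decide
        have := key p hpk hs
        rw [this] at h2
        have := RL_one_three (by omega) (by omega) (by omega) (hRu.perm h2)
        revert this
        decide

theorem RL_two_nz {l : List ℕ} (h : RL 2 l) : nz l ≤ 5 :=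
  RL_two_length (l := l.filter (fun a => decide (a ≠ 0))) mem_filter_ne (RL_filter.1 h)

/-- all splittings of a list with prescribed sum of the first part and bounded numbers of nonzero
entries -/
def spl : List ℕ → ℕ → ℕ → ℕ → List (List ℕ × List ℕ)
  | [], s, _, _ => if Nat.beq s 0 then [([], [])] else []
  | b :: l, s, kx, ky => (List.range (b + 1)).flatMap (fun v =>
      if Nat.ble v s && (Nat.beq v 0 || Nat.ble 1 kx) && (Nat.beq v b || Nat.ble 1 ky) then
        (spl l (s - v) (if Nat.beq v 0 then kx else kx - 1)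
          (if Nat.beq v b then ky else ky - 1)).map (fun p => (v :: p.1, (b - v) :: p.2))
      else [])

theorem spl_complete {l x y : List ℕ} (h : Split l x y) :
    ∀ (kx ky : ℕ), nz x ≤ kx → nz y ≤ ky → (x, y) ∈ spl l x.sum kx ky := by
  induction h with
  | nil => intro kx ky _ _; simp [spl]
  | @cons a b l x y h ih =>
    intro kx ky hx hy
    simp only [spl, List.mem_flatMap, List.mem_range]
    refine ⟨a, by omega, ?_⟩
    have h1 : Nat.ble a (a :: x).sum = true := by
      rw [Nat.ble_eq, List.sum_cons]; omega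
    have h2 : (Nat.beq a 0 || Nat.ble 1 kx) = true := by
      rw [Bool.or_eq_true, Nat.beq_eq, Nat.ble_eq]
      by_cases ha : a = 0
      · exact Or.inl ha
      · rw [nz_cons_pos ha] at hx; right; omega
    have h3 : (Nat.beq a (a + b) || Nat.ble 1 ky) = true := by
      rw [Bool.or_eq_true, Nat.beq_eq, Nat.ble_eq]
      by_cases hb : b = 0
      · left; omega
      · rw [nz_cons_pos hb] at hy; right; omega
    rw [h1, h2, h3]
    simp only [Bool.and_self, if_true, List.mem_map]
    refine ⟨(x, y), ?_, ?_⟩
    · have e1 : (a :: x).sum - a = x.sum := by rw [List.sum_cons]; omega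
      rw [e1]
      apply ih
      · by_cases ha : a = 0
        · subst ha; rw [nz_cons_zero] at hx; simpa using hx
        · have : ¬ (Nat.beq a 0 = true) := by rw [Nat.beq_eq]; exact ha
          rw [if_neg this]
          rw [nz_cons_pos ha] at hx; omega
      · by_cases hb : b = 0
        · subst hb; rw [nz_cons_zero] at hy; simpa using hy
        · have : ¬ (Nat.beq a (a + b) = true) := by rw [Nat.beq_eq]; omega
          rw [if_neg this]
          rw [nz_cons_pos hb] at hy; omega
    · have : a + b - a = b := by omega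
      rw [this]

/-- general reasons for `K_1(l)` not to be recursively partitionable -/
def nrgen (l : List ℕ) : Bool :=
  match srt l with
  | [p, q, r] => (Nat.beq p 1 && Nat.beq q 1 && Nat.beq (r % 2) 1) ||
      (Nat.ble 2 p && Nat.ble 2 q && Nat.ble 2 r && !([p, q, r].isPerm [2, 4, 6]))
  | _ => false

theorem nrgen_sound {l : List ℕ} (h : nrgen l = true) : ¬ RL 1 l := by
  intro hR
  rw [← RL_srt] at hR
  unfold nrgen at h
  split at h
  · rename_i p q r heq
    rw [heq] at hR
    simp only [Bool.or_eq_true, Bool.and_eq_true, Nat.beq_eq, Nat.ble_eq, Bool.not_eq_true'] at h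
    rcases h with ⟨⟨rfl, rfl⟩, h⟩ | ⟨⟨⟨h1, h2⟩, h3⟩, h⟩
    · have := RL_one_one_even hR
      omega
    · have := RL_one_three h1 h2 h3 hR
      rw [← List.isPerm_iff] at this
      rw [this] at h
      exact absurd h (by simp)
  · exact absurd h (by simp)

/-- known not to be recursively partitionable (centre of size one) -/
def n1 (T : List (ℕ × List ℕ)) (l : List ℕ) : Bool := nr1 T l || nrgen l

theorem n1_sound {T : List (ℕ × List ℕ)} (hT : Sound T) {l : List ℕ} (h : n1 T l = true) :
    ¬ RL 1 l := by
  rw [n1, Bool.or_eq_true] at h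
  rcases h with h | h
  · exact nr1_sound hT h
  · exact nrgen_sound h

/-- known not to be recursively partitionable (centre of size two) -/
def n2 (T : List (ℕ × List ℕ)) (l : List ℕ) : Bool :=
  Nat.ble 6 (nz l) || T.contains (2, srt l)

theorem n2_sound {T : List (ℕ × List ℕ)} (hT : Sound T) {l : List ℕ} (h : n2 T l = true) :
    ¬ RL 2 l := by
  intro hR
  simp only [n2, Bool.or_eq_true, Nat.ble_eq] at h
  rcases h with h | h
  · have := RL_two_nz hR
    omega
  · have h1 : ((2, srt l) : ℕ × List ℕ) ∈ T := by simpa using h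
    exact hT _ h1 (RL_srt.2 hR)

theorem ble_not_false {x y : ℕ} (hxy : x ≤ y) : ¬ (Nat.ble x y = false) := by
  intro hf
  rw [← Nat.ble_eq] at hxy
  rw [hxy] at hf
  exact absurd hf (by simp)

/-- refutation through the part size `a`, centre of size one -/
def ref1 (T : List (ℕ × List ℕ)) (l : List ℕ) (a : ℕ) : Bool :=
  Nat.ble 1 a && Nat.ble (a + 1) (1 + l.sum) && (sel l).all (fun p =>
    (!(Nat.ble a p.1) || n1 T ((p.1 - a) :: p.2)) &&
    (!(Nat.ble (1 + l.sum - a) p.1) || n1 T ((p.1 - (1 + l.sum - a)) :: p.2)))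

theorem ref1_sound {T : List (ℕ × List ℕ)} (hT : Sound T) {l : List ℕ} {a : ℕ}
    (h : ref1 T l a = true) : ¬ RL 1 l := by
  intro hR
  simp only [ref1, Bool.and_eq_true, Bool.or_eq_true, Nat.ble_eq, List.all_eq_true,
    Bool.not_eq_true'] at h
  obtain ⟨⟨h1, h2⟩, h3⟩ := h
  obtain ⟨p, hp, s, hs, hse, hRm⟩ := cover_one_sel hR h1 (by omega)
  have h4 := h3 _ hp
  rcases hs with rfl | rfl
  · rcases h4.1 with h5 | h5
    · exact ble_not_false hse h5
    · exact n1_sound hT h5 hRm
  · rcases h4.2 with h5 | h5
    · exact ble_not_false hse h5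
    · exact n1_sound hT h5 hRm

/-- refutation through the part size `a`, centre of size two -/
def ref2 (T : List (ℕ × List ℕ)) (l : List ℕ) (a : ℕ) : Bool :=
  Nat.ble 1 a && Nat.ble (a + 1) (2 + l.sum) && (sel l).all (fun p =>
    (!(Nat.ble a p.1) || n2 T ((p.1 - a) :: p.2)) &&
    (!(Nat.ble (2 + l.sum - a) p.1) || n2 T ((p.1 - (2 + l.sum - a)) :: p.2))) &&
  (spl l (a - 1) 3 3).all (fun p => n1 T p.1 || n1 T p.2)

theorem ref2_sound {T : List (ℕ × List ℕ)} (hT : Sound T) {l : List ℕ} {a : ℕ}
    (h : ref2 T l a = true) : ¬ RL 2 l := by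
  intro hR
  simp only [ref2, Bool.and_eq_true, Bool.or_eq_true, Nat.ble_eq, List.all_eq_true,
    Bool.not_eq_true'] at h
  obtain ⟨⟨⟨h1, h2⟩, h3⟩, h6⟩ := h
  rcases cover_two hR h1 (by omega) with ⟨s, hs, e, m, hp, hse, hRm⟩ | ⟨x, y, hs, hx, hRx, hRy⟩
  · obtain ⟨m', hm', hmm⟩ := sel_complete hp
    have h4 := h3 _ hm'
    have hRm' : RL 2 ((e - s) :: m') := hRm.perm (hmm.cons _)
    rcases hs with rfl | rfl
    · rcases h4.1 with h5 | h5
      · exact ble_not_false hse h5
      · exact n2_sound hT h5 hRm'
    · rcases h4.2 with h5 | h5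
      · exact ble_not_false hse h5
      · exact n2_sound hT h5 hRm'
  · have h7 := spl_complete hs 3 3 (RL_one_nz hRx) (RL_one_nz hRy)
    have hxs : x.sum = a - 1 := by omega
    rw [hxs] at h7
    rcases h6 _ h7 with h8 | h8
    · exact n1_sound hT h8 hRx
    · exact n1_sound hT h8 hRy

/-- checks a table of non-recursively-partitionable semistars with centres of size one and two -/
def checkT : List ((ℕ × List ℕ) × ℕ) → Bool
  | [] => true
  | p :: T => ((Nat.beq p.1.1 1 && ref1 (T.map Prod.fst) p.1.2 p.2) ||
      (Nat.beq p.1.1 2 && ref2 (T.map Prod.fst) p.1.2 p.2)) && checkT T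

theorem checkT_sound (T : List ((ℕ × List ℕ) × ℕ)) (h : checkT T = true) :
    Sound (T.map Prod.fst) := by
  induction T with
  | nil => intro p hp; simp at hp
  | cons p T ih =>
    simp only [checkT, Bool.and_eq_true, Bool.or_eq_true, Nat.beq_eq] at h
    intro q hq
    simp only [List.map_cons, List.mem_cons] at hq
    rcases hq with rfl | hq
    · rcases h.1 with ⟨h1, h2⟩ | ⟨h1, h2⟩
      · rw [h1]; exact ref1_sound (ih h.2) h2
      · rw [h1]; exact ref2_sound (ih h.2) h2
    · exact ih h.2 q hq

end Pool.Agent.Semistar
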