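import Pool.Agent.Semistar.T2

set_option autoImplicit false

/-!
Semistars with a centre of size three and eight cliques.
-/

namespace Pool.Agent.Semistar

/-- some semistars with centres of size one and two that are not recursively partitionable -/
def NT : List ((ℕ × List ℕ) × ℕ) :=
  [((2, [3, 4, 6, 10, 16]), 17), ((2, [3, 4, 6, 9, 16]), 17), ((2, [4, 5, 6, 9, 14]), 15),
   ((2, [4, 5, 6, 10, 13]), 14), ((2, [3, 4, 6, 10, 14]), 15), ((2, [4, 5, 6, 8, 14]), 15),
   ((2, [4, 5, 6, 9, 13]), 14), ((2, [3, 4, 6, 10, 13]), 14), ((2, [4, 5, 6, 8, 13]), 14),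
   ((2, [4, 5, 6, 8, 12]), 13), ((2, [4, 5, 6, 8, 11]), 12), ((2, [3, 5, 6, 7, 12]), 13),
   ((2, [3, 4, 6, 8, 11]), 12), ((2, [2, 3, 4, 6, 16]), 7), ((2, [3, 4, 4, 6, 14]), 15),
   ((2, [1, 3, 4, 6, 16]), 7), ((2, [2, 3, 4, 6, 15]), 16), ((2, [3, 4, 6, 6, 11]), 12),
   ((2, [3, 4, 6, 8, 9]), 10), ((2, [1, 3, 4, 6, 14]), 15), ((2, [2, 4, 5, 6, 11]), 14),
   ((2, [3, 4, 5, 6, 10]), 11), ((2, [3, 4, 6, 7, 8]), 9), ((2, [2, 3, 4, 6, 11]), 14),
   ((2, [2, 3, 5, 6, 10]), 12), ((2, [2, 4, 5, 6, 9]), 10), ((2, [3, 3, 4, 6, 10]), 11),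
   ((2, [3, 4, 4, 6, 9]), 10), ((2, [1, 3, 4, 6, 10]), 7), ((2, [1, 4, 5, 6, 8]), 9),
   ((2, [2, 3, 4, 6, 9]), 10), ((2, [2, 3, 5, 6, 8]), 9), ((2, [3, 3, 4, 6, 8]), 9),
   ((2, [1, 2, 2, 6, 12]), 7), ((2, [1, 3, 4, 6, 9]), 10), ((2, [2, 2, 3, 4, 12]), 5),
   ((2, [1, 2, 3, 6, 10]), 12), ((2, [2, 3, 4, 6, 7]), 8), ((2, [3, 3, 4, 6, 6]), 7),
   ((2, [1, 2, 3, 4, 10]), 11), ((2, [1, 2, 3, 5, 9]), 11), ((2, [1, 3, 4, 6, 6]), 7),
   ((2, [2, 3, 4, 5, 6]), 7), ((2, [3, 3, 4, 4, 6]), 7), ((2, [1, 3, 4, 5, 6]), 7),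
   ((2, [2, 3, 4, 4, 6]), 7), ((2, [3, 3, 3, 4, 6]), 7), ((2, [1, 2, 3, 6, 6]), 8),
   ((2, [2, 2, 3, 4, 7]), 10), ((2, [2, 3, 3, 4, 6]), 10), ((2, [1, 3, 3, 4, 6]), 5),
   ((2, [1, 1, 3, 5, 6]), 6), ((2, [1, 2, 2, 3, 8]), 9), ((2, [1, 2, 2, 5, 6]), 7),
   ((2, [1, 2, 2, 3, 6]), 8), ((2, [1, 2, 2, 4, 5]), 6), ((1, [1, 4, 9]), 5),
   ((2, [1, 1, 3, 4, 4]), 5), ((1, [1, 3, 9]), 2), ((2, [1, 1, 1, 3, 6]), 4),
   ((2, [1, 1, 3, 3, 4]), 4), ((1, [1, 3, 7]), 6), ((2, [1, 1, 2, 3, 3]), 6),
   ((2, [1, 1, 3, 5]), 6), ((1, [1, 3, 5]), 4), ((1, [1, 4, 4]), 5), ((2, [1, 1, 1, 2, 3]), 4),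
   ((2, [1, 1, 3, 3]), 4), ((1, [1, 2, 2]), 3)]

/-- the check of the entry number `k` -/
def stepT : List ((ℕ × List ℕ) × ℕ) → ℕ → Bool
  | [], _ => true
  | p :: T, 0 => ((Nat.beq p.1.1 1 && ref1 (T.map Prod.fst) p.1.2 p.2) ||
      (Nat.beq p.1.1 2 && ref2 (T.map Prod.fst) p.1.2 p.2))
  | _ :: T, k + 1 => stepT T k

theorem checkT_of_step : ∀ T : List ((ℕ × List ℕ) × ℕ),
    (∀ k < T.length, stepT T k = true) → checkT T = true
  | [], _ => rfl
  | p :: T, h => by
    have h0 := h 0 (Nat.succ_pos _)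
    have h1 := checkT_of_step T (fun k hk => h (k + 1) (Nat.succ_lt_succ hk))
    rw [checkT, Bool.and_eq_true]
    exact ⟨h0, h1⟩

theorem NT_length : NT.length = 69 := by decide

theorem NT_s0 : stepT NT 0 = true := by decide +kernel
theorem NT_s1 : stepT NT 1 = true := by decide +kernel
theorem NT_s2 : stepT NT 2 = true := by decide +kernel
theorem NT_s3 : stepT NT 3 = true := by decide +kernel
theorem NT_s4 : stepT NT 4 = true := by decide +kernel
theorem NT_s5 : stepT NT 5 = true := by decide +kernel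
theorem NT_s6 : stepT NT 6 = true := by decide +kernel
theorem NT_s7 : stepT NT 7 = true := by decide +kernel
theorem NT_s8 : stepT NT 8 = true := by decide +kernel
theorem NT_s9 : stepT NT 9 = true := by decide +kernel
theorem NT_s10 : stepT NT 10 = true := by decide +kernel
theorem NT_s11 : stepT NT 11 = true := by decide +kernel
theorem NT_s12 : stepT NT 12 = true := by decide +kernel
theorem NT_s13 : stepT NT 13 = true := by decide +kernel
theorem NT_s14 : stepT NT 14 = true := by decide +kernel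
theorem NT_s15 : stepT NT 15 = true := by decide +kernel
theorem NT_s16 : stepT NT 16 = true := by decide +kernel
theorem NT_s17 : stepT NT 17 = true := by decide +kernel
theorem NT_s18 : stepT NT 18 = true := by decide +kernel
theorem NT_s19 : stepT NT 19 = true := by decide +kernel
theorem NT_s20 : stepT NT 20 = true := by decide +kernel
theorem NT_s21 : stepT NT 21 = true := by decide +kernel
theorem NT_s22 : stepT NT 22 = true := by decide +kernel
theorem NT_s23 : stepT NT 23 = true := by decide +kernel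
theorem NT_s24 : stepT NT 24 = true := by decide +kernel
theorem NT_s25 : stepT NT 25 = true := by decide +kernel
theorem NT_s26 : stepT NT 26 = true := by decide +kernel
theorem NT_s27 : stepT NT 27 = true := by decide +kernel
theorem NT_s28 : stepT NT 28 = true := by decide +kernel
theorem NT_s29 : stepT NT 29 = true := by decide +kernel
theorem NT_s30 : stepT NT 30 = true := by decide +kernel
theorem NT_s31 : stepT NT 31 = true := by decide +kernel
theorem NT_s32 : stepT NT 32 = true := by decide +kernel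
theorem NT_s33 : stepT NT 33 = true := by decide +kernel
theorem NT_s34 : stepT NT 34 = true := by decide +kernel
theorem NT_s35 : stepT NT 35 = true := by decide +kernel
theorem NT_s36 : stepT NT 36 = true := by decide +kernel
theorem NT_s37 : stepT NT 37 = true := by decide +kernel
theorem NT_s38 : stepT NT 38 = true := by decide +kernel
theorem NT_s39 : stepT NT 39 = true := by decide +kernel
theorem NT_s40 : stepT NT 40 = true := by decide +kernel
theorem NT_s41 : stepT NT 41 = true := by decide +kernel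
theorem NT_s42 : stepT NT 42 = true := by decide +kernel
theorem NT_s43 : stepT NT 43 = true := by decide +kernel
theorem NT_s44 : stepT NT 44 = true := by decide +kernel
theorem NT_s45 : stepT NT 45 = true := by decide +kernel
theorem NT_s46 : stepT NT 46 = true := by decide +kernel
theorem NT_s47 : stepT NT 47 = true := by decide +kernel
theorem NT_s48 : stepT NT 48 = true := by decide +kernel
theorem NT_s49 : stepT NT 49 = true := by decide +kernel
theorem NT_s50 : stepT NT 50 = true := by decide +kernel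
theorem NT_s51 : stepT NT 51 = true := by decide +kernel
theorem NT_s52 : stepT NT 52 = true := by decide +kernel
theorem NT_s53 : stepT NT 53 = true := by decide +kernel
theorem NT_s54 : stepT NT 54 = true := by decide +kernel
theorem NT_s55 : stepT NT 55 = true := by decide +kernel
theorem NT_s56 : stepT NT 56 = true := by decide +kernel
theorem NT_s57 : stepT NT 57 = true := by decide +kernel
theorem NT_s58 : stepT NT 58 = true := by decide +kernel
theorem NT_s59 : stepT NT 59 = true := by decide +kernel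
theorem NT_s60 : stepT NT 60 = true := by decide +kernel
theorem NT_s61 : stepT NT 61 = true := by decide +kernel
theorem NT_s62 : stepT NT 62 = true := by decide +kernel
theorem NT_s63 : stepT NT 63 = true := by decide +kernel
theorem NT_s64 : stepT NT 64 = true := by decide +kernel
theorem NT_s65 : stepT NT 65 = true := by decide +kernel
theorem NT_s66 : stepT NT 66 = true := by decide +kernel
theorem NT_s67 : stepT NT 67 = true := by decide +kernel
theorem NT_s68 : stepT NT 68 = true := by decide +kernel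

theorem NT_ok : checkT NT = true := by
  refine checkT_of_step NT fun k hk => ?_
  rw [NT_length] at hk
  interval_cases k
  · exact NT_s0
  · exact NT_s1
  · exact NT_s2
  · exact NT_s3
  · exact NT_s4
  · exact NT_s5
  · exact NT_s6
  · exact NT_s7
  · exact NT_s8
  · exact NT_s9
  · exact NT_s10
  · exact NT_s11
  · exact NT_s12
  · exact NT_s13
  · exact NT_s14
  · exact NT_s15
  · exact NT_s16
  · exact NT_s17
  · exact NT_s18
  · exact NT_s19
  · exact NT_s20
  · exact NT_s21
  · exact NT_s22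
  · exact NT_s23
  · exact NT_s24
  · exact NT_s25
  · exact NT_s26
  · exact NT_s27
  · exact NT_s28
  · exact NT_s29
  · exact NT_s30
  · exact NT_s31
  · exact NT_s32
  · exact NT_s33
  · exact NT_s34
  · exact NT_s35
  · exact NT_s36
  · exact NT_s37
  · exact NT_s38
  · exact NT_s39
  · exact NT_s40
  · exact NT_s41
  · exact NT_s42
  · exact NT_s43
  · exact NT_s44
  · exact NT_s45
  · exact NT_s46
  · exact NT_s47
  · exact NT_s48
  · exact NT_s49
  · exact NT_s50
  · exact NT_s51
  · exact NT_s52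
  · exact NT_s53
  · exact NT_s54
  · exact NT_s55
  · exact NT_s56
  · exact NT_s57
  · exact NT_s58
  · exact NT_s59
  · exact NT_s60
  · exact NT_s61
  · exact NT_s62
  · exact NT_s63
  · exact NT_s64
  · exact NT_s65
  · exact NT_s66
  · exact NT_s67
  · exact NT_s68

/-- the same list without the part sizes -/
def NTl : List (ℕ × List ℕ) := NT.map Prod.fst

theorem NT_sound : Sound NTl := checkT_sound _ NT_ok

def F1 : List ℕ := [1, 1, 1, 2, 2, 3, 4, 6]
def F2 : List ℕ := [1, 1, 1, 2, 3, 4, 6, 8]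

/-- contains a one, or is a permutation of `[2, 4, 6]` -/
def w0 (t : List ℕ) : Bool := t.any (Nat.beq 1) || t.isPerm [2, 4, 6]

/-- sizes that might be covered -/
def sig0 (l : List ℕ) : List ℕ :=
  l ++ ([23, 29] ++ ((picks 3 l).filter (fun p => w0 p.1)).map (fun p => 1 + p.1.sum))

/-- some part size is not covered by `sig0` -/
def cheap (l : List ℕ) : Bool :=
  (List.range ((3 + l.sum) / 2)).any (fun i =>
    (sig0 l).all (fun s => !(Nat.beq s (i + 1)) && !(Nat.beq (s + (i + 1)) (3 + l.sum))))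

/-- the part size `a` is not possible -/
def ref3 (l : List ℕ) (a : ℕ) : Bool :=
  (l ++ [23, 29]).all (fun s => !(Nat.beq s a) && !(Nat.beq (s + a) (3 + l.sum))) &&
  (picks 3 l).all (fun p => (!(Nat.beq (1 + p.1.sum) a) && !(Nat.beq (1 + p.1.sum + a)
    (3 + l.sum))) || (n1 NTl p.1 || n2 NTl p.2))

/-- full check of a list -/
def chk (l : List ℕ) : Bool :=
  cheap l || ((List.range ((3 + l.sum) / 2)).any (fun i => ref3 l (i + 1)) ||
    (l.isPerm F1 || l.isPerm F2))

end Pool.Agent.Semistar
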