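import Pool.Agent.Semistar.T3

set_option autoImplicit false

namespace Pool.Agent.Semistar

theorem chk_exc1_0 : (List.range 43).all (fun s => chk ((1 + s) :: [1, 1, 2, 2, 3, 4, 6])) = true := by
  decide +kernel

theorem chk_exc1_1 : (List.range 43).all (fun s => chk ((1 + s) :: [1, 1, 2, 2, 3, 4, 6])) = true := by
  decide +kernel

theorem chk_exc1_2 : (List.range 43).all (fun s => chk ((1 + s) :: [1, 1, 2, 2, 3, 4, 6])) = true := by
  decide +kernel

theorem chk_exc1_3 : (List.range 43).all (fun s => chk ((2 + s) :: [1, 1, 1, 2, 3, 4, 6])) = true := by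
  decide +kernel

theorem chk_exc1_4 : (List.range 43).all (fun s => chk ((2 + s) :: [1, 1, 1, 2, 3, 4, 6])) = true := by
  decide +kernel

theorem chk_exc1_5 : (List.range 43).all (fun s => chk ((3 + s) :: [1, 1, 1, 2, 2, 4, 6])) = true := by
  decide +kernel

theorem chk_exc1_6 : (List.range 43).all (fun s => chk ((4 + s) :: [1, 1, 1, 2, 2, 3, 6])) = true := by
  decide +kernel

theorem chk_exc1_7 : (List.range 43).all (fun s => chk ((6 + s) :: [1, 1, 1, 2, 2, 3, 4])) = true := by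
  decide +kernel

theorem sel_F1 : sel F1 =
    [(1, [1, 1, 2, 2, 3, 4, 6]),
      (1, [1, 1, 2, 2, 3, 4, 6]),
      (1, [1, 1, 2, 2, 3, 4, 6]),
      (2, [1, 1, 1, 2, 3, 4, 6]),
      (2, [1, 1, 1, 2, 3, 4, 6]),
      (3, [1, 1, 1, 2, 2, 4, 6]),
      (4, [1, 1, 1, 2, 2, 3, 6]),
      (6, [1, 1, 1, 2, 2, 3, 4])] := by decide

theorem chk_exc1 : (sel F1).all (fun p => (List.range 43).all (fun s =>
    chk ((p.1 + s) :: p.2))) = true := by
  rw [sel_F1, List.all_eq_true]
  intro p hp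
  simp only [List.mem_cons, List.not_mem_nil, or_false] at hp
  rcases hp with rfl | rfl | rfl | rfl | rfl | rfl | rfl | rfl
  · exact chk_exc1_0
  · exact chk_exc1_1
  · exact chk_exc1_2
  · exact chk_exc1_3
  · exact chk_exc1_4
  · exact chk_exc1_5
  · exact chk_exc1_6
  · exact chk_exc1_7

theorem chk_exc2_0 : (List.range 37).all (fun s => chk ((1 + s) :: [1, 1, 2, 3, 4, 6, 8])) = true := by
  decide +kernel

theorem chk_exc2_1 : (List.range 37).all (fun s => chk ((1 + s) :: [1, 1, 2, 3, 4, 6, 8])) = true := by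
  decide +kernel

theorem chk_exc2_2 : (List.range 37).all (fun s => chk ((1 + s) :: [1, 1, 2, 3, 4, 6, 8])) = true := by
  decide +kernel

theorem chk_exc2_3 : (List.range 37).all (fun s => chk ((2 + s) :: [1, 1, 1, 3, 4, 6, 8])) = true := by
  decide +kernel

theorem chk_exc2_4 : (List.range 37).all (fun s => chk ((3 + s) :: [1, 1, 1, 2, 4, 6, 8])) = true := by
  decide +kernel

theorem chk_exc2_5 : (List.range 37).all (fun s => chk ((4 + s) :: [1, 1, 1, 2, 3, 6, 8])) = true := by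
  decide +kernel

theorem chk_exc2_6 : (List.range 37).all (fun s => chk ((6 + s) :: [1, 1, 1, 2, 3, 4, 8])) = true := by
  decide +kernel

theorem chk_exc2_7 : (List.range 37).all (fun s => chk ((8 + s) :: [1, 1, 1, 2, 3, 4, 6])) = true := by
  decide +kernel

theorem sel_F2 : sel F2 =
    [(1, [1, 1, 2, 3, 4, 6, 8]),
      (1, [1, 1, 2, 3, 4, 6, 8]),
      (1, [1, 1, 2, 3, 4, 6, 8]),
      (2, [1, 1, 1, 3, 4, 6, 8]),
      (3, [1, 1, 1, 2, 4, 6, 8]),
      (4, [1, 1, 1, 2, 3, 6, 8]),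
      (6, [1, 1, 1, 2, 3, 4, 8]),
      (8, [1, 1, 1, 2, 3, 4, 6])] := by decide

theorem chk_exc2 : (sel F2).all (fun p => (List.range 37).all (fun s =>
    chk ((p.1 + s) :: p.2))) = true := by
  rw [sel_F2, List.all_eq_true]
  intro p hp
  simp only [List.mem_cons, List.not_mem_nil, or_false] at hp
  rcases hp with rfl | rfl | rfl | rfl | rfl | rfl | rfl | rfl
  · exact chk_exc2_0
  · exact chk_exc2_1
  · exact chk_exc2_2
  · exact chk_exc2_3
  · exact chk_exc2_4
  · exact chk_exc2_5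
  · exact chk_exc2_6
  · exact chk_exc2_7

end Pool.Agent.Semistar
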